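import Pool.Agent.K1H88.CH.Forms

/-! The ends of chains with one or two legs. -/

namespace Pool.Agent.K1H88.CH

open Matrix Pool.Agent.K1H88.PG
open Pool.Agent.H548.WM (ht Rep le_ht' ht_le mem_bx)

/-- The end with the coefficients `c` satisfies the estimates. -/
def HasEnd {r : ℕ} (c : (Fin r → Fin 2) → V) : Prop :=
  ∃ (E : EndT) (φ : (Fin r → V2) → E.Ω), E.OK ∧ Function.Injective φ ∧
    (∀ t, E.u (φ t) = cov c t) ∧
    (∀ s : Fin r → ℝ, (∀ k, 1 ≤ s k) → ∃ σ : E.S, E.X σ = ∏ k, s k ∧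
      ∀ t, (∀ k, Rep (t k) ∧ s k ≤ ht (t k) ∧ (ht (t k) : ℝ) ≤ 2 * s k) → φ t ∈ E.mem σ) ∧
    ∀ t p, cov c t ⬝ᵥ p = 0 → (∀ k, leg c t p k ≠ 0) → E.nd p

theorem hasEnd1 {c : (Fin 1 → Fin 2) → V} (hn : c (fun _ => 0) ⨯₃ c (fun _ => 1) ≠ 0) :
    HasEnd c := by
  refine ⟨oneEnd (c fun _ => 0) (c fun _ => 1), fun t => t 0, oneEnd_ok hn, ?_, ?_, ?_, ?_⟩
  · intro t t' h
    funext k
    obtain rfl : k = 0 := by omega
    exact h
  · intro t
    rw [cov_one]
    rfl
  · intro s hs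
    refine ⟨⟨s 0, hs 0⟩, ?_, fun t ht => ?_⟩
    · change s 0 = _
      simp
    · exact ht 0
  · intro t p _ h
    change (c (fun _ => 0) ⨯₃ c (fun _ => 1)) ⨯₃ p ≠ 0
    intro h0
    set x := c fun _ => 0 with hx
    set y := c fun _ => 1 with hy
    have e1 : p ⨯₃ (x ⨯₃ y) = 0 := by rw [← cross_anticomm, h0, neg_zero]
    rw [cross_cross'] at e1
    have e2 := congrArg (fun v => v ⨯₃ y) e1
    simp only [LinearMap.map_sub₂, LinearMap.map_smul₂, cross_self, smul_zero, sub_zero,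
      LinearMap.map_zero₂] at e2
    have f1 : p ⬝ᵥ y = 0 := (smul_eq_zero.1 e2).resolve_right hn
    have e3 := congrArg (fun v => x ⨯₃ v) e1
    simp only [map_sub, map_smul, cross_self, smul_zero, zero_sub, map_zero, neg_eq_zero] at e3
    have f2 : p ⬝ᵥ x = 0 := (smul_eq_zero.1 e3).resolve_right hn
    apply h 0
    funext v
    have h2 : v = 0 ∨ v = 1 := by omega
    rcases h2 with rfl | rfl
    · unfold leg
      rw [cov_one, Function.update_self]
      simp only [Pi.single_eq_same, one_smul, ne_eq, zero_ne_one, not_false_eq_true,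
        Pi.single_eq_of_ne, Pi.single_eq_of_ne', zero_smul, add_zero, Pi.zero_apply]
      rw [dotProduct_comm]
      exact f2
    · unfold leg
      rw [cov_one, Function.update_self]
      simp only [Pi.single_eq_same, one_smul, ne_eq, zero_ne_one, not_false_eq_true, one_ne_zero,
        Pi.single_eq_of_ne, Pi.single_eq_of_ne', zero_smul, zero_add, Pi.zero_apply]
      rw [dotProduct_comm]
      exact f1

/-- The derivatives for two legs. -/
theorem leg_zero {R : Type} [CommRing R] (c : (Fin 2 → Fin 2) → Fin 3 → R) (t : Fin 2 → Fin 2 → R)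
    (p : Fin 3 → R) (v : Fin 2) :
    leg c t p 0 v = t 1 0 * (c ![v, 0] ⬝ᵥ p) + t 1 1 * (c ![v, 1] ⬝ᵥ p) := by
  unfold leg
  have h2 : v = 0 ∨ v = 1 := by omega
  rcases h2 with rfl | rfl <;>
  · rw [cov_two, Function.update_self, Function.update_of_ne (by decide)]
    simp [add_dotProduct, smul_dotProduct]

theorem leg_one {R : Type} [CommRing R] (c : (Fin 2 → Fin 2) → Fin 3 → R) (t : Fin 2 → Fin 2 → R)
    (p : Fin 3 → R) (v : Fin 2) :
    leg c t p 1 v = t 0 0 * (c ![0, v] ⬝ᵥ p) + t 0 1 * (c ![1, v] ⬝ᵥ p) := by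
  unfold leg
  have h2 : v = 0 ∨ v = 1 := by omega
  rcases h2 with rfl | rfl <;>
  · rw [cov_two, Function.update_self, Function.update_of_ne (by decide)]
    simp [add_dotProduct, smul_dotProduct]

/-- The discriminant of the two legs. -/
theorem disc_ne {K : Type} [CommRing K] [IsDomain K] {c : (Fin 2 → Fin 2) → Fin 3 → K}
    {t : Fin 2 → Fin 2 → K} {p : Fin 3 → K} (h : cov c t ⬝ᵥ p = 0) (h' : ∀ k, leg c t p k ≠ 0) :
    (c ![0, 0] ⬝ᵥ p) * (c ![1, 1] ⬝ᵥ p) - (c ![0, 1] ⬝ᵥ p) * (c ![1, 0] ⬝ᵥ p) ≠ 0 := by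
  intro hd
  rw [← leg_dot c t p 0] at h
  have x0 := leg_zero c t p 0
  have x1 := leg_zero c t p 1
  have y0 := leg_one c t p 0
  have y1 := leg_one c t p 1
  set n00 := c ![0, 0] ⬝ᵥ p
  set n01 := c ![0, 1] ⬝ᵥ p
  set n10 := c ![1, 0] ⬝ᵥ p
  set n11 := c ![1, 1] ⬝ᵥ p
  have e1 : n11 * leg c t p 0 0 - n01 * leg c t p 0 1 = 0 := by
    rw [x0, x1]
    linear_combination t 1 0 * hd
  have e2 : n00 * leg c t p 0 1 - n10 * leg c t p 0 0 = 0 := by
    rw [x0, x1]
    linear_combination t 1 1 * hd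
  apply h' 1
  have key : ∀ v, leg c t p 0 v * leg c t p 1 0 = 0 ∧ leg c t p 0 v * leg c t p 1 1 = 0 := by
    intro v
    have h2 : v = 0 ∨ v = 1 := by omega
    rcases h2 with rfl | rfl
    · rw [y0, y1]
      constructor
      · linear_combination n00 * h - t 0 1 * e2
      · linear_combination n01 * h + t 0 1 * e1
    · rw [y0, y1]
      constructor
      · linear_combination n10 * h + t 0 0 * e2
      · linear_combination n11 * h - t 0 0 * e1
  have hx : ∃ v, leg c t p 0 v ≠ 0 := by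
    by_contra hc
    push Not at hc
    exact h' 0 (funext hc)
  obtain ⟨v, hv⟩ := hx
  funext w
  have h2 : w = 0 ∨ w = 1 := by omega
  rcases h2 with rfl | rfl
  · exact (mul_eq_zero.1 (key v).1).resolve_left hv
  · exact (mul_eq_zero.1 (key v).2).resolve_left hv

theorem hasEnd2 {c : (Fin 2 → Fin 2) → V} (h1 : (Nb fun i j => c ![i, j]).det ≠ 0)
    (h2 : (Nb (sw fun i j => c ![i, j])).det ≠ 0) : HasEnd c := by
  refine ⟨twoEnd fun i j => c ![i, j], fun t => (t 0, t 1), twoEnd_ok h1 h2, ?_, ?_, ?_, ?_⟩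
  · intro t t' h
    funext k
    have h2 : k = 0 ∨ k = 1 := by omega
    rcases h2 with rfl | rfl
    · exact congrArg Prod.fst h
    · exact congrArg Prod.snd h
  · intro t
    rw [cov_two]
    rfl
  · intro s hs
    refine ⟨(⟨s 0, hs 0⟩, ⟨s 1, hs 1⟩), ?_, fun t ht => ?_⟩
    · change s 0 * s 1 = _
      simp
    · exact ⟨ht 0, ht 1⟩
  · intro t p h h'
    exact disc_ne h h'

variable {r m r' : ℕ}

/-- The vertices as a sequence. -/
def ex (p : Fin (m + 1) → V) : ℕ → V := fun i =>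
  if h : 1 ≤ i ∧ i ≤ m + 1 then p ⟨i - 1, by omega⟩ else 0

theorem ex_in (p : Fin (m + 1) → V) (j : Fin (m + 1)) : ex p (j.val + 1) = p j := by
  unfold ex
  rw [dif_pos ⟨by omega, by omega⟩]
  congr 1

theorem ex_inj {p p' : Fin (m + 1) → V} (h : ex p = ex p') : p = p' := by
  funext j
  rw [← ex_in p j, ← ex_in p' j, h]

/-- The matrices as a sequence. -/
def exA (A : Fin m → Matrix (Fin 3) (Fin 3) ℤ) : ℕ → Matrix (Fin 3) (Fin 3) ℤ := fun i =>
  if h : 1 ≤ i ∧ i ≤ m then A ⟨i - 1, by omega⟩ else 1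

theorem exA_in (A : Fin m → Matrix (Fin 3) (Fin 3) ℤ) (j : Fin m) : exA A (j.val + 1) = A j := by
  unfold exA
  rw [dif_pos ⟨by omega, by omega⟩]
  congr 1

/-- The sizes as a sequence. -/
noncomputable def exX (s : Fin r → ℝ) (Y : Fin (m + 1) → ℝ) (s' : Fin r' → ℝ) : ℕ → ℝ := fun i =>
  if i = 0 then ∏ k, s k else if h : i ≤ m + 1 then Y ⟨i - 1, by omega⟩ else ∏ k, s' k

theorem exX_in (s : Fin r → ℝ) (Y : Fin (m + 1) → ℝ) (s' : Fin r' → ℝ) (j : Fin (m + 1)) :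
    exX s Y s' (j.val + 1) = Y j := by
  unfold exX
  rw [if_neg (by omega), dif_pos (by omega)]
  congr 1

theorem exX_prod (s : Fin r → ℝ) (Y : Fin (m + 1) → ℝ) (s' : Fin r' → ℝ) :
    ∏ i ∈ Finset.range (m + 1 + 2), exX s Y s' i = (∏ k, s k) * (∏ j, Y j) * ∏ k, s' k := by
  rw [Finset.prod_range_succ, Finset.prod_range_succ', Finset.prod_range]
  have e1 : exX s Y s' 0 = ∏ k, s k := if_pos rfl
  have e2 : exX s Y s' (m + 1 + 1) = ∏ k, s' k := by
    unfold exX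
    rw [if_neg (by omega), dif_neg (by omega)]
  rw [e1, e2, mul_comm (∏ k, s k)]
  congr 2
  apply Finset.prod_congr rfl
  intro j _
  exact exX_in s Y s' j

/-- The number of points in boxes. -/
theorem boxes (X : Eqs ℤ r m r') (hc : HasEnd X.c) (hA : ∀ i, (X.A i).det ≠ 0) (hc' : HasEnd X.c')
    (ε : ℝ) (hε : 0 < ε) : ∃ C : ℝ, 0 ≤ C ∧ ∀ (s : Fin r → ℝ) (Y : Fin (m + 1) → ℝ)
      (s' : Fin r' → ℝ) (Z : ℝ), (∀ k, 1 ≤ s k) → (∀ j, 1 ≤ Y j) → (∀ k, 1 ≤ s' k) →
      ∏ k, s k ≤ Z → (∀ j, Y j ≤ Z) → ∏ k, s' k ≤ Z →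
      Bd {x : Pt ℤ r m r' | On X x ∧ InU X x ∧
        (∀ k, Rep (x.t k) ∧ s k ≤ ht (x.t k) ∧ (ht (x.t k) : ℝ) ≤ 2 * s k) ∧
        (∀ j, Rep (x.p j) ∧ Y j ≤ ht (x.p j) ∧ (ht (x.p j) : ℝ) ≤ 2 * Y j) ∧
        ∀ k, Rep (x.t' k) ∧ s' k ≤ ht (x.t' k) ∧ (ht (x.t' k) : ℝ) ≤ 2 * s' k}
        (C * ((∏ k, s k) * (∏ j, Y j) * ∏ k, s' k) * Z ^ ε) := by
  obtain ⟨E, φ, hE, hφ, hu, hσ, hnd⟩ := hc
  obtain ⟨E', φ', hE', hφ', hu', hσ', hnd'⟩ := hc'
  -- the entries
  obtain ⟨a, ha⟩ : ∃ a : ℕ, ∀ i, Ent (exA X.A i) a := by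
    choose b hb using fun i => exists_ent (X.A i)
    refine ⟨∑ i, b i + 1, fun i => ?_⟩
    unfold exA
    split_ifs with h
    · intro j k
      refine (hb _ j k).trans ?_
      have := Finset.single_le_sum (f := b) (fun i _ => Nat.zero_le _)
        (Finset.mem_univ (⟨i - 1, by omega⟩ : Fin m))
      push_cast
      have h2 : ((b ⟨i - 1, by omega⟩ : ℕ) : ℤ) ≤ ((∑ i, b i : ℕ) : ℤ) := by exact_mod_cast this
      push_cast at h2
      linarith
    · intro j k
      rw [Matrix.one_apply]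
      have : (0 : ℤ) ≤ ∑ i, (b i : ℤ) := Finset.sum_nonneg fun i _ => Nat.cast_nonneg _
      push_cast
      split_ifs
      · simpa using this
      · simp
        linarith
  have hgood : Good (exA X.A) a := by
    intro i
    refine ⟨?_, ha i⟩
    unfold exA
    split_ifs with h
    · exact hA _
    · simp
  obtain ⟨C, hC, hb⟩ := both hE hE' a (m + 1) (by omega) ε hε
  refine ⟨C, hC, ?_⟩
  intro s Y s' Z hs hY hs' hsZ hYZ hsZ'
  obtain ⟨σ, hσ1, hσ2⟩ := hσ s hs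
  obtain ⟨σ', hσ1', hσ2'⟩ := hσ' s' hs'
  have hs1 : 1 ≤ ∏ k, s k := by
    rw [← Finset.prod_const_one (ι := Fin r) (s := Finset.univ)]
    exact Finset.prod_le_prod (fun _ _ => zero_le_one) fun k _ => hs k
  have hs1' : 1 ≤ ∏ k, s' k := by
    rw [← Finset.prod_const_one (ι := Fin r') (s := Finset.univ)]
    exact Finset.prod_le_prod (fun _ _ => zero_le_one) fun k _ => hs' k
  have h1 := hb (exA X.A) σ σ' (exX s Y s') Z hgood (fun i => by
      unfold exX
      split_ifs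
      · exact hs1
      · exact hY _
      · exact hs1') (by rw [hσ1]; exact if_pos rfl) (by
      rw [hσ1']
      unfold exX
      rw [if_neg (by omega), dif_neg (by omega)]) (fun i _ => by
      unfold exX
      split_ifs
      · exact hsZ
      · exact hYZ _
      · exact hsZ')
  rw [exX_prod] at h1
  refine h1.inj (fun x => (φ x.t, ex x.p, φ' x.t')) ?_ ?_
  · rintro x ⟨hx, ⟨hU1, hU2, hU3⟩, ht1, hp, ht2⟩
    have eL : ∀ i (h1 : 1 ≤ i) (h2 : i ≤ m + 1), ex x.p i = x.p ⟨i - 1, by omega⟩ := by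
      intro i h1 h2
      exact dif_pos ⟨h1, h2⟩
    have hpath : ex x.p ∈ Path (exA X.A) (exX s Y s') 1 (m + 1 + 1) := by
      refine ⟨fun i hi => dif_neg (by omega), ?_, ?_, ?_⟩
      · intro i hi1 hi2
        obtain ⟨j, rfl⟩ : ∃ j : Fin (m + 1), i = j.val + 1 := ⟨⟨i - 1, by omega⟩, by simp; omega⟩
        rw [ex_in, exX_in]
        exact hp j
      · intro i hi1 hi2
        obtain ⟨j, rfl⟩ : ∃ j : Fin m, i = j.val + 1 := ⟨⟨i - 1, by omega⟩, by simp; omega⟩
        rw [exA_in]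
        have e1 := ex_in x.p j.castSucc
        have e2 := ex_in x.p j.succ
        rw [Fin.val_castSucc] at e1
        rw [Fin.val_succ] at e2
        rw [e1, e2]
        have h3 := (hx j.castSucc).2
        rw [rcov_castSucc, dotProduct_comm] at h3
        exact h3
      · intro i hi1 hi2
        obtain ⟨j, rfl⟩ : ∃ j : ℕ, i = j + 1 := ⟨i - 1, by omega⟩
        have e1 := ex_in x.p ⟨j, by omega⟩
        have e2 := ex_in x.p ⟨j + 2, by omega⟩
        have e3 := exA_in X.A ⟨j, by omega⟩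
        have e4 := exA_in X.A ⟨j + 1, by omega⟩
        simp only at e1 e2 e3 e4
        rw [e1, e2, e3, e4]
        have h3 := hU1 ⟨j + 1, by omega⟩
        have e5 : (⟨j + 1, by omega⟩ : Fin (m + 1)) = (⟨j, by omega⟩ : Fin m).succ := rfl
        have e6 : (⟨j + 1, by omega⟩ : Fin (m + 1)) = (⟨j + 1, by omega⟩ : Fin m).castSucc := rfl
        have h4 : lcov X x ⟨j + 1, by omega⟩ = (X.A ⟨j, by omega⟩)ᵀ *ᵥ x.p ⟨j, by omega⟩ := by
          rw [e5, lcov_succ]
          rfl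
        have h5 : rcov X x ⟨j + 1, by omega⟩ = X.A ⟨j + 1, by omega⟩ *ᵥ x.p ⟨j + 2, by omega⟩ := by
          rw [e6, rcov_castSucc]
          rfl
        rw [h4, h5] at h3
        exact h3
    have p0 : ex x.p 1 = x.p 0 := ex_in x.p 0
    have pl : ex x.p (m + 1) = x.p (Fin.last m) := ex_in x.p (Fin.last m)
    refine ⟨⟨hσ2 _ ht1, hpath, fun _ => ⟨?_, ?_⟩, fun h => ?_⟩, ⟨hpath, hσ2' _ ht2,
      fun _ => ⟨?_, ?_⟩, fun h => ?_⟩, fun h => ?_⟩
    · simp only
      rw [hu, p0]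
      exact (hx 0).1
    · simp only
      rw [p0]
      exact hnd _ _ (hx 0).1 hU2
    · simp only
      rw [hu]
      obtain ⟨m, rfl⟩ : ∃ k, m = k + 1 := ⟨m - 1, by omega⟩
      have e1 := ex_in x.p ⟨1, by omega⟩
      have e2 := exA_in X.A 0
      have h3 := hU1 0
      have h5 : rcov X x 0 = X.A 0 *ᵥ x.p ⟨1, by omega⟩ := by
        have : (0 : Fin (m + 1 + 1)) = (0 : Fin (m + 1)).castSucc := rfl
        rw [this, rcov_castSucc]
        rfl
      rw [h5, lcov_zero] at h3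
      simp only [Nat.reduceAdd] at e1
      rw [Fin.val_zero] at e2
      rw [e1, e2]
      exact h3
    · simp only
      rw [hu', pl, ← rcov_last]
      exact (hx _).2
    · simp only
      rw [pl]
      refine hnd' _ _ ?_ hU3
      rw [← rcov_last]
      exact (hx _).2
    · simp only
      rw [hu']
      obtain ⟨m, rfl⟩ : ∃ k, m = k + 1 := ⟨m - 1, by omega⟩
      have e1 := ex_in x.p ⟨m, by omega⟩
      have e2 := exA_in X.A ⟨m, by omega⟩
      have h3 := hU1 (Fin.last (m + 1))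
      have h5 : lcov X x (Fin.last (m + 1)) = (X.A ⟨m, by omega⟩)ᵀ *ᵥ x.p ⟨m, by omega⟩ := rfl
      rw [h5, rcov_last] at h3
      simp only at e1 e2
      rw [Nat.add_sub_cancel, e1, e2, ← cross_anticomm, neg_ne_zero]
      exact h3
    · simp only
      obtain rfl : m = 0 := by omega
      have h3 := hU1 0
      rw [lcov_zero] at h3
      have h4 : rcov X x 0 = cov X.c' x.t' := rcov_last X x
      rw [h4] at h3
      rw [hu, hu']
      exact h3
  · rintro x - x' - h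
    simp only [Prod.mk.injEq] at h
    exact Pt.ext (hφ h.1) (ex_inj h.2.1) (hφ' h.2.2)

end Pool.Agent.K1H88.CH
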