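import Pool.Agent.K1H88.CH.Conv

/-! The number of rational points of bounded height on open chains. -/

namespace Pool.Agent.K1H88.CH

open Matrix Pool.Agent.K1H88.PG
open Pool.Agent.H548.WM (ht Rep le_ht' ht_le mem_bx)

variable {r m r' : ℕ}

/-- The indices of the coordinates: the legs on the left, the vertices, the legs on the right. -/
abbrev Idx (r m r' : ℕ) := Fin r ⊕ Fin (m + 1) ⊕ Fin r'

/-- The graph of the coordinates: `nb i k` if there is an equation in which the coordinates `i` and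
`k` both occur: two legs of the same end, a leg and the vertex at its end, two consecutive
vertices. -/
def nb : Idx r m r' → Idx r m r' → Prop
  | Sum.inl k, Sum.inl k' => k ≠ k'
  | Sum.inl _, Sum.inr (Sum.inl j) => j = 0
  | Sum.inl _, Sum.inr (Sum.inr _) => False
  | Sum.inr (Sum.inl j), Sum.inl _ => j = 0
  | Sum.inr (Sum.inl i), Sum.inr (Sum.inl j) => i.val + 1 = j.val ∨ j.val + 1 = i.val
  | Sum.inr (Sum.inl j), Sum.inr (Sum.inr _) => j = Fin.last m
  | Sum.inr (Sum.inr _), Sum.inl _ => False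
  | Sum.inr (Sum.inr _), Sum.inr (Sum.inl j) => j = Fin.last m
  | Sum.inr (Sum.inr k), Sum.inr (Sum.inr k') => k ≠ k'

instance : DecidableRel (nb (r := r) (m := m) (r' := r')) := fun i j =>
  match i, j with
  | Sum.inl k, Sum.inl k' => inferInstanceAs (Decidable (k ≠ k'))
  | Sum.inl _, Sum.inr (Sum.inl j) => inferInstanceAs (Decidable (j = 0))
  | Sum.inl _, Sum.inr (Sum.inr _) => inferInstanceAs (Decidable False)
  | Sum.inr (Sum.inl j), Sum.inl _ => inferInstanceAs (Decidable (j = 0))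
  | Sum.inr (Sum.inl i), Sum.inr (Sum.inl j) =>
    inferInstanceAs (Decidable (i.val + 1 = j.val ∨ j.val + 1 = i.val))
  | Sum.inr (Sum.inl j), Sum.inr (Sum.inr _) => inferInstanceAs (Decidable (j = Fin.last m))
  | Sum.inr (Sum.inr _), Sum.inl _ => inferInstanceAs (Decidable False)
  | Sum.inr (Sum.inr _), Sum.inr (Sum.inl j) => inferInstanceAs (Decidable (j = Fin.last m))
  | Sum.inr (Sum.inr k), Sum.inr (Sum.inr k') => inferInstanceAs (Decidable (k ≠ k'))

/-- The heights of the coordinates. -/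
def hts (x : Pt ℤ r m r') : Idx r m r' → ℕ :=
  Sum.elim (fun k => ht (x.t k)) (Sum.elim (fun j => ht (x.p j)) fun k => ht (x.t' k))

/-- The rational points of the open set. -/
def RatU (X : Eqs ℤ r m r') : Set (Pt ℤ r m r') :=
  {x | (∀ k, Rep (x.t k)) ∧ (∀ j, Rep (x.p j)) ∧ (∀ k, Rep (x.t' k)) ∧ On X x ∧ InU X x}

/-- The rational points of the open set with height at most `T`. -/
def pts (X : Eqs ℤ r m r') (l : Idx r m r' → ℝ) (T : ℝ) : Set (Pt ℤ r m r') :=
  {x | x ∈ RatU X ∧ ∏ i, (hts x i : ℝ) ^ l i ≤ T}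

/-- The size of the multilinear map. -/
theorem cov_ht (c : (Fin r → Fin 2) → V) : ∃ κ : ℝ, 1 ≤ κ ∧ ∀ t : Fin r → V2,
    (ht (cov c t) : ℝ) ≤ κ * ∏ k, (ht (t k) : ℝ) := by
  refine ⟨∑ f, (ht (c f) : ℝ) + 1, by
    have : (0 : ℝ) ≤ ∑ f, (ht (c f) : ℝ) := Finset.sum_nonneg fun _ _ => Nat.cast_nonneg _
    linarith, ?_⟩
  intro t
  obtain ⟨i, hi⟩ := Pool.Agent.H548.WM.exists_ht (by norm_num) (cov c t)
  have h1 : (ht (cov c t) : ℝ) = |((cov c t i : ℤ) : ℝ)| := by
    have : ((ht (cov c t) : ℤ) : ℝ) = ((|cov c t i| : ℤ) : ℝ) := by rw [hi]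
    rw [Int.cast_abs] at this
    exact_mod_cast this
  have hp : (0 : ℝ) ≤ ∏ k, (ht (t k) : ℝ) := Finset.prod_nonneg fun _ _ => Nat.cast_nonneg _
  rw [h1]
  have h2 : ((cov c t i : ℤ) : ℝ) = ∑ f : Fin r → Fin 2, (∏ k, (t k (f k) : ℝ)) * (c f i : ℝ) := by
    unfold cov
    rw [Finset.sum_apply]
    push_cast [Pi.smul_apply, smul_eq_mul]
    rfl
  rw [h2]
  calc |∑ f : Fin r → Fin 2, (∏ k, (t k (f k) : ℝ)) * (c f i : ℝ)|
      ≤ ∑ f : Fin r → Fin 2, |(∏ k, (t k (f k) : ℝ)) * (c f i : ℝ)| := Finset.abs_sum_le_sum_abs _ _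
    _ ≤ ∑ f : Fin r → Fin 2, (∏ k, (ht (t k) : ℝ)) * (ht (c f) : ℝ) := by
        apply Finset.sum_le_sum
        intro f _
        rw [abs_mul, Finset.abs_prod]
        apply mul_le_mul _ _ (abs_nonneg _) hp
        · apply Finset.prod_le_prod (fun _ _ => abs_nonneg _)
          intro k _
          exact_mod_cast le_ht' (t k) (f k)
        · exact_mod_cast le_ht' (c f) i
    _ = (∑ f, (ht (c f) : ℝ)) * ∏ k, (ht (t k) : ℝ) := by rw [← Finset.mul_sum, mul_comm]
    _ ≤ _ := by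
        apply mul_le_mul_of_nonneg_right _ hp
        linarith

/-- The height of a leg. -/
theorem leg_ht (c : (Fin r → Fin 2) → V) : ∃ κ : ℝ, 1 ≤ κ ∧ ∀ (t : Fin r → V2) (p : V) (k : Fin r),
    Rep (t k) → cov c t ⬝ᵥ p = 0 → leg c t p k ≠ 0 →
      (ht (t k) : ℝ) ≤ κ * ((∏ k' ∈ Finset.univ.erase k, (ht (t k') : ℝ)) * ht p) := by
  obtain ⟨κ, hκ, h⟩ := cov_ht c
  refine ⟨3 * κ, by linarith, ?_⟩
  intro t p k hr h0 hn
  rw [← leg_dot c t p k] at h0
  obtain ⟨g, hg0, hg1⟩ := par2 hr h0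
  have hg : g ≠ 0 := by
    rintro rfl
    apply hn
    funext v
    have h2 : v = 0 ∨ v = 1 := by omega
    rcases h2 with rfl | rfl
    · simpa using hg0
    · simpa using hg1
  have hg1' : 1 ≤ |g| := Int.one_le_abs hg
  -- the size of the derivatives
  have hs : ∀ v, |((leg c t p k v : ℤ) : ℝ)| ≤
      3 * κ * ((∏ k' ∈ Finset.univ.erase k, (ht (t k') : ℝ)) * ht p) := by
    intro v
    have h1 : |((leg c t p k v : ℤ) : ℝ)| ≤
        3 * ht (cov c (Function.update t k (Pi.single v 1))) * ht p := by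
      exact_mod_cast dot_le _ _
    have h2 := h (Function.update t k (Pi.single v 1))
    rw [← Finset.mul_prod_erase Finset.univ _ (Finset.mem_univ k), Function.update_self] at h2
    have h3 : (ht (Pi.single v 1 : V2) : ℝ) ≤ 1 := by
      have : ht (Pi.single v 1 : V2) ≤ 1 := by
        apply ht_le
        intro i
        rw [Pi.single_apply]
        split_ifs <;> simp
      exact_mod_cast this
    have h4 : ∏ k' ∈ Finset.univ.erase k,
        (ht (Function.update t k (Pi.single v 1) k') : ℝ) =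
        ∏ k' ∈ Finset.univ.erase k, (ht (t k') : ℝ) := by
      apply Finset.prod_congr rfl
      intro k' hk'
      rw [Function.update_of_ne (Finset.ne_of_mem_erase hk')]
    rw [h4] at h2
    have hp : (0 : ℝ) ≤ ∏ k' ∈ Finset.univ.erase k, (ht (t k') : ℝ) :=
      Finset.prod_nonneg fun _ _ => Nat.cast_nonneg _
    have hp2 : (0 : ℝ) ≤ ht p := Nat.cast_nonneg _
    calc |((leg c t p k v : ℤ) : ℝ)|
        ≤ 3 * ht (cov c (Function.update t k (Pi.single v 1))) * ht p := h1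
      _ ≤ 3 * (κ * (1 * ∏ k' ∈ Finset.univ.erase k, (ht (t k') : ℝ))) * ht p := by
          gcongr
          refine h2.trans ?_
          gcongr
      _ = _ := by ring
  have hle : ∀ v, |((t k v : ℤ) : ℝ)| ≤
      3 * κ * ((∏ k' ∈ Finset.univ.erase k, (ht (t k') : ℝ)) * ht p) := by
    intro v
    have h2 : v = 0 ∨ v = 1 := by omega
    rcases h2 with rfl | rfl
    · refine le_trans ?_ (hs 1)
      rw [hg1]
      push_cast
      rw [abs_neg, abs_mul]
      have h5 : (1 : ℝ) ≤ |(g : ℝ)| := by exact_mod_cast hg1'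
      nlinarith [abs_nonneg ((t k 0 : ℤ) : ℝ)]
    · refine le_trans ?_ (hs 0)
      rw [hg0]
      push_cast
      rw [abs_mul]
      have h5 : (1 : ℝ) ≤ |(g : ℝ)| := by exact_mod_cast hg1'
      nlinarith [abs_nonneg ((t k 1 : ℤ) : ℝ)]
  obtain ⟨i, hi⟩ := Pool.Agent.H548.WM.exists_ht (by norm_num) (t k)
  have h1 : (ht (t k) : ℝ) = |((t k i : ℤ) : ℝ)| := by
    have : ((ht (t k) : ℤ) : ℝ) = ((|t k i| : ℤ) : ℝ) := by rw [hi]
    rw [Int.cast_abs] at this
    exact_mod_cast this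
  rw [h1]
  exact hle i

/-- The height of a vertex. -/
theorem mid_ht {p u w : V} (hp : Rep p) (h1 : u ⬝ᵥ p = 0) (h2 : w ⬝ᵥ p = 0) (h3 : u ⨯₃ w ≠ 0) :
    (ht p : ℤ) ≤ 2 * ht u * ht w := by
  have h4 : p ⨯₃ (u ⨯₃ w) = 0 := by
    rw [cross_cross', dotProduct_comm p w, h2, zero_smul, dotProduct_comm, h1, zero_smul, sub_self]
  obtain ⟨n, hn⟩ := par hp h4
  have hn0 : n ≠ 0 := by
    rintro rfl
    apply h3
    rw [hn, zero_smul]
  have h5 : (ht p : ℤ) ≤ ht (u ⨯₃ w) := by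
    rw [hn, ht_smul]
    have : 1 ≤ |n| := Int.one_le_abs hn0
    nlinarith [(Nat.cast_nonneg (ht p) : (0 : ℤ) ≤ ht p)]
  exact h5.trans (cross_le _ _)

/-- The product over the neighbours of a leg on the left. -/
theorem nb_left (v : Idx r m r' → ℝ) (k : Fin r) : ∏ i with nb (Sum.inl k) i, v i =
    (∏ k' ∈ Finset.univ.erase k, v (Sum.inl k')) * v (Sum.inr (Sum.inl 0)) := by
  rw [Finset.prod_filter, Fintype.prod_sum_type, Fintype.prod_sum_type]
  have e1 : ∏ k' : Fin r, (if nb (r := r) (m := m) (r' := r') (Sum.inl k) (Sum.inl k')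
      then v (Sum.inl k') else 1) = ∏ k' ∈ Finset.univ.erase k, v (Sum.inl k') := by
    rw [← Finset.prod_filter]
    apply Finset.prod_congr _ fun _ _ => rfl
    ext k'
    rw [Finset.mem_filter, Finset.mem_erase]
    change (k' ∈ Finset.univ ∧ k ≠ k') ↔ (k' ≠ k ∧ k' ∈ Finset.univ)
    rw [ne_comm, and_comm]
  have e2 : ∏ j : Fin (m + 1), (if nb (r := r) (m := m) (r' := r') (Sum.inl k) (Sum.inr (Sum.inl j))
      then v (Sum.inr (Sum.inl j)) else 1) = v (Sum.inr (Sum.inl 0)) := by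
    change ∏ j : Fin (m + 1), (if j = 0 then v (Sum.inr (Sum.inl j)) else 1) = _
    rw [Finset.prod_ite_eq' Finset.univ (0 : Fin (m + 1)) fun j => v (Sum.inr (Sum.inl j)),
      if_pos (Finset.mem_univ _)]
  have e3 : ∏ k' : Fin r', (if nb (r := r) (m := m) (r' := r') (Sum.inl k) (Sum.inr (Sum.inr k'))
      then v (Sum.inr (Sum.inr k')) else 1) = 1 := by
    apply Finset.prod_eq_one
    intro k' _
    exact if_neg (fun h => h)
  rw [e1, e2, e3, mul_one]

/-- The product over the neighbours of a leg on the right. -/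
theorem nb_right (v : Idx r m r' → ℝ) (k : Fin r') : ∏ i with nb (Sum.inr (Sum.inr k)) i, v i =
    (∏ k' ∈ Finset.univ.erase k, v (Sum.inr (Sum.inr k'))) *
      v (Sum.inr (Sum.inl (Fin.last m))) := by
  rw [Finset.prod_filter, Fintype.prod_sum_type, Fintype.prod_sum_type]
  have e1 : ∏ k' : Fin r', (if nb (r := r) (m := m) (r' := r') (Sum.inr (Sum.inr k))
      (Sum.inr (Sum.inr k')) then v (Sum.inr (Sum.inr k')) else 1) =
      ∏ k' ∈ Finset.univ.erase k, v (Sum.inr (Sum.inr k')) := by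
    rw [← Finset.prod_filter]
    apply Finset.prod_congr _ fun _ _ => rfl
    ext k'
    rw [Finset.mem_filter, Finset.mem_erase]
    change (k' ∈ Finset.univ ∧ k ≠ k') ↔ (k' ≠ k ∧ k' ∈ Finset.univ)
    rw [ne_comm, and_comm]
  have e2 : ∏ j : Fin (m + 1), (if nb (r := r) (m := m) (r' := r') (Sum.inr (Sum.inr k))
      (Sum.inr (Sum.inl j)) then v (Sum.inr (Sum.inl j)) else 1) =
      v (Sum.inr (Sum.inl (Fin.last m))) := by
    change ∏ j : Fin (m + 1), (if j = Fin.last m then v (Sum.inr (Sum.inl j)) else 1) = _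
    rw [Finset.prod_ite_eq' Finset.univ (Fin.last m) fun j => v (Sum.inr (Sum.inl j)),
      if_pos (Finset.mem_univ _)]
  have e3 : ∏ k' : Fin r, (if nb (r := r) (m := m) (r' := r') (Sum.inr (Sum.inr k)) (Sum.inl k')
      then v (Sum.inl k') else 1) = 1 := by
    apply Finset.prod_eq_one
    intro k' _
    exact if_neg (fun h => h)
  rw [e1, e2, e3, one_mul, mul_comm]

theorem prod_l (v : Fin (m + 1) → ℝ) (P : ℝ) (j : Fin (m + 1)) :
    (if j = 0 then P else 1) * ∏ i, (if i.val + 1 = j.val then v i else 1) =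
      Fin.cases (motive := fun _ => ℝ) P (fun i => v i.castSucc) j := by
  cases j using Fin.cases with
  | zero =>
    rw [if_pos rfl, Fin.cases_zero, Finset.prod_eq_one, mul_one]
    intro i _
    exact if_neg (by simp)
  | succ j =>
    rw [if_neg (Fin.succ_ne_zero j), Fin.cases_succ, one_mul]
    rw [Finset.prod_eq_single j.castSucc]
    · exact if_pos (by simp)
    · intro i _ hi
      apply if_neg
      intro h
      apply hi
      ext
      rw [Fin.val_succ] at h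
      rw [Fin.val_castSucc]
      omega
    · intro h
      exact absurd (Finset.mem_univ _) h

theorem prod_r (v : Fin (m + 1) → ℝ) (P : ℝ) (j : Fin (m + 1)) :
    (∏ i, (if j.val + 1 = i.val then v i else 1)) * (if j = Fin.last m then P else 1) =
      Fin.lastCases (motive := fun _ => ℝ) P (fun i => v i.succ) j := by
  cases j using Fin.lastCases with
  | last =>
    rw [if_pos rfl, Fin.lastCases_last, Finset.prod_eq_one, one_mul]
    intro i _
    apply if_neg
    rw [Fin.val_last]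
    omega
  | cast j =>
    rw [if_neg (Fin.castSucc_lt_last j).ne, Fin.lastCases_castSucc, mul_one]
    rw [Finset.prod_eq_single j.succ]
    · exact if_pos (by simp)
    · intro i _ hi
      apply if_neg
      intro h
      apply hi
      ext
      rw [Fin.val_castSucc] at h
      rw [Fin.val_succ]
      omega
    · intro h
      exact absurd (Finset.mem_univ _) h

/-- The product over the neighbours of a vertex. -/
theorem nb_mid (v : Idx r m r' → ℝ) (j : Fin (m + 1)) :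
    ∏ i with nb (Sum.inr (Sum.inl j)) i, v i =
    Fin.cases (motive := fun _ => ℝ) (∏ k, v (Sum.inl k))
        (fun i => v (Sum.inr (Sum.inl i.castSucc))) j *
      Fin.lastCases (motive := fun _ => ℝ) (∏ k, v (Sum.inr (Sum.inr k)))
        (fun i => v (Sum.inr (Sum.inl i.succ))) j := by
  rw [Finset.prod_filter, Fintype.prod_sum_type, Fintype.prod_sum_type]
  have e1 : ∏ k' : Fin r, (if nb (r := r) (m := m) (r' := r') (Sum.inr (Sum.inl j)) (Sum.inl k')
      then v (Sum.inl k') else 1) = if j = 0 then ∏ k, v (Sum.inl k) else 1 := by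
    split_ifs with h
    · apply Finset.prod_congr rfl
      intro k' _
      exact if_pos h
    · apply Finset.prod_eq_one
      intro k' _
      exact if_neg h
  have e3 : ∏ k' : Fin r', (if nb (r := r) (m := m) (r' := r') (Sum.inr (Sum.inl j))
      (Sum.inr (Sum.inr k')) then v (Sum.inr (Sum.inr k')) else 1) =
      if j = Fin.last m then ∏ k, v (Sum.inr (Sum.inr k)) else 1 := by
    split_ifs with h
    · apply Finset.prod_congr rfl
      intro k' _
      exact if_pos h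
    · apply Finset.prod_eq_one
      intro k' _
      exact if_neg h
  have e2 : ∏ i : Fin (m + 1), (if nb (r := r) (m := m) (r' := r') (Sum.inr (Sum.inl j))
      (Sum.inr (Sum.inl i)) then v (Sum.inr (Sum.inl i)) else 1) =
      (∏ i : Fin (m + 1), (if i.val + 1 = j.val then v (Sum.inr (Sum.inl i)) else 1)) *
      ∏ i : Fin (m + 1), (if j.val + 1 = i.val then v (Sum.inr (Sum.inl i)) else 1) := by
    rw [← Finset.prod_mul_distrib]
    apply Finset.prod_congr rfl
    intro i _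
    change (if j.val + 1 = i.val ∨ i.val + 1 = j.val then v (Sum.inr (Sum.inl i)) else 1) = _
    by_cases h1 : j.val + 1 = i.val
    · rw [if_pos (Or.inl h1), if_pos h1, if_neg (by omega), one_mul]
    · by_cases h2 : i.val + 1 = j.val
      · rw [if_pos (Or.inr h2), if_pos h2, if_neg h1, mul_one]
      · rw [if_neg (by tauto), if_neg h2, if_neg h1, mul_one]
  rw [e1, e2, e3, ← prod_l (fun i => v (Sum.inr (Sum.inl i))),
    ← prod_r (fun i => v (Sum.inr (Sum.inl i)))]
  ring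

theorem lcov_ht (X : Eqs ℤ r m r') : ∃ κ : ℝ, 1 ≤ κ ∧ ∀ (x : Pt ℤ r m r') (j : Fin (m + 1)),
    (ht (lcov X x j) : ℝ) ≤ κ * Fin.cases (motive := fun _ => ℝ) (∏ k, (ht (x.t k) : ℝ))
      (fun i => (ht (x.p i.castSucc) : ℝ)) j := by
  obtain ⟨κ, hκ, h⟩ := cov_ht X.c
  choose b hb using fun i => exists_ent (X.A i)
  have hb0 : (0 : ℝ) ≤ 3 * ∑ i, (b i : ℝ) := by positivity
  refine ⟨κ + 3 * ∑ i, (b i : ℝ), by linarith, ?_⟩
  intro x j
  cases j using Fin.cases with
  | zero =>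
    rw [Fin.cases_zero, lcov_zero]
    refine (h x.t).trans ?_
    apply mul_le_mul_of_nonneg_right _ (Finset.prod_nonneg fun _ _ => Nat.cast_nonneg _)
    linarith
  | succ j =>
    rw [Fin.cases_succ, lcov_succ]
    have h1 : (ht ((X.A j)ᵀ *ᵥ x.p j.castSucc) : ℝ) ≤ 3 * b j * ht (x.p j.castSucc) := by
      exact_mod_cast (hb j).tr.mul (x.p j.castSucc)
    refine h1.trans ?_
    apply mul_le_mul_of_nonneg_right _ (Nat.cast_nonneg _)
    have h2 : (b j : ℝ) ≤ ∑ i, (b i : ℝ) :=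
      Finset.single_le_sum (f := fun i => (b i : ℝ)) (fun _ _ => Nat.cast_nonneg _)
        (Finset.mem_univ j)
    linarith

theorem rcov_ht (X : Eqs ℤ r m r') : ∃ κ : ℝ, 1 ≤ κ ∧ ∀ (x : Pt ℤ r m r') (j : Fin (m + 1)),
    (ht (rcov X x j) : ℝ) ≤ κ * Fin.lastCases (motive := fun _ => ℝ) (∏ k, (ht (x.t' k) : ℝ))
      (fun i => (ht (x.p i.succ) : ℝ)) j := by
  obtain ⟨κ, hκ, h⟩ := cov_ht X.c'
  choose b hb using fun i => exists_ent (X.A i)
  have hb0 : (0 : ℝ) ≤ 3 * ∑ i, (b i : ℝ) := by positivity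
  refine ⟨κ + 3 * ∑ i, (b i : ℝ), by linarith, ?_⟩
  intro x j
  cases j using Fin.lastCases with
  | last =>
    rw [Fin.lastCases_last, rcov_last]
    refine (h x.t').trans ?_
    apply mul_le_mul_of_nonneg_right _ (Finset.prod_nonneg fun _ _ => Nat.cast_nonneg _)
    linarith
  | cast j =>
    rw [Fin.lastCases_castSucc, rcov_castSucc]
    have h1 : (ht (X.A j *ᵥ x.p j.succ) : ℝ) ≤ 3 * b j * ht (x.p j.succ) := by
      exact_mod_cast (hb j).mul (x.p j.succ)
    refine h1.trans ?_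
    apply mul_le_mul_of_nonneg_right _ (Nat.cast_nonneg _)
    have h2 : (b j : ℝ) ≤ ∑ i, (b i : ℝ) :=
      Finset.single_le_sum (f := fun i => (b i : ℝ)) (fun _ _ => Nat.cast_nonneg _)
        (Finset.mem_univ j)
    linarith

/-- The heights of the coordinates are bounded by those of their neighbours. -/
theorem nb_ht (X : Eqs ℤ r m r') : ∃ κ : ℝ, 1 ≤ κ ∧ ∀ x ∈ RatU X, ∀ i,
    (hts x i : ℝ) ≤ κ * ∏ k with nb i k, (hts x k : ℝ) := by
  obtain ⟨κ1, h1, g1⟩ := leg_ht X.c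
  obtain ⟨κ2, h2, g2⟩ := leg_ht X.c'
  obtain ⟨κ3, h3, g3⟩ := lcov_ht X
  obtain ⟨κ4, h4, g4⟩ := rcov_ht X
  have h34 : 0 ≤ 2 * (κ3 * κ4) := by positivity
  refine ⟨κ1 + κ2 + 2 * (κ3 * κ4), by linarith, ?_⟩
  rintro x ⟨hr1, hr2, hr3, hon, hU1, hU2, hU3⟩ i
  have hp : (0 : ℝ) ≤ ∏ k with nb i k, (hts x k : ℝ) :=
    Finset.prod_nonneg fun _ _ => Nat.cast_nonneg _
  rcases i with k | j | k
  · refine le_trans ?_ (mul_le_mul_of_nonneg_right (by linarith : κ1 ≤ _) hp)
    rw [nb_left]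
    exact g1 x.t (x.p 0) k (hr1 k) (hon 0).1 (hU2 k)
  · refine le_trans ?_ (mul_le_mul_of_nonneg_right (by linarith : 2 * (κ3 * κ4) ≤ _) hp)
    rw [nb_mid]
    have h5 : (ht (x.p j) : ℝ) ≤ 2 * ht (lcov X x j) * ht (rcov X x j) := by
      exact_mod_cast mid_ht (hr2 j) (hon j).1 (hon j).2 (hU1 j)
    have h6 := g3 x j
    have h7 := g4 x j
    have h8 : (0 : ℝ) ≤ ht (lcov X x j) := Nat.cast_nonneg _
    have h9 := h8.trans h6
    calc (ht (x.p j) : ℝ) ≤ 2 * ht (lcov X x j) * ht (rcov X x j) := h5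
      _ ≤ 2 * (κ3 * Fin.cases (motive := fun _ => ℝ) (∏ k, (ht (x.t k) : ℝ))
            (fun i => (ht (x.p i.castSucc) : ℝ)) j) *
          (κ4 * Fin.lastCases (motive := fun _ => ℝ) (∏ k, (ht (x.t' k) : ℝ))
            (fun i => (ht (x.p i.succ) : ℝ)) j) := by
          apply mul_le_mul (by linarith) h7 (Nat.cast_nonneg _) (by linarith)
      _ = 2 * (κ3 * κ4) * (Fin.cases (motive := fun _ => ℝ) (∏ k, (ht (x.t k) : ℝ))
            (fun i => (ht (x.p i.castSucc) : ℝ)) j *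
          Fin.lastCases (motive := fun _ => ℝ) (∏ k, (ht (x.t' k) : ℝ))
            (fun i => (ht (x.p i.succ) : ℝ)) j) := by ring
  · refine le_trans ?_ (mul_le_mul_of_nonneg_right (by linarith : κ2 ≤ _) hp)
    rw [nb_right]
    refine g2 x.t' (x.p (Fin.last m)) k (hr3 k) ?_ (hU3 k)
    rw [← rcov_last]
    exact (hon _).2

/-- The number of rational points. -/
theorem count (X : Eqs ℤ r m r') (hc : HasEnd X.c) (hA : ∀ i, (X.A i).det ≠ 0)
    (hc' : HasEnd X.c') (hr' : 1 ≤ r') (l : Idx r m r' → ℝ) (hl : Big nb l) (ε : ℝ) (hε : 0 < ε) :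
    ∃ C : ℝ, ∀ T : ℝ, 1 ≤ T → Bd (pts X l T) (C * T ^ (fuj nb l + ε)) := by
  obtain ⟨κ, hκ, hmid⟩ := nb_ht X
  have hpos : ∀ x ∈ RatU X, ∀ i, 1 ≤ hts x i := by
    rintro x ⟨hr1, hr2, hr3, -⟩ i
    rcases i with k | j | k
    · exact ht2_pos (hr1 k)
    · exact ht_pos (rep_ne (hr2 j))
    · exact ht2_pos (hr3 k)
  refine upper (RatU X) hts hpos κ hκ hmid ?_
    (i0 := Sum.inr (Sum.inl (Fin.last m))) (j0 := Sum.inr (Sum.inr ⟨0, hr'⟩))
    (show Fin.last m = Fin.last m from rfl) (show Fin.last m = Fin.last m from rfl) l hl ε hε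
  intro ε hε
  set M : ℕ := r + r' + 1 with hM
  have hM0 : (0 : ℝ) < M := by
    rw [hM]
    positivity
  obtain ⟨C, hC, hb⟩ := boxes X hc hA hc' (ε / M) (by positivity)
  refine ⟨C, hC, ?_⟩
  intro Y Z hY hYZ
  have hZ1 : 1 ≤ Z := (hY (Sum.inr (Sum.inl 0))).trans (hYZ _)
  have hZM : (Z ^ M) ^ (ε / M) = Z ^ ε := by
    rw [← Real.rpow_natCast, ← Real.rpow_mul (by linarith)]
    congr 1
    field_simp
  have hpow : ∀ k, k ≤ M → Z ^ k ≤ Z ^ M := fun k hk => pow_le_pow_right₀ hZ1 hk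
  have e1 : ∏ k, Y (Sum.inl k) ≤ Z ^ M := by
    refine le_trans ?_ (hpow r (by omega))
    calc ∏ k, Y (Sum.inl k) ≤ ∏ _k : Fin r, Z :=
          Finset.prod_le_prod (fun k _ => by linarith [hY (Sum.inl k)]) fun k _ => hYZ _
      _ = Z ^ r := by simp
  have e3 : ∏ k, Y (Sum.inr (Sum.inr k)) ≤ Z ^ M := by
    refine le_trans ?_ (hpow r' (by omega))
    calc ∏ k, Y (Sum.inr (Sum.inr k)) ≤ ∏ _k : Fin r', Z :=
          Finset.prod_le_prod (fun k _ => by linarith [hY (Sum.inr (Sum.inr k))]) fun k _ => hYZ _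
      _ = Z ^ r' := by simp
  have e2 : ∀ j, Y (Sum.inr (Sum.inl j)) ≤ Z ^ M := fun j => by
    have h1 := hpow 1 (by omega)
    rw [pow_one] at h1
    exact (hYZ _).trans h1
  have h1 := hb (fun k => Y (Sum.inl k)) (fun j => Y (Sum.inr (Sum.inl j)))
    (fun k => Y (Sum.inr (Sum.inr k))) (Z ^ M) (fun _ => hY _) (fun _ => hY _) (fun _ => hY _)
    e1 e2 e3
  refine h1.mono ?_ ?_
  · rintro x ⟨⟨hr1, hr2, hr3, hon, hU⟩, hx⟩
    exact ⟨hon, hU, fun k => ⟨hr1 k, hx (Sum.inl k)⟩, fun j => ⟨hr2 j, hx (Sum.inr (Sum.inl j))⟩,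
      fun k => ⟨hr3 k, hx (Sum.inr (Sum.inr k))⟩⟩
  · rw [hZM, Fintype.prod_sum_type, Fintype.prod_sum_type, mul_assoc (∏ k, Y (Sum.inl k))]

end Pool.Agent.K1H88.CH
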