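import Pool.Agent.K1H88.CH.Pencil

/-! Ends of chains. -/

namespace Pool.Agent.K1H88.CH

open Matrix Pool.Agent.K1H88.PG
open Pool.Agent.H548.WM (ht Rep le_ht' ht_le mem_bx)

/-- Data of an end of a chain: configurations, sizes, boxes, the covector for the next vertex, its
size, the condition for the next vertex. -/
structure EndT where
  Ω : Type
  S : Type
  mem : S → Set Ω
  u : Ω → V
  X : S → ℝ
  nd : V → Prop

/-- The estimates for an end. -/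
structure EndT.OK (E : EndT) : Prop where
  one_le : ∀ s, 1 ≤ E.X s
  gv : ∃ D : ℝ, ∀ s, ∀ ω ∈ E.mem s, GV D (E.X s) (E.u ω)
  all : ∃ C : ℝ, 0 ≤ C ∧ ∀ s, Bd (E.mem s) (C * E.X s ^ 2)
  fib : ∀ ε : ℝ, 0 < ε → ∃ C : ℝ, 0 ≤ C ∧ ∀ (s : E.S) (p : V) (P Z : ℝ), Rep p → E.nd p → 1 ≤ P →
    P ≤ ht p → (ht p : ℝ) ≤ 2 * P → E.X s ≤ Z → P ≤ Z →
      Bd {ω ∈ E.mem s | E.u ω ⬝ᵥ p = 0} (C * (1 + E.X s / P) * Z ^ ε)
  pair : ∀ D ε : ℝ, 0 < ε → ∃ C : ℝ, 0 ≤ C ∧ ∀ (s : E.S) (w : V) (P Q Z : ℝ), 1 ≤ Q → Q ≤ P →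
    GV D Q w → E.X s ≤ Z → P ≤ Z →
      Bd {v : E.Ω × V | v.1 ∈ E.mem s ∧ Rep v.2 ∧ E.nd v.2 ∧ (ht v.2 : ℝ) ≤ 2 * P ∧
        E.u v.1 ⬝ᵥ v.2 = 0 ∧ w ⬝ᵥ v.2 = 0 ∧ E.u v.1 ⨯₃ w ≠ 0} (C * (E.X s * P / Q) * Z ^ ε)

theorem Bd.sub {α : Type*} {S : Set α} (h : ∀ x ∈ S, ∀ y ∈ S, x = y) : Bd S 1 := by
  have h1 : S.Subsingleton := fun x hx y hy => h x hx y hy
  refine ⟨h1.finite, ?_⟩
  have : S.ncard ≤ 1 := (Set.ncard_le_one h1.finite).2 h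
  exact_mod_cast this

/-- The box of the points of the projective line with the size `A`. -/
def box2 (A : {A : ℝ // 1 ≤ A}) : Set V2 := {t | Rep t ∧ (A : ℝ) ≤ ht t ∧ (ht t : ℝ) ≤ 2 * A}

theorem box2_bd (A : {A : ℝ // 1 ≤ A}) : Bd (box2 A) (25 * (A : ℝ) ^ 2) :=
  (card2 A.2).mono (fun _ ht => ht.2.2) le_rfl

/-- A pencil with one leg. -/
def oneEnd (c0 c1 : V) : EndT where
  Ω := V2
  S := {A : ℝ // 1 ≤ A}
  mem := box2
  u := pv c0 c1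
  X := fun A => A
  nd := fun p => (c0 ⨯₃ c1) ⨯₃ p ≠ 0

theorem pv_smul_dot (c0 c1 : V) (t : V2) (p : V) :
    pv c0 c1 t ⬝ᵥ p = t 0 * (c0 ⬝ᵥ p) + t 1 * (c1 ⬝ᵥ p) := by
  unfold pv
  rw [add_dotProduct, smul_dotProduct, smul_dotProduct, smul_eq_mul, smul_eq_mul]

theorem pv_unique {c0 c1 p : V} (h : (c0 ⨯₃ c1) ⨯₃ p ≠ 0) {t t' : V2} (ht1 : Rep t)
    (ht2 : Rep t') (h1 : pv c0 c1 t ⬝ᵥ p = 0) (h2 : pv c0 c1 t' ⬝ᵥ p = 0) : t = t' := by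
  apply eq2 ht1 ht2
  by_contra hne
  rw [pv_smul_dot] at h1 h2
  have e0 : (t 0 * t' 1 - t 1 * t' 0) * (c0 ⬝ᵥ p) = 0 := by
    linear_combination t' 1 * h1 - t 1 * h2
  have e1 : (t 0 * t' 1 - t 1 * t' 0) * (c1 ⬝ᵥ p) = 0 := by
    linear_combination t 0 * h2 - t' 0 * h1
  have f0 := (mul_eq_zero.1 e0).resolve_left hne
  have f1 := (mul_eq_zero.1 e1).resolve_left hne
  apply h
  rw [← cross_anticomm, cross_cross', dotProduct_comm p c1, f1, dotProduct_comm p c0, f0, zero_smul,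
    zero_smul, sub_self, neg_zero]

theorem oneEnd_ok {c0 c1 : V} (hn : c0 ⨯₃ c1 ≠ 0) : (oneEnd c0 c1).OK := by
  set n := c0 ⨯₃ c1 with hnd
  obtain ⟨D, hD1, hDn, hD0, hDc⟩ : ∃ D : ℝ, 1 ≤ D ∧ GV D (1 ^ 2) n ∧ (ht c0 : ℝ) ≤ D * 1 ∧
      (ht c1 : ℝ) ≤ D * 1 := by
    have hnn : n ⬝ᵥ n ≠ 0 := by
      intro h
      apply hn
      rw [dot3] at h
      have h0 : n 0 = 0 := by nlinarith [sq_nonneg (n 0), sq_nonneg (n 1), sq_nonneg (n 2)]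
      have h1 : n 1 = 0 := by nlinarith [sq_nonneg (n 0), sq_nonneg (n 1), sq_nonneg (n 2)]
      have h2 : n 2 = 0 := by nlinarith [sq_nonneg (n 0), sq_nonneg (n 1), sq_nonneg (n 2)]
      exact ext3 h0 h1 h2
    have hn1 : (1 : ℝ) ≤ ht n := by exact_mod_cast ht_pos hn
    have hdot : |((n ⬝ᵥ n : ℤ) : ℝ)| ≤ 3 * ht n * ht n := by exact_mod_cast dot_le n n
    refine ⟨3 * ht n * ht n + ht n + ht c0 + ht c1 + 1, ?_, ⟨n, n ⬝ᵥ n, rfl, hnn, ?_, ?_, ?_⟩, ?_,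
      ?_⟩
    · have : (0 : ℝ) ≤ 3 * ht n * ht n + ht n + ht c0 + ht c1 := by positivity
      linarith
    · have : (0 : ℝ) ≤ ht n + ht c0 + ht c1 + 1 := by positivity
      linarith
    · have : (0 : ℝ) ≤ 3 * ht n * ht n + ht n + ht c0 + ht c1 := by positivity
      nlinarith
    · have : (0 : ℝ) ≤ 3 * ht n * ht n + ht c0 + ht c1 + 1 := by positivity
      linarith
    · have : (0 : ℝ) ≤ 3 * ht n * ht n + ht n + ht c1 + 1 := by positivity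
      linarith
    · have : (0 : ℝ) ≤ 3 * ht n * ht n + ht n + ht c0 + 1 := by positivity
      linarith
  have hgv : ∀ (A : {A : ℝ // 1 ≤ A}), ∀ t ∈ box2 A, GV (4 * D ^ 2) (A : ℝ) (pv c0 c1 t) := by
    rintro A t ⟨h1, h2, h3⟩
    have := pencil_gv hDn le_rfl hD0 hDc h1 A.2 h2 h3
    rwa [mul_one] at this
  refine ⟨fun A => A.2, ⟨4 * D ^ 2, hgv⟩, ⟨25, by norm_num, box2_bd⟩, ?_, ?_⟩
  · intro ε hε
    refine ⟨1, zero_le_one, ?_⟩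
    rintro ⟨A, hA⟩ p P Z hp hnd' hP hpP hpP' hAZ hPZ
    refine (Bd.sub ?_).mono subset_rfl ?_
    · rintro t ⟨h1, h2⟩ t' ⟨h1', h2'⟩
      exact pv_unique hnd' h1.1 h1'.1 h2 h2'
    · have h1 : 1 ≤ Z ^ ε := Real.one_le_rpow (hP.trans hPZ) hε.le
      have h2 : (0 : ℝ) ≤ A / P := div_nonneg (by linarith) (by linarith)
      change 1 ≤ 1 * (1 + A / P) * Z ^ ε
      nlinarith
  · intro D' ε hε
    obtain ⟨C, hC, h⟩ := pencil (max D D') ε hε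
    refine ⟨C * (1 + 2 * D ^ 2), by positivity, ?_⟩
    rintro ⟨A, hA⟩ w P Q Z hQ hQP hw hAZ hPZ
    have hP0 : 0 < P := by linarith
    have hQ0 : 0 < Q := by linarith
    have h1 := h c0 c1 w 1 Q (2 * D ^ 2 * A) P Z le_rfl hQ
      (by
        have := hDn.mono (by norm_num) (le_max_left D D')
        simpa using this)
      (hw.mono hQ0.le (le_max_right D D')) (by linarith) (by linarith) (by positivity) hP0.le
    refine h1.mono ?_ ?_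
    · rintro ⟨t, p⟩ ⟨g1, g2, g3, g4, g5, g6, g7⟩
      simp only at g1 g2 g3 g4 g5 g6 g7
      refine ⟨g1.1, g2, g5, g6, g7, g3, ?_, g4⟩
      obtain ⟨-, -, -, -, -, -, h5⟩ := hgv ⟨A, hA⟩ t g1
      simp only at h5 ⊢
      linarith
    · have hZ0 : 0 < Z := by linarith
      change C * (1 + 2 * D ^ 2 * A * P / (1 * Q)) * Z ^ ε ≤
        C * (1 + 2 * D ^ 2) * (A * P / Q) * Z ^ ε
      have h2 : 1 ≤ A * P / Q := by
        rw [le_div_iff₀ hQ0]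
        nlinarith
      have h3 : 1 + 2 * D ^ 2 * A * P / (1 * Q) ≤ (1 + 2 * D ^ 2) * (A * P / Q) := by
        have : 2 * D ^ 2 * A * P / (1 * Q) = 2 * D ^ 2 * (A * P / Q) := by
          rw [one_mul]
          ring
        rw [this]
        nlinarith
      calc C * (1 + 2 * D ^ 2 * A * P / (1 * Q)) * Z ^ ε
          ≤ C * ((1 + 2 * D ^ 2) * (A * P / Q)) * Z ^ ε := by gcongr
        _ = C * (1 + 2 * D ^ 2) * (A * P / Q) * Z ^ ε := by ring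

end Pool.Agent.K1H88.CH
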