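import Pool.Agent.K1H88.CH.Ends

/-! Ends with two legs. -/

namespace Pool.Agent.K1H88.CH

open Matrix Pool.Agent.K1H88.PG
open Pool.Agent.H548.WM (ht Rep le_ht' ht_le mem_bx)

/-- The coefficients of a bilinear family of covectors. -/
abbrev T4 := Fin 2 → Fin 2 → V

/-- The member with the parameters `a`, `b`. -/
def vv (c : T4) (a b : V2) : V := pv (pv (c 0 0) (c 0 1) b) (pv (c 1 0) (c 1 1) b) a

/-- The exchange of the two parameters. -/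
def sw (c : T4) : T4 := fun i j => c j i

theorem vv_sw (c : T4) (a b : V2) : vv (sw c) b a = vv c a b := by
  unfold vv sw
  apply ext3 <;> simp only [pv, Pi.add_apply, Pi.smul_apply, smul_eq_mul] <;> ring

/-- The matrix of the cross product of two pencils. -/
def Nm (x0 x1 y0 y1 : V) : Matrix (Fin 3) (Fin 3) ℤ :=
  Matrix.of fun i k => (![x0 ⨯₃ y0, x0 ⨯₃ y1 + x1 ⨯₃ y0, x1 ⨯₃ y1] : Fin 3 → V) k i

theorem Nm_mon (x0 x1 y0 y1 : V) (t : V2) :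
    pv x0 x1 t ⨯₃ pv y0 y1 t = Nm x0 x1 y0 y1 *ᵥ mon t := by
  apply ext3 <;>
    simp only [mulVec, dot3, Nm, mon, of_apply, cons_val_zero, cons_val_one, cons_val, pv, PG.c0,
      PG.c1, PG.c2, Pi.add_apply, Pi.smul_apply, smul_eq_mul] <;> ring

/-- The matrix for the second parameter. -/
def Nb (c : T4) : Matrix (Fin 3) (Fin 3) ℤ := Nm (c 0 0) (c 0 1) (c 1 0) (c 1 1)

/-- The condition for the next vertex. -/
def nd2 (c : T4) (p : V) : Prop :=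
  (c 0 0 ⬝ᵥ p) * (c 1 1 ⬝ᵥ p) - (c 0 1 ⬝ᵥ p) * (c 1 0 ⬝ᵥ p) ≠ 0

theorem nd2_sw (c : T4) (p : V) : nd2 (sw c) p ↔ nd2 c p := by
  unfold nd2 sw
  rw [mul_comm (c 1 0 ⬝ᵥ p)]

theorem exists_ent (M : Matrix (Fin 3) (Fin 3) ℤ) : ∃ a : ℕ, Ent M a := by
  refine ⟨∑ i, ∑ j, (M i j).natAbs, ?_⟩
  intro i j
  rw [Int.abs_eq_natAbs]
  have h2 : (M i j).natAbs ≤ ∑ j, (M i j).natAbs :=
    Finset.single_le_sum (f := fun j => (M i j).natAbs) (fun _ _ => Nat.zero_le _)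
      (Finset.mem_univ j)
  have h3 : ∑ j, (M i j).natAbs ≤ ∑ i, ∑ j, (M i j).natAbs :=
    Finset.single_le_sum (f := fun i => ∑ j, (M i j).natAbs) (fun _ _ => Nat.zero_le _)
      (Finset.mem_univ i)
  exact_mod_cast h2.trans h3

theorem GV.size {D Q Q' : ℝ} {w : V} (h : GV D Q w) (h0 : 0 ≤ Q') (h1 : Q' ≤ Q)
    (h2 : Q ≤ 4 * Q') : GV (4 * D) Q' w := by
  have hp := h.pos
  have hD := h.D_pos
  obtain ⟨c, d, g1, g2, g3, g4, g5⟩ := h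
  refine ⟨c, d, g1, g2, by linarith, ?_, ?_⟩
  · have : 0 ≤ D * (ht w : ℝ) := by positivity
    linarith
  · calc (ht w : ℝ) ≤ D * Q := g5
      _ ≤ D * (4 * Q') := by gcongr
      _ = _ := by ring

theorem pv_ht (c0 c1 : V) {t : V2} {A : ℝ} (hA : (ht t : ℝ) ≤ 2 * A) :
    (ht (pv c0 c1 t) : ℝ) ≤ 2 * (ht c0 + ht c1) * A := by
  have e1 : (ht (pv c0 c1 t) : ℝ) ≤ |(t 0 : ℝ)| * ht c0 + |(t 1 : ℝ)| * ht c1 := by
    have h2 := ht_add (t 0 • c0) (t 1 • c1)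
    rw [ht_smul, ht_smul] at h2
    exact_mod_cast h2
  have e2 : |(t 0 : ℝ)| ≤ ht t := by exact_mod_cast le_ht' t 0
  have e3 : |(t 1 : ℝ)| ≤ ht t := by exact_mod_cast le_ht' t 1
  calc (ht (pv c0 c1 t) : ℝ) ≤ (2 * A) * ht c0 + (2 * A) * ht c1 := by
        refine e1.trans (add_le_add ?_ ?_)
        · exact mul_le_mul_of_nonneg_right (e2.trans hA) (Nat.cast_nonneg _)
        · exact mul_le_mul_of_nonneg_right (e3.trans hA) (Nat.cast_nonneg _)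
    _ = _ := by ring

/-- The two pencils for a fixed second parameter. -/
theorem pencils (c : T4) (hN : (Nb c).det ≠ 0) : ∃ D : ℝ, 1 ≤ D ∧ ∀ B : {B : ℝ // 1 ≤ B},
    ∀ b ∈ box2 B, GV D ((B : ℝ) ^ 2) (pv (c 0 0) (c 0 1) b ⨯₃ pv (c 1 0) (c 1 1) b) ∧
      (ht (pv (c 0 0) (c 0 1) b) : ℝ) ≤ D * B ∧ (ht (pv (c 1 0) (c 1 1) b) : ℝ) ≤ D * B := by
  obtain ⟨a, ha⟩ := exists_ent (Nb c)
  have hDm : 1 ≤ Dm a := by
    unfold Dm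
    have : (0 : ℝ) ≤ 6 * (a : ℝ) ^ 3 + 6 * (a : ℝ) ^ 2 + 6 * a := by positivity
    linarith
  refine ⟨4 * Dm a + 2 * (ht (c 0 0) + ht (c 0 1)) + 2 * (ht (c 1 0) + ht (c 1 1)), ?_, ?_⟩
  · have : (0 : ℝ) ≤ 2 * (ht (c 0 0) + ht (c 0 1)) + 2 * (ht (c 1 0) + ht (c 1 1)) := by positivity
    linarith
  rintro ⟨B, hB⟩ b ⟨h1, h2, h3⟩
  simp only at h2 h3 ⊢
  have hB0 : 0 < B := by linarith
  have hh : (0 : ℝ) ≤ ht b := Nat.cast_nonneg _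
  refine ⟨?_, ?_, ?_⟩
  · have g1 : GV (Dm a) ((ht b : ℝ) ^ 2) (Nb c *ᵥ mon b) := by
      apply gv_mul ha hN (mon_rep h1)
      · rw [mon_ht]
        push_cast
        exact le_rfl
      · rw [mon_ht]
        push_cast
        nlinarith [sq_nonneg (ht b : ℝ)]
    have g2 : GV (4 * Dm a) (B ^ 2) (Nb c *ᵥ mon b) := by
      apply g1.size (by positivity)
      · exact pow_le_pow_left₀ hB0.le h2 2
      · calc (ht b : ℝ) ^ 2 ≤ (2 * B) ^ 2 := pow_le_pow_left₀ hh h3 2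
          _ = _ := by ring
    rw [Nm_mon]
    apply g2.mono (by positivity)
    have : (0 : ℝ) ≤ 2 * (ht (c 0 0) + ht (c 0 1)) + 2 * (ht (c 1 0) + ht (c 1 1)) := by positivity
    linarith
  · refine (pv_ht (c 0 0) (c 0 1) h3).trans ?_
    apply mul_le_mul_of_nonneg_right _ hB0.le
    have : (0 : ℝ) ≤ 4 * Dm a + 2 * (ht (c 1 0) + ht (c 1 1)) := by positivity
    linarith
  · refine (pv_ht (c 1 0) (c 1 1) h3).trans ?_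
    apply mul_le_mul_of_nonneg_right _ hB0.le
    have : (0 : ℝ) ≤ 4 * Dm a + 2 * (ht (c 0 0) + ht (c 0 1)) := by positivity
    linarith

/-- Nondegeneracy of the bilinear form for a vertex. -/
theorem nd2_cross {c : T4} {p : V} (h : nd2 c p) {b : V2} (hb : Rep b)
    (hn : pv (c 0 0) (c 0 1) b ⨯₃ pv (c 1 0) (c 1 1) b ≠ 0) :
    (pv (c 0 0) (c 0 1) b ⨯₃ pv (c 1 0) (c 1 1) b) ⨯₃ p ≠ 0 := by
  intro h0
  set x := pv (c 0 0) (c 0 1) b with hx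
  set y := pv (c 1 0) (c 1 1) b with hy
  have e1 : p ⨯₃ (x ⨯₃ y) = 0 := by rw [← cross_anticomm, h0, neg_zero]
  rw [cross_cross'] at e1
  have e2 := congrArg (fun v => v ⨯₃ y) e1
  simp only [LinearMap.map_sub₂, LinearMap.map_smul₂, cross_self, smul_zero, sub_zero,
    LinearMap.map_zero₂] at e2
  have f1 : p ⬝ᵥ y = 0 := (smul_eq_zero.1 e2).resolve_right hn
  have e3 := congrArg (fun v => x ⨯₃ v) e1
  simp only [map_sub, map_smul, cross_self, smul_zero, zero_sub, map_zero, neg_eq_zero] at e3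
  have f2 : p ⬝ᵥ x = 0 := (smul_eq_zero.1 e3).resolve_right hn
  rw [dotProduct_comm, hy, pv_smul_dot] at f1
  rw [dotProduct_comm, hx, pv_smul_dot] at f2
  unfold nd2 at h
  apply rep2_ne hb
  have g0 : ((c 0 0 ⬝ᵥ p) * (c 1 1 ⬝ᵥ p) - (c 0 1 ⬝ᵥ p) * (c 1 0 ⬝ᵥ p)) * b 0 = 0 := by
    linear_combination (c 1 1 ⬝ᵥ p) * f2 - (c 0 1 ⬝ᵥ p) * f1
  have g1 : ((c 0 0 ⬝ᵥ p) * (c 1 1 ⬝ᵥ p) - (c 0 1 ⬝ᵥ p) * (c 1 0 ⬝ᵥ p)) * b 1 = 0 := by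
    linear_combination (c 0 0 ⬝ᵥ p) * f1 - (c 1 0 ⬝ᵥ p) * f2
  funext i
  fin_cases i
  · exact (mul_eq_zero.1 g0).resolve_left h
  · exact (mul_eq_zero.1 g1).resolve_left h

/-- The covector of two legs. -/
theorem vv_gv (c : T4) (hN : (Nb c).det ≠ 0) : ∃ D : ℝ, 1 ≤ D ∧ ∀ (A B : {A : ℝ // 1 ≤ A}),
    ∀ a ∈ box2 A, ∀ b ∈ box2 B, GV D ((A : ℝ) * B) (vv c a b) := by
  obtain ⟨D, hD, h⟩ := pencils c hN
  refine ⟨4 * D ^ 2, by nlinarith, ?_⟩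
  intro A B a ha b hb
  obtain ⟨h1, h2, h3⟩ := h B b hb
  exact pencil_gv h1 B.2 h2 h3 ha.1 A.2 ha.2.1 ha.2.2

/-- The first leg and the next vertex. -/
theorem half (c : T4) (hN : (Nb c).det ≠ 0) (D ε : ℝ) (hε : 0 < ε) : ∃ C : ℝ, 0 ≤ C ∧
    ∀ (A B : {A : ℝ // 1 ≤ A}) (w : V) (P Q Z : ℝ), (B : ℝ) ≤ A → 1 ≤ Q → Q ≤ P → GV D Q w →
      (A : ℝ) * B ≤ Z → P ≤ Z →
        Bd {v : (V2 × V2) × V | v.1 ∈ box2 A ×ˢ box2 B ∧ Rep v.2 ∧ nd2 c v.2 ∧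
          (ht v.2 : ℝ) ≤ 2 * P ∧ vv c v.1.1 v.1.2 ⬝ᵥ v.2 = 0 ∧ w ⬝ᵥ v.2 = 0 ∧
          vv c v.1.1 v.1.2 ⨯₃ w ≠ 0} (C * (A * B * P / Q) * Z ^ ε) := by
  obtain ⟨D1, hD1, hp⟩ := pencils c hN
  obtain ⟨D2, hD2, hv⟩ := vv_gv c hN
  obtain ⟨C, hC, h⟩ := pencil (max D D1) ε hε
  refine ⟨(C * (1 + D2)) * 25, by positivity, ?_⟩
  rintro ⟨A, hA⟩ ⟨B, hB⟩ w P Q Z hBA hQ hQP hw hABZ hPZ
  simp only at hBA hABZ ⊢
  have hP0 : 0 < P := by linarith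
  have hQ0 : 0 < Q := by linarith
  have hZ0 : 0 < Z := by linarith
  have hA0 : 0 < A := by linarith
  have hB0 : 0 < B := by linarith
  have hZe : 0 < Z ^ ε := Real.rpow_pos_of_pos hZ0 _
  have hb := box2_bd ⟨B, hB⟩
  have hfib : Bd {v : (V2 × V2) × V | v.1 ∈ box2 ⟨A, hA⟩ ×ˢ box2 ⟨B, hB⟩ ∧ Rep v.2 ∧ nd2 c v.2 ∧
      (ht v.2 : ℝ) ≤ 2 * P ∧ vv c v.1.1 v.1.2 ⬝ᵥ v.2 = 0 ∧ w ⬝ᵥ v.2 = 0 ∧
      vv c v.1.1 v.1.2 ⨯₃ w ≠ 0} ((C * (1 + D2 * A * B * P / (B ^ 2 * Q)) * Z ^ ε) *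
        (25 * B ^ 2)) := by
    apply hb.fib (fun v => v.1.2) (fun v hv => hv.1.2) (by positivity)
    intro b hb'
    obtain ⟨q1, q2, q3⟩ := hp ⟨B, hB⟩ b hb'
    simp only at q1 q2 q3
    have h1 := h (pv (c 0 0) (c 0 1) b) (pv (c 1 0) (c 1 1) b) w (B ^ 2) Q (D2 * A * B) P Z
      (one_le_pow₀ hB) hQ (q1.mono (by positivity) (le_max_right _ _))
      (hw.mono hQ0.le (le_max_left _ _)) (by nlinarith) (by linarith) (by positivity) hP0.le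
    apply (h1.inj (fun v : (V2 × V2) × V => (v.1.1, v.2)) ?_ ?_)
    · rintro ⟨⟨a, b'⟩, p⟩ ⟨⟨g1, g2, g3, g4, g5, g6, g7⟩, g8⟩
      simp only at g1 g2 g3 g4 g5 g6 g7 g8
      subst g8
      refine ⟨g1.1.1, g2, g5, g6, g7, nd2_cross g3 g1.2.1 q1.ne, ?_, g4⟩
      obtain ⟨-, -, -, -, -, -, h5⟩ := hv ⟨A, hA⟩ ⟨B, hB⟩ a g1.1 b' g1.2
      simp only at h5
      have : (0 : ℝ) ≤ D2 * (A * B) := by positivity
      change (ht (vv c a b') : ℝ) ≤ 2 * (D2 * A * B)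
      linarith
    · rintro ⟨⟨a, b'⟩, p⟩ ⟨-, g8⟩ ⟨⟨a2, b2⟩, p2⟩ ⟨-, g8'⟩ heq
      simp only [Prod.mk.injEq] at g8 g8' heq ⊢
      exact ⟨⟨heq.1, g8.trans g8'.symm⟩, heq.2⟩
  refine hfib.mono subset_rfl ?_
  have h2 : 1 ≤ A * P / (B * Q) := by
    rw [le_div_iff₀ (by positivity), one_mul]
    exact mul_le_mul hBA hQP hQ0.le hA0.le
  have h3 : 1 + D2 * A * B * P / (B ^ 2 * Q) ≤ (1 + D2) * (A * P / (B * Q)) := by
    have : D2 * A * B * P / (B ^ 2 * Q) = D2 * (A * P / (B * Q)) := by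
      field_simp
    rw [this]
    nlinarith
  calc C * (1 + D2 * A * B * P / (B ^ 2 * Q)) * Z ^ ε * (25 * B ^ 2)
      ≤ C * ((1 + D2) * (A * P / (B * Q))) * Z ^ ε * (25 * B ^ 2) := by gcongr
    _ = (C * (1 + D2)) * 25 * (A * B * P / Q) * Z ^ ε := by field_simp

end Pool.Agent.K1H88.CH
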