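import Pool.Agent.K1H88.CH.Ends2

/-! Ends with two legs: the estimates. -/

namespace Pool.Agent.K1H88.CH

open Matrix Pool.Agent.K1H88.PG
open Pool.Agent.H548.WM (ht Rep le_ht' ht_le mem_bx)

theorem cross_Nb (c : T4) (p z : V) : p ⨯₃ (Nb c *ᵥ z) =
    z 0 • ((c 1 0 ⬝ᵥ p) • c 0 0 - (c 0 0 ⬝ᵥ p) • c 1 0) +
    z 1 • ((c 1 1 ⬝ᵥ p) • c 0 0 - (c 0 0 ⬝ᵥ p) • c 1 1 + (c 1 0 ⬝ᵥ p) • c 0 1 -
      (c 0 1 ⬝ᵥ p) • c 1 0) +
    z 2 • ((c 1 1 ⬝ᵥ p) • c 0 1 - (c 0 1 ⬝ᵥ p) • c 1 1) := by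
  apply ext3 <;>
    simp only [mulVec, dot3, Nb, Nm, of_apply, cons_val_zero, cons_val_one, cons_val, PG.c0,
      PG.c1, PG.c2, Pi.add_apply, Pi.sub_apply, Pi.smul_apply, smul_eq_mul] <;> ring

theorem cross_det (c : T4) (p e : V) : (Nb c).det • (p ⨯₃ e) =
    p ⨯₃ (Nb c *ᵥ ((Nb c).adjugate *ᵥ e)) := by
  rw [mul_adj, map_smul]

theorem div_det {c : T4} {p : V} (hp : Rep p) {g : ℤ} (hg : ∀ i j, g ∣ c i j ⬝ᵥ p) :
    g ∣ (Nb c).det := by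
  have h1 : ∀ (e : V) (i : Fin 3), g ∣ (Nb c).det * (p ⨯₃ e) i := by
    intro e i
    have h2 := congrFun (cross_det c p e) i
    rw [Pi.smul_apply, smul_eq_mul] at h2
    rw [h2, cross_Nb]
    simp only [Pi.add_apply, Pi.sub_apply, Pi.smul_apply, smul_eq_mul]
    have k00 := hg 0 0
    have k01 := hg 0 1
    have k10 := hg 1 0
    have k11 := hg 1 1
    refine dvd_add (dvd_add ?_ ?_) ?_
    · exact ((k10.mul_right _).sub (k00.mul_right _)).mul_left _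
    · exact ((((k11.mul_right _).sub (k00.mul_right _)).add (k10.mul_right _)).sub
        (k01.mul_right _)).mul_left _
    · exact ((k11.mul_right _).sub (k01.mul_right _)).mul_left _
  obtain ⟨s, hs⟩ := bez hp
  have a2 := h1 ![1, 0, 0] 1
  have a1 := h1 ![1, 0, 0] 2
  have a0 := h1 ![0, 1, 0] 2
  rw [PG.c1] at a2
  rw [PG.c2] at a1 a0
  simp only [cons_val_zero, cons_val_one, cons_val, mul_one, mul_zero, sub_zero, zero_sub] at a0 a1 a2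
  have e : (Nb c).det = s 0 * ((Nb c).det * p 0) + (-s 1) * ((Nb c).det * -p 1) +
      s 2 * ((Nb c).det * p 2) := by
    rw [dot3] at hs
    linear_combination (-(Nb c).det) * hs
  rw [e]
  exact dvd_add (dvd_add (a0.mul_left _) (a1.mul_left _)) (a2.mul_left _)

/-- The size of the bilinear form of a vertex. -/
theorem low_form (c : T4) (hN : (Nb c).det ≠ 0) : ∃ D : ℝ, 1 ≤ D ∧ |((Nb c).det : ℝ)| ≤ D ∧
    ∀ (p : V) (P : ℝ), 1 ≤ P → P ≤ ht p → (ht p : ℝ) ≤ 2 * P →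
      (∀ i j, |((c i j ⬝ᵥ p : ℤ) : ℝ)| ≤ D * P) ∧
      ∃ i j, P ≤ D * |((c i j ⬝ᵥ p : ℤ) : ℝ)| := by
  obtain ⟨a, ha⟩ := exists_ent (Nb c)
  obtain ⟨κ, hκ, hκ'⟩ : ∃ κ : ℝ, 0 ≤ κ ∧ ∀ i j, (ht (c i j) : ℝ) ≤ κ := by
    refine ⟨∑ i, ∑ j, (ht (c i j) : ℝ), by positivity, ?_⟩
    intro i j
    have h2 : (ht (c i j) : ℝ) ≤ ∑ j, (ht (c i j) : ℝ) :=
      Finset.single_le_sum (f := fun j => (ht (c i j) : ℝ)) (fun _ _ => Nat.cast_nonneg _)
        (Finset.mem_univ j)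
    have h3 : ∑ j, (ht (c i j) : ℝ) ≤ ∑ i, ∑ j, (ht (c i j) : ℝ) :=
      Finset.single_le_sum (f := fun i => ∑ j, (ht (c i j) : ℝ))
        (fun _ _ => Finset.sum_nonneg fun _ _ => Nat.cast_nonneg _) (Finset.mem_univ i)
    exact h2.trans h3
  set D : ℝ := 1 + |((Nb c).det : ℝ)| + 6 * κ + 48 * a ^ 2 * κ with hD
  have hD1 : 1 ≤ D := by
    have : 0 ≤ |((Nb c).det : ℝ)| + 6 * κ + 48 * a ^ 2 * κ := by positivity
    linarith
  refine ⟨D, hD1, ?_, ?_⟩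
  · have : 0 ≤ 6 * κ + 48 * a ^ 2 * κ := by positivity
    linarith
  intro p P hP h1 h2
  have hP0 : 0 < P := by linarith
  constructor
  · intro i j
    have h3 : |((c i j ⬝ᵥ p : ℤ) : ℝ)| ≤ 3 * ht (c i j) * ht p := by exact_mod_cast dot_le _ _
    calc |((c i j ⬝ᵥ p : ℤ) : ℝ)| ≤ 3 * ht (c i j) * ht p := h3
      _ ≤ 3 * κ * (2 * P) := by
          have := hκ' i j
          gcongr
      _ = 6 * κ * P := by ring
      _ ≤ D * P := by
          apply mul_le_mul_of_nonneg_right _ hP0.le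
          have : 0 ≤ 1 + |((Nb c).det : ℝ)| + 48 * a ^ 2 * κ := by positivity
          linarith
  · by_contra hc
    push Not at hc
    set m : ℝ := P / D with hm
    have hm0 : 0 < m := by positivity
    have hM : ∀ i j, |((c i j ⬝ᵥ p : ℤ) : ℝ)| ≤ m := by
      intro i j
      rw [hm, le_div_iff₀ (by linarith)]
      linarith [hc i j]
    -- the coordinates of the cross products
    have key : ∀ (e : V) (i : Fin 3), ht e ≤ 1 →
        |(((p ⨯₃ e) i : ℤ) : ℝ)| ≤ 48 * a ^ 2 * κ * m := by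
      intro e i he
      have hz : (ht ((Nb c).adjugate *ᵥ e) : ℝ) ≤ 6 * a ^ 2 := by
        have h3 : (ht ((Nb c).adjugate *ᵥ e) : ℝ) ≤ 3 * (2 * a ^ 2) * ht e := by
          exact_mod_cast (adj_ent ha).mul e
        have h4 : (ht e : ℝ) ≤ 1 := by exact_mod_cast he
        calc (ht ((Nb c).adjugate *ᵥ e) : ℝ) ≤ 3 * (2 * a ^ 2) * ht e := h3
          _ ≤ 3 * (2 * a ^ 2) * 1 := by gcongr
          _ = _ := by ring
      set z := (Nb c).adjugate *ᵥ e with hzd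
      have h3 := congrFun (cross_det c p e) i
      rw [Pi.smul_apply, smul_eq_mul, ← hzd, cross_Nb] at h3
      simp only [Pi.add_apply, Pi.sub_apply, Pi.smul_apply, smul_eq_mul] at h3
      have h4 : (((Nb c).det : ℤ) : ℝ) * (((p ⨯₃ e) i : ℤ) : ℝ) =
          z 0 * (((c 1 0 ⬝ᵥ p : ℤ) : ℝ) * (c 0 0 i) - ((c 0 0 ⬝ᵥ p : ℤ) : ℝ) * (c 1 0 i)) +
          z 1 * (((c 1 1 ⬝ᵥ p : ℤ) : ℝ) * (c 0 0 i) - ((c 0 0 ⬝ᵥ p : ℤ) : ℝ) * (c 1 1 i) +
            ((c 1 0 ⬝ᵥ p : ℤ) : ℝ) * (c 0 1 i) - ((c 0 1 ⬝ᵥ p : ℤ) : ℝ) * (c 1 0 i)) +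
          z 2 * (((c 1 1 ⬝ᵥ p : ℤ) : ℝ) * (c 0 1 i) - ((c 0 1 ⬝ᵥ p : ℤ) : ℝ) * (c 1 1 i)) := by
        exact_mod_cast h3
      have t : ∀ (k : Fin 3) (i1 j1 i2 j2 : Fin 2),
          |(z k : ℝ) * (((c i1 j1 ⬝ᵥ p : ℤ) : ℝ) * (c i2 j2 i))| ≤ 6 * a ^ 2 * (m * κ) := by
        intro k i1 j1 i2 j2
        rw [abs_mul, abs_mul]
        have b1 : |(z k : ℝ)| ≤ 6 * a ^ 2 := by
          refine le_trans ?_ hz
          exact_mod_cast le_ht' z k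
        have b2 := hM i1 j1
        have b3 : |((c i2 j2 i : ℤ) : ℝ)| ≤ κ := by
          refine le_trans ?_ (hκ' i2 j2)
          exact_mod_cast le_ht' (c i2 j2) i
        exact mul_le_mul b1 (mul_le_mul b2 b3 (abs_nonneg _) hm0.le)
          (mul_nonneg (abs_nonneg _) (abs_nonneg _)) (by positivity)
      have h5 : |(((Nb c).det : ℤ) : ℝ) * (((p ⨯₃ e) i : ℤ) : ℝ)| ≤ 48 * a ^ 2 * κ * m := by
        rw [h4, abs_le]
        have t1 := abs_le.1 (t 0 1 0 0 0)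
        have t2 := abs_le.1 (t 0 0 0 1 0)
        have t3 := abs_le.1 (t 1 1 1 0 0)
        have t4 := abs_le.1 (t 1 0 0 1 1)
        have t5 := abs_le.1 (t 1 1 0 0 1)
        have t6 := abs_le.1 (t 1 0 1 1 0)
        have t7 := abs_le.1 (t 2 1 1 0 1)
        have t8 := abs_le.1 (t 2 0 1 1 1)
        constructor <;> linarith [t1.1, t1.2, t2.1, t2.2, t3.1, t3.2, t4.1, t4.2, t5.1, t5.2,
          t6.1, t6.2, t7.1, t7.2, t8.1, t8.2]
      rw [abs_mul] at h5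
      have h6 : (1 : ℝ) ≤ |(((Nb c).det : ℤ) : ℝ)| := by exact_mod_cast Int.one_le_abs hN
      nlinarith [abs_nonneg (((p ⨯₃ e) i : ℤ) : ℝ)]
    -- the height of `p`
    obtain ⟨i, hi⟩ := Pool.Agent.H548.WM.exists_ht (by norm_num) p
    have hle : (ht p : ℝ) ≤ 48 * a ^ 2 * κ * m := by
      have e0 : ht (![1, 0, 0] : V) ≤ 1 := by
        apply ht_le
        intro i
        fin_cases i <;> decide
      have e1 : ht (![0, 1, 0] : V) ≤ 1 := by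
        apply ht_le
        intro i
        fin_cases i <;> decide
      have hi' : (ht p : ℝ) = |(p i : ℝ)| := by
        have : ((ht p : ℤ) : ℝ) = ((|p i| : ℤ) : ℝ) := by rw [hi]
        rw [Int.cast_abs] at this
        exact_mod_cast this
      rw [hi']
      fin_cases i
      · have := key ![0, 1, 0] 2 e1
        rw [PG.c2] at this
        simpa using this
      · have := key ![1, 0, 0] 2 e0
        rw [PG.c2] at this
        simpa using this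
      · have := key ![1, 0, 0] 1 e0
        rw [PG.c1] at this
        simpa using this
    have h7 : 48 * a ^ 2 * κ * m < P := by
      have h8 : D * m = P := by
        rw [hm]
        field_simp
      have h9 : 48 * a ^ 2 * κ < D := by
        have : 0 ≤ |((Nb c).det : ℝ)| + 6 * κ := by positivity
        linarith
      calc 48 * a ^ 2 * κ * m < D * m := by gcongr
        _ = P := h8
    linarith

/-- A bilinear family with two legs. -/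
def twoEnd (c : T4) : EndT where
  Ω := V2 × V2
  S := {A : ℝ // 1 ≤ A} × {A : ℝ // 1 ≤ A}
  mem := fun s => box2 s.1 ×ˢ box2 s.2
  u := fun ω => vv c ω.1 ω.2
  X := fun s => s.1 * s.2
  nd := nd2 c

theorem vv_dot (c : T4) (a b : V2) (p : V) : vv c a b ⬝ᵥ p =
    (a 0 * (c 0 0 ⬝ᵥ p) + a 1 * (c 1 0 ⬝ᵥ p)) * b 0 +
      (a 0 * (c 0 1 ⬝ᵥ p) + a 1 * (c 1 1 ⬝ᵥ p)) * b 1 := by
  unfold vv
  rw [pv_smul_dot, pv_smul_dot, pv_smul_dot]
  ring

theorem twoEnd_ok {c : T4} (h1 : (Nb c).det ≠ 0) (h2 : (Nb (sw c)).det ≠ 0) : (twoEnd c).OK := by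
  obtain ⟨Dv, hDv, hv⟩ := vv_gv c h1
  obtain ⟨Dl, hDl, hdet, hlow⟩ := low_form c h1
  refine ⟨?_, ⟨Dv, ?_⟩, ⟨625, by norm_num, ?_⟩, ?_, ?_⟩
  · rintro ⟨⟨A, hA⟩, ⟨B, hB⟩⟩
    change 1 ≤ A * B
    nlinarith
  · rintro ⟨A, B⟩ ⟨a, b⟩ hab
    exact hv A B a hab.1 b hab.2
  · rintro ⟨A, B⟩
    refine ((box2_bd A).prod (box2_bd B)).mono subset_rfl (le_of_eq ?_)
    change _ = 625 * ((A : ℝ) * B) ^ 2
    ring
  · intro ε hε
    obtain ⟨C, hC, h⟩ := bil Dl ε hε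
    refine ⟨C, hC, ?_⟩
    rintro ⟨⟨A, hA⟩, ⟨B, hB⟩⟩ p P Z hp hnd hP hpP hpP' hABZ hPZ
    obtain ⟨g1, g2⟩ := hlow p P hP hpP hpP'
    have h3 := h (fun i j => c i j ⬝ᵥ p) P A B Z (Nb c).det hP (by linarith) (by linarith) hPZ
      (fun i j => g1 i j) g2 h1 hdet (fun g hg => div_det hp hg) hnd
    refine h3.mono ?_ le_rfl
    rintro ⟨a, b⟩ ⟨⟨k1, k2⟩, k3⟩
    refine ⟨k1.1, k2.1, k1.2.2, k2.2.2, ?_⟩
    have k4 : vv c a b ⬝ᵥ p = 0 := k3
    rw [vv_dot] at k4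
    exact k4
  · intro D ε hε
    obtain ⟨C1, hC1, p1⟩ := half c h1 D ε hε
    obtain ⟨C2, hC2, p2⟩ := half (sw c) h2 D ε hε
    refine ⟨C1 + C2, by positivity, ?_⟩
    rintro ⟨A, B⟩ w P Q Z hQ hQP hw hABZ hPZ
    change (A : ℝ) * B ≤ Z at hABZ
    have hA := A.2
    have hB := B.2
    have hZ0 : 0 ≤ Z := by linarith
    have hr : 0 ≤ (A : ℝ) * B * P / Q * Z ^ ε := by
      have : 0 ≤ Z ^ ε := Real.rpow_nonneg hZ0 _
      have : (0 : ℝ) ≤ P := by linarith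
      have : (0 : ℝ) ≤ Q := by linarith
      positivity
    rcases le_total (B : ℝ) A with hBA | hBA
    · refine (p1 A B w P Q Z hBA hQ hQP hw hABZ hPZ).mono ?_ ?_
      · rintro ⟨⟨a, b⟩, p⟩ ⟨g1, g2, g3, g4, g5, g6, g7⟩
        exact ⟨g1, g2, g3, g4, g5, g6, g7⟩
      · change C1 * ((A : ℝ) * B * P / Q) * Z ^ ε ≤ (C1 + C2) * ((A : ℝ) * B * P / Q) * Z ^ ε
        nlinarith
    · have h3 := p2 B A w P Q Z hBA hQ hQP hw (by linarith) hPZ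
      refine (h3.inj (fun v : (V2 × V2) × V => ((v.1.2, v.1.1), v.2)) ?_ ?_).mono subset_rfl ?_
      · rintro ⟨⟨a, b⟩, p⟩ ⟨g1, g2, g3, g4, g5, g6, g7⟩
        refine ⟨⟨g1.2, g1.1⟩, g2, (nd2_sw c _).2 g3, g4, ?_, g6, ?_⟩
        · simp only
          rw [vv_sw]
          exact g5
        · simp only
          rw [vv_sw]
          exact g7
      · rintro ⟨⟨a, b⟩, p⟩ - ⟨⟨a2, b2⟩, p2⟩ - heq
        simp only [Prod.mk.injEq] at heq ⊢
        exact ⟨⟨heq.1.2, heq.1.1⟩, heq.2⟩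
      · change C2 * ((B : ℝ) * A * P / Q) * Z ^ ε ≤ (C1 + C2) * ((A : ℝ) * B * P / Q) * Z ^ ε
        rw [mul_comm (B : ℝ) A]
        nlinarith

end Pool.Agent.K1H88.CH
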