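import Pool.Agent.K1H88.CH.Conv
import Pool.Agent.K1H88.PG.Non

/-! Existence of points of the open set. -/

namespace Pool.Agent.K1H88.CH

open Matrix Pool.Agent.K1H88.PG

section Open

variable {K : Type} [Field K]

/-- Conditions which exclude only finitely many points of a line on which they hold somewhere. -/
def Opn (G : (Fin 3 → K) → Prop) : Prop :=
  ∀ z w, (G z ∨ G w) → {s : K | ¬ G (z + s • w)}.Finite

theorem Opn.and {G H : (Fin 3 → K) → Prop} (hG : Opn G) (hH : Opn H) :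
    Opn fun z => G z ∧ H z := by
  intro z w h
  have h1 : G z ∨ G w := by tauto
  have h2 : H z ∨ H w := by tauto
  refine ((hG z w h1).union (hH z w h2)).subset ?_
  intro s hs
  simp only [Set.mem_setOf_eq, Set.mem_union] at hs ⊢
  tauto

theorem Opn.all {ι : Type} {s : Finset ι} {G : ι → (Fin 3 → K) → Prop} (hG : ∀ k, Opn (G k)) :
    Opn fun z => ∀ k ∈ s, G k z := by
  intro z w h
  have h1 : ∀ k ∈ s, {s : K | ¬ G k (z + s • w)}.Finite := fun k hk => hG k z w (by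
    rcases h with h | h
    · exact Or.inl (h k hk)
    · exact Or.inr (h k hk))
  refine (s.finite_toSet.biUnion h1).subset ?_
  intro t ht
  simp only [Set.mem_setOf_eq, not_forall] at ht
  obtain ⟨k, hk, hk'⟩ := ht
  exact Set.mem_biUnion (Finset.mem_coe.2 hk) hk'

/-- Nonvanishing of a linear map. -/
theorem opn_lin {M : Type*} [AddCommGroup M] [Module K M] (φ : (Fin 3 → K) →ₗ[K] M) :
    Opn fun z => φ z ≠ 0 := by
  intro z w h
  apply Set.Subsingleton.finite
  intro s hs t ht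
  simp only [Set.mem_setOf_eq, not_not, map_add, map_smul] at hs ht
  by_contra hne
  have h1 : (s - t) • φ w = 0 := by
    rw [sub_smul, sub_eq_zero]
    have := hs.trans ht.symm
    exact add_left_cancel this
  have h2 : φ w = 0 := (smul_eq_zero.1 h1).resolve_left (sub_ne_zero.2 hne)
  rw [h2, smul_zero, add_zero] at hs
  rcases h with h | h
  · exact h hs
  · exact h h2

/-- Nonvanishing of a quadratic form. -/
theorem opn_quad (a b c d : Fin 3 → K) :
    Opn fun z => (a ⬝ᵥ z) * (b ⬝ᵥ z) - (c ⬝ᵥ z) * (d ⬝ᵥ z) ≠ 0 := by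
  intro z w h
  set P : Polynomial K := Polynomial.C ((a ⬝ᵥ z) * (b ⬝ᵥ z) - (c ⬝ᵥ z) * (d ⬝ᵥ z)) +
    Polynomial.C ((a ⬝ᵥ z) * (b ⬝ᵥ w) + (a ⬝ᵥ w) * (b ⬝ᵥ z) - (c ⬝ᵥ z) * (d ⬝ᵥ w) -
      (c ⬝ᵥ w) * (d ⬝ᵥ z)) * Polynomial.X +
    Polynomial.C ((a ⬝ᵥ w) * (b ⬝ᵥ w) - (c ⬝ᵥ w) * (d ⬝ᵥ w)) * Polynomial.X ^ 2 with hP
  have hP0 : P ≠ 0 := by
    intro h0
    have c0 := congrArg (fun p => Polynomial.coeff p 0) h0
    have c2 := congrArg (fun p => Polynomial.coeff p 2) h0
    simp only [hP, Polynomial.coeff_add, Polynomial.coeff_C_zero, Polynomial.coeff_C_mul,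
      Polynomial.coeff_X_zero, Polynomial.coeff_X_pow, Polynomial.coeff_zero, mul_zero, add_zero]
      at c0
    simp only [hP, Polynomial.coeff_add, Polynomial.coeff_C_mul, Polynomial.coeff_X_pow,
      Polynomial.coeff_C, Polynomial.coeff_X, Polynomial.coeff_zero] at c2
    norm_num at c0 c2
    rcases h with h | h
    · exact h c0
    · exact h c2
  refine (Polynomial.finite_setOf_isRoot hP0).subset ?_
  intro s hs
  simp only [Set.mem_setOf_eq, not_not] at hs ⊢
  rw [Polynomial.IsRoot, hP]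
  simp only [Polynomial.eval_add, Polynomial.eval_mul, Polynomial.eval_C, Polynomial.eval_X,
    Polynomial.eval_pow]
  simp only [dotProduct_add, dotProduct_smul, smul_eq_mul] at hs
  linear_combination hs

theorem avoid2 [Infinite K] {u : Fin 3 → K} {G H : (Fin 3 → K) → Prop} (hG : Opn G) (hH : Opn H)
    (h1 : ∃ z, u ⬝ᵥ z = 0 ∧ G z) (h2 : ∃ z, u ⬝ᵥ z = 0 ∧ H z) :
    ∃ z, u ⬝ᵥ z = 0 ∧ G z ∧ H z := by
  obtain ⟨a, ha, ha'⟩ := h1
  obtain ⟨b, hb, hb'⟩ := h2
  obtain ⟨s, hs⟩ := ((hG a b (Or.inl ha')).union (hH a b (Or.inr hb'))).exists_notMem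
  simp only [Set.mem_union, Set.mem_setOf_eq, not_or, not_not] at hs
  exact ⟨a + s • b, by rw [dotProduct_add, dotProduct_smul, ha, hb, smul_zero, add_zero], hs⟩

theorem avoid_all [Infinite K] {u : Fin 3 → K} {ι : Type} [DecidableEq ι]
    {G : ι → (Fin 3 → K) → Prop} (hG : ∀ k, Opn (G k)) (h : ∀ k, ∃ z, u ⬝ᵥ z = 0 ∧ G k z)
    (s : Finset ι) : ∃ z, u ⬝ᵥ z = 0 ∧ ∀ k ∈ s, G k z := by
  induction s using Finset.induction_on with
  | empty => exact ⟨0, by simp, fun k hk => absurd hk (Finset.notMem_empty k)⟩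
  | insert a s _ ih =>
    obtain ⟨z, hz, hz1, hz2⟩ := avoid2 (hG a) (Opn.all (s := s) hG) (h a) ih
    refine ⟨z, hz, fun k hk => ?_⟩
    rcases Finset.mem_insert.1 hk with rfl | hk
    · exact hz1
    · exact hz2 k hk

end Open

section Chain

variable {K : Type} [Field K] [Infinite K]

/-- The covector on the left. -/
def lf (u : Fin 3 → K) (A : ℕ → Matrix (Fin 3) (Fin 3) K) (p : ℕ → Fin 3 → K) (j : ℕ) :
    Fin 3 → K := if j = 0 then u else (A (j - 1))ᵀ *ᵥ p (j - 1)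

/-- Nondegenerate chains whose last vertex satisfies a given condition. -/
theorem exists_path {A : ℕ → Matrix (Fin 3) (Fin 3) K} (hA : ∀ i, (A i).det ≠ 0) {u : Fin 3 → K}
    (hu : u ≠ 0) {G0 : (Fin 3 → K) → Prop} (hG0 : Opn G0) (hG0' : ∃ z, u ⬝ᵥ z = 0 ∧ G0 z)
    (m : ℕ) : ∀ {G : (Fin 3 → K) → Prop} (_ : Opn G) (_ : ∀ l, l ≠ 0 → ∃ z, l ⬝ᵥ z = 0 ∧ G z),
      ∃ p : ℕ → Fin 3 → K, (∀ j, j ≤ m → p j ≠ 0 ∧ lf u A p j ⬝ᵥ p j = 0) ∧ G0 (p 0) ∧
        (∀ j, j < m → lf u A p j ⨯₃ (A j *ᵥ p (j + 1)) ≠ 0) ∧ G (p m) := by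
  have hne : Opn fun z : Fin 3 → K => z ≠ 0 := opn_lin (LinearMap.id : (Fin 3 → K) →ₗ[K] _)
  have hne' : ∀ l : Fin 3 → K, l ≠ 0 → ∃ z, l ⬝ᵥ z = 0 ∧ z ≠ 0 := by
    intro l hl
    obtain ⟨z, hz, hz'⟩ := exists_np hl hl
    refine ⟨z, hz, ?_⟩
    rintro rfl
    apply hz'
    simp
  induction m with
  | zero =>
    intro G hG hG'
    obtain ⟨z, hz, ⟨hz1, hz2⟩, hz3⟩ := avoid2 (hG.and hG0) hne
      (avoid2 hG hG0 (hG' u hu) hG0') (hne' u hu)
    refine ⟨fun _ => z, ?_, hz2, fun j hj => absurd hj (Nat.not_lt_zero j), hz1⟩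
    intro j hj
    obtain rfl : j = 0 := by omega
    exact ⟨hz3, hz⟩
  | succ m ih =>
    intro G hG hG'
    obtain ⟨p, h1, h2, h3, h4⟩ := ih hne hne'
    have hl : lf u A p (m + 1) ≠ 0 := by
      unfold lf
      rw [if_neg (by omega)]
      exact mul_ne' (det_tr (hA _)) (h1 _ (by omega)).1
    have hlm : lf u A p m ≠ 0 := by
      unfold lf
      split_ifs with h
      · exact hu
      · exact mul_ne' (det_tr (hA _)) (h1 _ (by omega)).1
    -- the condition from the previous vertex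
    have hc : Opn fun z => cm (lf u A p m) (A m) z ≠ 0 := opn_lin _
    have hc' : ∃ z, lf u A p (m + 1) ⬝ᵥ z = 0 ∧ cm (lf u A p m) (A m) z ≠ 0 := by
      obtain ⟨z, hz, hz'⟩ := exists_np hl (adj_ne (hA m) hlm)
      exact ⟨z, hz, cross_mul_ne (hA m) hz'⟩
    obtain ⟨z, hz, hz1, hz2⟩ := avoid2 hc hG hc' (hG' _ hl)
    have hz3 : z ≠ 0 := by
      rintro rfl
      apply hz1
      rw [map_zero]
    have e : ∀ j, j ≤ m → Function.update p (m + 1) z j = p j := fun j hj =>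
      Function.update_of_ne (by omega) _ _
    have el : ∀ j, j ≤ m + 1 → lf u A (Function.update p (m + 1) z) j = lf u A p j := by
      intro j hj
      unfold lf
      split_ifs with h
      · rfl
      · rw [e _ (by omega)]
    refine ⟨Function.update p (m + 1) z, ?_, ?_, ?_, ?_⟩
    · intro j hj
      rw [el j hj]
      by_cases hjm : j = m + 1
      · rw [hjm, Function.update_self]
        exact ⟨hz3, hz⟩
      · rw [e j (by omega)]
        exact h1 j (by omega)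
    · rw [e 0 (by omega)]
      exact h2
    · intro j hj
      rw [el j (by omega)]
      by_cases hjm : j = m
      · rw [hjm, Function.update_self]
        exact hz1
      · rw [e (j + 1) (by omega)]
        exact h3 j (by omega)
    · rw [Function.update_self]
      exact hz2

end Chain

end Pool.Agent.K1H88.CH
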