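import Pool.Agent.K1H88.CH.Exist

/-! The ends of nondegenerate chains. -/

namespace Pool.Agent.K1H88.CH

open Matrix Pool.Agent.K1H88.PG

section Ring

variable {R : Type} [CommRing R] {r : ℕ}

theorem cov_lin (c : (Fin r → Fin 2) → Fin 3 → R) (t : Fin r → Fin 2 → R) (k : Fin r)
    (s : Fin 2 → R) : cov c (Function.update t k s) =
      s 0 • cov c (Function.update t k (Pi.single 0 1)) +
        s 1 • cov c (Function.update t k (Pi.single 1 1)) := by
  rw [cov_update, cov_update, cov_update, Finset.smul_sum, Finset.smul_sum,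
    ← Finset.sum_add_distrib]
  apply Finset.sum_congr rfl
  intro f _
  have h2 : f k = 0 ∨ f k = 1 := by omega
  rcases h2 with h | h
  · rw [h]
    simp [smul_smul]
  · rw [h]
    simp [smul_smul]

/-- The matrix of the cross product of the two pencils. -/
def nbm (c : (Fin 2 → Fin 2) → Fin 3 → R) : Matrix (Fin 3) (Fin 3) R :=
  Matrix.of fun i k => (![c ![0, 0] ⨯₃ c ![1, 0], c ![0, 0] ⨯₃ c ![1, 1] + c ![0, 1] ⨯₃ c ![1, 0],
    c ![0, 1] ⨯₃ c ![1, 1]] : Fin 3 → Fin 3 → R) k i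

/-- The matrix of the discriminant. -/
def sm (c : (Fin 2 → Fin 2) → Fin 3 → R) : Matrix (Fin 3) (Fin 3) R :=
  Matrix.of fun k l => c ![0, 0] k * c ![1, 1] l + c ![1, 1] k * c ![0, 0] l -
    c ![0, 1] k * c ![1, 0] l - c ![1, 0] k * c ![0, 1] l

theorem sm_det (c : (Fin 2 → Fin 2) → Fin 3 → R) : (sm c).det = 2 * (nbm c).det := by
  rw [det_fin_three, det_fin_three]
  simp only [sm, nbm, of_apply, cons_val_zero, cons_val_one, cons_val, PG.c0, PG.c1, PG.c2,
    Pi.add_apply]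
  ring

/-- The discriminant. -/
def dsc (c : (Fin 2 → Fin 2) → Fin 3 → R) (p : Fin 3 → R) : R :=
  (c ![0, 0] ⬝ᵥ p) * (c ![1, 1] ⬝ᵥ p) - (c ![0, 1] ⬝ᵥ p) * (c ![1, 0] ⬝ᵥ p)

theorem sm_mul (c : (Fin 2 → Fin 2) → Fin 3 → R) (w : Fin 3 → R) : sm c *ᵥ w =
    (c ![1, 1] ⬝ᵥ w) • c ![0, 0] + (c ![0, 0] ⬝ᵥ w) • c ![1, 1] - (c ![1, 0] ⬝ᵥ w) • c ![0, 1] -
      (c ![0, 1] ⬝ᵥ w) • c ![1, 0] := by
  apply ext3 <;>
    simp only [sm, mulVec, dot3, of_apply, Pi.add_apply, Pi.sub_apply, Pi.smul_apply,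
      smul_eq_mul] <;> ring

theorem sm_dot (c : (Fin 2 → Fin 2) → Fin 3 → R) (z w : Fin 3 → R) :
    (sm c *ᵥ w) ⬝ᵥ z = dsc c (z + w) - dsc c z - dsc c w := by
  rw [sm_mul]
  unfold dsc
  simp only [dot3, Pi.add_apply, Pi.sub_apply, Pi.smul_apply, smul_eq_mul]
  ring

end Ring

section Field

variable {K : Type} [Field K] {r : ℕ}

/-- The covector of the legs never vanishes. -/
def Bpf (c : (Fin r → Fin 2) → Fin 3 → K) : Prop :=
  ∀ t : Fin r → Fin 2 → K, (∀ k, t k ≠ 0) → cov c t ≠ 0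

/-- The derivatives as a linear map. -/
noncomputable def legL (c : (Fin r → Fin 2) → Fin 3 → K) (t : Fin r → Fin 2 → K) (k : Fin r) :
    (Fin 3 → K) →ₗ[K] (Fin 2 → K) :=
  Matrix.mulVecLin (Matrix.of fun v => cov c (Function.update t k (Pi.single v 1)))

theorem legL_apply (c : (Fin r → Fin 2) → Fin 3 → K) (t : Fin r → Fin 2 → K) (k : Fin r)
    (p : Fin 3 → K) : legL c t k p = leg c t p k := rfl

theorem leg_exists {c : (Fin r → Fin 2) → Fin 3 → K} (hb : Bpf c) {t : Fin r → Fin 2 → K}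
    (ht : ∀ k, t k ≠ 0) (k : Fin r) : ∃ z, cov c t ⬝ᵥ z = 0 ∧ leg c t z k ≠ 0 := by
  by_contra hc
  push Not at hc
  have hu := hb t ht
  have key : ∀ v : Fin 2, ∃ l : K, cov c (Function.update t k (Pi.single v 1)) = l • cov c t := by
    intro v
    apply par' hu
    by_contra hne
    obtain ⟨z, hz, hz'⟩ := exists_fun (n := cov c t)
      (r := cov c (Function.update t k (Pi.single v 1))) (by
        rw [← cross_anticomm, neg_ne_zero]
        exact hne)
    exact hz' (congrFun (hc z hz) v)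
  obtain ⟨l0, h0⟩ := key 0
  obtain ⟨l1, h1⟩ := key 1
  have h2 : cov c (Function.update t k ![l1, -l0]) = 0 := by
    rw [cov_lin, h0, h1, smul_smul, smul_smul, ← add_smul]
    simp only [cons_val_zero, cons_val_one]
    rw [mul_comm l1 l0, neg_mul, add_neg_cancel, zero_smul]
  refine hb _ ?_ h2
  intro k'
  by_cases hk : k' = k
  · rw [hk, Function.update_self]
    intro h3
    have e0 : l1 = 0 := congrFun h3 0
    have e1 : -l0 = 0 := congrFun h3 1
    rw [neg_eq_zero] at e1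
    apply hu
    have h4 : cov c t = cov c (Function.update t k (t k)) := by rw [Function.update_eq_self]
    rw [h4, cov_lin, h0, h1, e0, e1, zero_smul, smul_zero, smul_zero, add_zero]
  · rw [Function.update_of_ne hk]
    exact ht k'

/-- The discriminant does not vanish on a plane. -/
theorem dsc_plane {c : (Fin 2 → Fin 2) → Fin 3 → K} (hS : (sm c).det ≠ 0) {l : Fin 3 → K}
    (hl : l ≠ 0) : ∃ z, l ⬝ᵥ z = 0 ∧ dsc c z ≠ 0 := by
  by_contra hc
  push Not at hc
  have h1 : ∀ w, l ⬝ᵥ w = 0 → ∃ a : K, sm c *ᵥ w = a • l := by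
    intro w hw
    apply par' hl
    by_contra hne
    obtain ⟨z, hz, hz'⟩ := exists_fun (n := l) (r := sm c *ᵥ w) (by
      rw [← cross_anticomm, neg_ne_zero]
      exact hne)
    apply hz'
    rw [sm_dot, hc z hz, hc w hw, hc (z + w) (by rw [dotProduct_add, hz, hw, add_zero])]
    simp
  obtain ⟨w1, hw1, hw1'⟩ := exists_np hl hl
  have hw10 : w1 ≠ 0 := by
    rintro rfl
    apply hw1'
    simp
  obtain ⟨w2, hw2, hw2'⟩ := exists_np hl hw10
  obtain ⟨a1, h1'⟩ := h1 w1 hw1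
  obtain ⟨a2, h2'⟩ := h1 w2 hw2
  have h3 : sm c *ᵥ (a2 • w1 - a1 • w2) = 0 := by
    rw [mulVec_sub, mulVec_smul, mulVec_smul, h1', h2', smul_smul, smul_smul, mul_comm, sub_self]
  have h4 : a2 • w1 - a1 • w2 = 0 := by
    by_contra hne
    exact mul_ne' hS hne h3
  have h5 := congrArg (fun v => w1 ⨯₃ v) h4
  simp only [map_sub, map_smul, cross_self, smul_zero, zero_sub, map_zero, neg_eq_zero] at h5
  have h6 : a1 = 0 := (smul_eq_zero.1 h5).resolve_right hw2'
  rw [h6, zero_smul] at h1'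
  exact mul_ne' hS hw10 h1'

/-- The last two legs. -/
theorem finish {c : (Fin 2 → Fin 2) → Fin 3 → K} (hN : (nbm c).det ≠ 0) {p w : Fin 3 → K}
    (hp : p ≠ 0) (hw : w ≠ 0) (hwp : w ⬝ᵥ p = 0) (hd : dsc c p ≠ 0) :
    ∃ t : Fin 2 → Fin 2 → K, (∀ k, t k ≠ 0) ∧ cov c t ⬝ᵥ p = 0 ∧ w ⨯₃ cov c t ≠ 0 ∧
      ∀ k, leg c t p k ≠ 0 := by
  -- the second leg
  obtain ⟨b, hb, hb'⟩ : ∃ b : Fin 2 → K, b ≠ 0 ∧
      w ⬝ᵥ ((b 0 • c ![0, 0] + b 1 • c ![0, 1]) ⨯₃ (b 0 • c ![1, 0] + b 1 • c ![1, 1])) ≠ 0 := by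
    by_contra hc
    push Not at hc
    have h0 := hc ![1, 0] (fun h => one_ne_zero (congrFun h 0))
    have h1 := hc ![0, 1] (fun h => one_ne_zero (congrFun h 1))
    have h2 := hc ![1, 1] (fun h => one_ne_zero (congrFun h 0))
    simp only [cons_val_zero, cons_val_one, one_smul, zero_smul, add_zero, zero_add] at h0 h1 h2
    have h3 : (nbm c)ᵀ *ᵥ w = 0 := by
      apply ext3
      · rw [mulVec, dotProduct_comm]
        exact h0
      · rw [mulVec, dotProduct_comm]
        change w ⬝ᵥ (c ![0, 0] ⨯₃ c ![1, 1] + c ![0, 1] ⨯₃ c ![1, 0]) = 0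
        simp only [map_add, LinearMap.add_apply, dotProduct_add] at h2 ⊢
        linear_combination h2 - h0 - h1
      · rw [mulVec, dotProduct_comm]
        exact h1
    exact mul_ne' (det_tr hN) hw h3
  set x := b 0 • c ![0, 0] + b 1 • c ![0, 1] with hx
  set y := b 0 • c ![1, 0] + b 1 • c ![1, 1] with hy
  have hcov : cov c ![![y ⬝ᵥ p, -(x ⬝ᵥ p)], b] = p ⨯₃ (x ⨯₃ y) := by
    rw [cov_two, cross_cross']
    simp only [cons_val_zero, cons_val_one]
    rw [← hx, ← hy, dotProduct_comm p y, dotProduct_comm p x, neg_smul, sub_eq_add_neg]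
  have hcr : w ⨯₃ (p ⨯₃ (x ⨯₃ y)) = (w ⬝ᵥ (x ⨯₃ y)) • p := by
    rw [cross_cross', hwp, zero_smul, sub_zero]
  have hne : w ⨯₃ (p ⨯₃ (x ⨯₃ y)) ≠ 0 := by
    rw [hcr]
    exact smul_ne_zero hb' hp
  have hxy : ¬ (y ⬝ᵥ p = 0 ∧ x ⬝ᵥ p = 0) := by
    rintro ⟨h1, h2⟩
    apply hne
    rw [cross_cross' p x y, dotProduct_comm p y, h1, dotProduct_comm p x, h2, zero_smul, zero_smul,
      sub_zero, map_zero]
  refine ⟨![![y ⬝ᵥ p, -(x ⬝ᵥ p)], b], ?_, ?_, ?_, ?_⟩
  · intro k
    have h2 : k = 0 ∨ k = 1 := by omega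
    rcases h2 with rfl | rfl
    · intro h
      have e0 : y ⬝ᵥ p = 0 := congrFun h 0
      have e1 : -(x ⬝ᵥ p) = 0 := congrFun h 1
      exact hxy ⟨e0, neg_eq_zero.1 e1⟩
    · exact hb
  · rw [hcov, dotProduct_comm, dot_self_cross]
  · rw [hcov]
    exact hne
  · intro k
    have h2 : k = 0 ∨ k = 1 := by omega
    rcases h2 with rfl | rfl
    · intro h
      have e0 := congrFun h 0
      have e1 := congrFun h 1
      rw [leg_zero] at e0 e1
      simp only [cons_val_zero, cons_val_one, Pi.zero_apply] at e0 e1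
      apply hxy
      constructor
      · rw [hy, add_dotProduct, smul_dotProduct, smul_dotProduct, smul_eq_mul, smul_eq_mul]
        exact e1
      · rw [hx, add_dotProduct, smul_dotProduct, smul_dotProduct, smul_eq_mul, smul_eq_mul]
        exact e0
    · intro h
      have e0 := congrFun h 0
      have e1 := congrFun h 1
      rw [leg_one] at e0 e1
      simp only [cons_val_zero, cons_val_one, Pi.zero_apply] at e0 e1
      have hy' : y ⬝ᵥ p = b 0 * (c ![1, 0] ⬝ᵥ p) + b 1 * (c ![1, 1] ⬝ᵥ p) := by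
        rw [hy, add_dotProduct, smul_dotProduct, smul_dotProduct, smul_eq_mul, smul_eq_mul]
      have hx' : x ⬝ᵥ p = b 0 * (c ![0, 0] ⬝ᵥ p) + b 1 * (c ![0, 1] ⬝ᵥ p) := by
        rw [hx, add_dotProduct, smul_dotProduct, smul_dotProduct, smul_eq_mul, smul_eq_mul]
      rw [hx', hy'] at e0 e1
      apply hb
      have g1 : b 1 * dsc c p = 0 := by
        unfold dsc
        linear_combination e0
      have g0 : b 0 * dsc c p = 0 := by
        unfold dsc
        linear_combination (-1 : K) * e1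
      funext i
      have h2 : i = 0 ∨ i = 1 := by omega
      rcases h2 with rfl | rfl
      · exact (mul_eq_zero.1 g0).resolve_right hd
      · exact (mul_eq_zero.1 g1).resolve_right hd

/-- The open set is not empty. -/
theorem nonempty_U [Infinite K] (h2 : (2 : K) ≠ 0) {m : ℕ} (X : Eqs K r m 2) (hb : Bpf X.c)
    (hA : ∀ i, (X.A i).det ≠ 0) (hN : (nbm X.c').det ≠ 0) :
    ∃ x : Pt K r m 2, (∀ k, x.t k ≠ 0) ∧ (∀ j, x.p j ≠ 0) ∧ (∀ k, x.t' k ≠ 0) ∧ On X x ∧
      InU X x := by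
  set t : Fin r → Fin 2 → K := fun _ => ![1, 0] with ht
  have ht0 : ∀ k, t k ≠ 0 := fun k h => one_ne_zero (congrFun h 0)
  set u := cov X.c t with hu
  have hu0 : u ≠ 0 := hb t ht0
  set A : ℕ → Matrix (Fin 3) (Fin 3) K := fun i => if h : i < m then X.A ⟨i, h⟩ else 1 with hAd
  have hA' : ∀ i, (A i).det ≠ 0 := by
    intro i
    rw [hAd]
    simp only
    split_ifs with h
    · exact hA _
    · rw [det_one]
      exact one_ne_zero
  have hAi : ∀ i : Fin m, A i.val = X.A i := fun i => dif_pos i.2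
  have hS : (sm X.c').det ≠ 0 := by
    rw [sm_det]
    exact mul_ne_zero h2 hN
  obtain ⟨p, g1, g2, g3, g4⟩ := exists_path hA' hu0
    (G0 := fun z => ∀ k ∈ Finset.univ, leg X.c t z k ≠ 0)
    (Opn.all fun k => opn_lin (legL X.c t k))
    (avoid_all (fun k => opn_lin (legL X.c t k)) (leg_exists hb ht0) Finset.univ) m
    (G := fun z => dsc X.c' z ≠ 0) (opn_quad _ _ _ _) (fun l hl => dsc_plane hS hl)
  have hw : lf u A p m ≠ 0 := by
    unfold lf
    split_ifs with h
    · exact hu0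
    · exact mul_ne' (det_tr (hA' _)) (g1 _ (by omega)).1
  obtain ⟨t', f1, f2, f3, f4⟩ := finish hN (g1 m le_rfl).1 hw (g1 m le_rfl).2 g4
  set x : Pt K r m 2 := ⟨t, fun j => p j.val, t'⟩ with hx
  have hl : ∀ j, lcov X x j = lf u A p j.val := by
    intro j
    cases j using Fin.cases with
    | zero => rfl
    | succ j =>
      rw [lcov_succ]
      unfold lf
      rw [if_neg (by simp), Fin.val_succ, Nat.add_sub_cancel, hAi]
      rfl
  refine ⟨x, ht0, fun j => (g1 j.val (by omega)).1, f1, ?_, ?_, ?_, ?_⟩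
  · intro j
    refine ⟨?_, ?_⟩
    · rw [hl]
      exact (g1 j.val (by omega)).2
    · cases j using Fin.lastCases with
      | last =>
        rw [rcov_last]
        exact f2
      | cast j =>
        rw [rcov_castSucc]
        have h3 := (g1 (j.val + 1) (by omega)).2
        unfold lf at h3
        rw [if_neg (by omega), Nat.add_sub_cancel, hAi, tr_dot', dotProduct_comm] at h3
        exact h3
  · intro j
    rw [hl]
    cases j using Fin.lastCases with
    | last =>
      rw [rcov_last]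
      exact f3
    | cast j =>
      rw [rcov_castSucc]
      have h3 := g3 j.val j.2
      rw [hAi] at h3
      exact h3
  · intro k
    exact g2 k (Finset.mem_univ k)
  · exact f4

end Field

end Pool.Agent.K1H88.CH
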