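import Pool.Agent.K1H88.CH.Sing

/-! Existence of points of the open set: one or two legs on the right. -/

namespace Pool.Agent.K1H88.CH

open Matrix Pool.Agent.K1H88.PG

section Chain

variable {K : Type} [Field K]

/-- Nondegenerate chains. -/
def PathTo (u : Fin 3 → K) (A : ℕ → Matrix (Fin 3) (Fin 3) K) (G0 : (Fin 3 → K) → Prop) (m : ℕ)
    (p : ℕ → Fin 3 → K) : Prop :=
  (∀ j, j ≤ m → p j ≠ 0 ∧ lf u A p j ⬝ᵥ p j = 0) ∧ G0 (p 0) ∧
    ∀ j, j < m → lf u A p j ⨯₃ (A j *ᵥ p (j + 1)) ≠ 0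

theorem lf_ne {A : ℕ → Matrix (Fin 3) (Fin 3) K} (hA : ∀ i, (A i).det ≠ 0) {u : Fin 3 → K}
    (hu : u ≠ 0) {G0 : (Fin 3 → K) → Prop} {m : ℕ} {p : ℕ → Fin 3 → K} (h : PathTo u A G0 m p)
    {j : ℕ} (hj : j ≤ m + 1) : lf u A p j ≠ 0 := by
  unfold lf
  split_ifs with h'
  · exact hu
  · exact mul_ne' (det_tr (hA _)) (h.1 _ (by omega)).1

theorem PathTo.step [Infinite K] {A : ℕ → Matrix (Fin 3) (Fin 3) K} (hA : ∀ i, (A i).det ≠ 0)
    {u : Fin 3 → K} (hu : u ≠ 0) {G0 : (Fin 3 → K) → Prop} {m : ℕ} {p : ℕ → Fin 3 → K}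
    (h : PathTo u A G0 m p) {G : (Fin 3 → K) → Prop} (hG : Opn G)
    (hG' : ∃ z, lf u A p (m + 1) ⬝ᵥ z = 0 ∧ G z) :
    ∃ p', PathTo u A G0 (m + 1) p' ∧ G (p' (m + 1)) ∧ ∀ j, j ≤ m → p' j = p j := by
  have hl := lf_ne hA hu h (j := m + 1) le_rfl
  have hlm := lf_ne hA hu h (j := m) (by omega)
  have hc : Opn fun z => cm (lf u A p m) (A m) z ≠ 0 := opn_lin _
  have hc' : ∃ z, lf u A p (m + 1) ⬝ᵥ z = 0 ∧ cm (lf u A p m) (A m) z ≠ 0 := by
    obtain ⟨z, hz, hz'⟩ := exists_np hl (adj_ne (hA m) hlm)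
    exact ⟨z, hz, cross_mul_ne (hA m) hz'⟩
  obtain ⟨z, hz, hz1, hz2⟩ := avoid2 hc hG hc' hG'
  obtain ⟨h1, h2, h3⟩ := h
  have hz3 : z ≠ 0 := by
    rintro rfl
    apply hz1
    rw [map_zero]
  have e : ∀ j, j ≤ m → Function.update p (m + 1) z j = p j := fun j hj =>
    Function.update_of_ne (by omega) _ _
  have el : ∀ j, j ≤ m + 1 → lf u A (Function.update p (m + 1) z) j = lf u A p j := by
    intro j hj
    unfold lf
    split_ifs with h
    · rfl
    · rw [e _ (by omega)]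
  refine ⟨Function.update p (m + 1) z, ⟨?_, ?_, ?_⟩, ?_, e⟩
  · intro j hj
    rw [el j hj]
    by_cases hjm : j = m + 1
    · rw [hjm, Function.update_self]
      exact ⟨hz3, hz⟩
    · rw [e j (by omega)]
      exact h1 j (by omega)
  · rw [e 0 (by omega)]
    exact h2
  · intro j hj
    rw [el j (by omega)]
    by_cases hjm : j = m
    · rw [hjm, Function.update_self]
      exact hz1
    · rw [e (j + 1) (by omega)]
      exact h3 j (by omega)
  · rw [Function.update_self]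
    exact hz2

theorem opn_ne : Opn fun z : Fin 3 → K => z ≠ 0 := opn_lin (LinearMap.id : (Fin 3 → K) →ₗ[K] _)

theorem ex_ne {l : Fin 3 → K} : ∃ z, l ⬝ᵥ z = 0 ∧ z ≠ 0 := by
  obtain ⟨z, hz, hz'⟩ := exists_orth l
  exact ⟨z, hz', hz⟩

theorem PathTo.more [Infinite K] {A : ℕ → Matrix (Fin 3) (Fin 3) K} (hA : ∀ i, (A i).det ≠ 0)
    {u : Fin 3 → K} (hu : u ≠ 0) {G0 : (Fin 3 → K) → Prop} {m : ℕ} {p : ℕ → Fin 3 → K}
    (h : PathTo u A G0 m p) : ∃ p', PathTo u A G0 (m + 1) p' ∧ ∀ j, j ≤ m → p' j = p j := by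
  obtain ⟨p', h1, -, h2⟩ := h.step hA hu opn_ne ex_ne
  exact ⟨p', h1, h2⟩

/-- Nonvanishing of a linear form. -/
theorem opn_dot (v : Fin 3 → K) : Opn fun z => v ⬝ᵥ z ≠ 0 := by
  have h := opn_lin (K := K) (dotProductBilin K K v)
  exact h

theorem cm_tr_exists {A : Matrix (Fin 3) (Fin 3) K} (hA : A.det ≠ 0) {v l : Fin 3 → K}
    (hv : v ≠ 0) (hl : l ≠ 0) : ∃ z, l ⬝ᵥ z = 0 ∧ cm v Aᵀ z ≠ 0 := by
  obtain ⟨z, hz, hz'⟩ := exists_np hl (adj_ne (det_tr hA) hv)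
  exact ⟨z, hz, cross_mul_ne (det_tr hA) hz'⟩

/-- The last leg. -/
theorem finish1 {c : (Fin 1 → Fin 2) → Fin 3 → K} {p w : Fin 3 → K} (hp : p ≠ 0)
    (hwp : w ⬝ᵥ p = 0) (hq : w ⬝ᵥ (c (fun _ => 0) ⨯₃ c fun _ => 1) ≠ 0) :
    ∃ t : Fin 1 → Fin 2 → K, (∀ k, t k ≠ 0) ∧ cov c t ⬝ᵥ p = 0 ∧ w ⨯₃ cov c t ≠ 0 ∧
      ∀ k, leg c t p k ≠ 0 := by
  set x := c fun _ => 0 with hx
  set y := c fun _ => 1 with hy
  have hcov : cov c (fun _ => ![y ⬝ᵥ p, -(x ⬝ᵥ p)]) = p ⨯₃ (x ⨯₃ y) := by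
    rw [cov_one, cross_cross']
    simp only [cons_val_zero, cons_val_one]
    rw [← hx, ← hy, dotProduct_comm p y, dotProduct_comm p x, neg_smul, sub_eq_add_neg]
  have hcr : w ⨯₃ (p ⨯₃ (x ⨯₃ y)) = (w ⬝ᵥ (x ⨯₃ y)) • p := by
    rw [cross_cross', hwp, zero_smul, sub_zero]
  have hne : w ⨯₃ (p ⨯₃ (x ⨯₃ y)) ≠ 0 := by
    rw [hcr]
    exact smul_ne_zero hq hp
  have hxy : ¬ (y ⬝ᵥ p = 0 ∧ x ⬝ᵥ p = 0) := by
    rintro ⟨h1, h2⟩
    apply hne
    rw [cross_cross' p x y, dotProduct_comm p y, h1, dotProduct_comm p x, h2, zero_smul, zero_smul,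
      sub_zero, map_zero]
  refine ⟨fun _ => ![y ⬝ᵥ p, -(x ⬝ᵥ p)], ?_, ?_, ?_, ?_⟩
  · intro k h
    have e0 : y ⬝ᵥ p = 0 := congrFun h 0
    have e1 : -(x ⬝ᵥ p) = 0 := congrFun h 1
    exact hxy ⟨e0, neg_eq_zero.1 e1⟩
  · rw [hcov, dotProduct_comm, dot_self_cross]
  · rw [hcov]
    exact hne
  · intro k h
    obtain rfl : k = 0 := by omega
    have e0 := congrFun h 0
    have e1 := congrFun h 1
    unfold leg at e0 e1
    rw [cov_one, Function.update_self] at e0 e1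
    simp only [Pi.single_eq_same, one_smul, ne_eq, zero_ne_one, not_false_eq_true, one_ne_zero,
      Pi.single_eq_of_ne, zero_smul, zero_add, add_zero, Pi.zero_apply] at e0 e1
    exact hxy ⟨e1, e0⟩

variable {r m r' : ℕ}

/-- The covectors of the legs are not all proportional. -/
theorem exists_leg_np {c : (Fin r → Fin 2) → Fin 3 → K} (hb : Bpf c) (hr : 1 ≤ r)
    {v : Fin 3 → K} (hv : v ≠ 0) : ∃ t : Fin r → Fin 2 → K, (∀ k, t k ≠ 0) ∧ v ⨯₃ cov c t ≠ 0 := by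
  set t : Fin r → Fin 2 → K := fun _ => ![1, 0] with ht
  have ht0 : ∀ k, t k ≠ 0 := fun k h => one_ne_zero (congrFun h 0)
  by_cases h : v ⨯₃ cov c t = 0
  · obtain ⟨l, hl⟩ := par' hv h
    have hl0 : l ≠ 0 := by
      rintro rfl
      rw [zero_smul] at hl
      exact hb t ht0 hl
    obtain ⟨z, hz, hz'⟩ := leg_exists hb ht0 ⟨0, hr⟩
    obtain ⟨i, hi⟩ : ∃ i, leg c t z ⟨0, hr⟩ i ≠ 0 := by
      by_contra hc
      push Not at hc
      exact hz' (funext hc)
    refine ⟨Function.update t ⟨0, hr⟩ (Pi.single i 1), ?_, ?_⟩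
    · intro k
      by_cases hk : k = ⟨0, hr⟩
      · rw [hk, Function.update_self]
        intro h0
        have := congrFun h0 i
        simp at this
      · rw [Function.update_of_ne hk]
        exact ht0 k
    · intro h1
      obtain ⟨l', hl'⟩ := par' hv h1
      apply hi
      have h2 : v ⬝ᵥ z = 0 := by
        rw [hl, smul_dotProduct, smul_eq_mul] at hz
        exact (mul_eq_zero.1 hz).resolve_left hl0
      unfold leg
      rw [hl', smul_dotProduct, h2, smul_zero]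
  · exact ⟨t, ht0, h⟩

/-- The matrices as a sequence. -/
def extA (A : Fin m → Matrix (Fin 3) (Fin 3) K) : ℕ → Matrix (Fin 3) (Fin 3) K := fun i =>
  if h : i < m then A ⟨i, h⟩ else 1

theorem extA_det {A : Fin m → Matrix (Fin 3) (Fin 3) K} (hA : ∀ i, (A i).det ≠ 0) (i : ℕ) :
    (extA A i).det ≠ 0 := by
  unfold extA
  split_ifs with h
  · exact hA _
  · rw [det_one]
    exact one_ne_zero

theorem extA_val (A : Fin m → Matrix (Fin 3) (Fin 3) K) (i : Fin m) : extA A i.val = A i :=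
  dif_pos i.2

/-- A point from a chain and its legs. -/
theorem assemble (X : Eqs K r m r') {t : Fin r → Fin 2 → K} (ht0 : ∀ k, t k ≠ 0)
    {p : ℕ → Fin 3 → K}
    (hP : PathTo (cov X.c t) (extA X.A) (fun z => ∀ k ∈ Finset.univ, leg X.c t z k ≠ 0) m p)
    {t' : Fin r' → Fin 2 → K} (f1 : ∀ k, t' k ≠ 0) (f2 : cov X.c' t' ⬝ᵥ p m = 0)
    (f3 : lf (cov X.c t) (extA X.A) p m ⨯₃ cov X.c' t' ≠ 0) (f4 : ∀ k, leg X.c' t' (p m) k ≠ 0) :
    ∃ x : Pt K r m r', (∀ k, x.t k ≠ 0) ∧ (∀ j, x.p j ≠ 0) ∧ (∀ k, x.t' k ≠ 0) ∧ On X x ∧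
      InU X x := by
  obtain ⟨g1, g2, g3⟩ := hP
  set x : Pt K r m r' := ⟨t, fun j => p j.val, t'⟩ with hx
  have hl : ∀ j, lcov X x j = lf (cov X.c t) (extA X.A) p j.val := by
    intro j
    cases j using Fin.cases with
    | zero => rfl
    | succ j =>
      rw [lcov_succ]
      unfold lf
      rw [if_neg (by simp), Fin.val_succ, Nat.add_sub_cancel, extA_val]
      rfl
  refine ⟨x, ht0, fun j => (g1 j.val (by omega)).1, f1, ?_, ?_, ?_, ?_⟩
  · intro j
    refine ⟨?_, ?_⟩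
    · rw [hl]
      exact (g1 j.val (by omega)).2
    · cases j using Fin.lastCases with
      | last =>
        rw [rcov_last]
        exact f2
      | cast j =>
        rw [rcov_castSucc]
        have h3 := (g1 (j.val + 1) (by omega)).2
        unfold lf at h3
        rw [if_neg (by omega), Nat.add_sub_cancel, extA_val, tr_dot', dotProduct_comm] at h3
        exact h3
  · intro j
    rw [hl]
    cases j using Fin.lastCases with
    | last =>
      rw [rcov_last]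
      exact f3
    | cast j =>
      rw [rcov_castSucc]
      have h3 := g3 j.val j.2
      rw [extA_val] at h3
      exact h3
  · intro k
    exact g2 k (Finset.mem_univ k)
  · exact f4

/-- Chains which can be completed by one leg. -/
theorem path1 [Infinite K] {c : (Fin r → Fin 2) → Fin 3 → K} (hb : Bpf c) (hr : 1 ≤ r)
    {A : ℕ → Matrix (Fin 3) (Fin 3) K} (hA : ∀ i, (A i).det ≠ 0) {q : Fin 3 → K} (hq : q ≠ 0)
    (m : ℕ) (h0 : m = 0 → ∃ t : Fin r → Fin 2 → K, (∀ k, t k ≠ 0) ∧ cov c t ⬝ᵥ q ≠ 0) :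
    ∃ (t : Fin r → Fin 2 → K) (p : ℕ → Fin 3 → K), (∀ k, t k ≠ 0) ∧
      PathTo (cov c t) A (fun z => ∀ k ∈ Finset.univ, leg c t z k ≠ 0) m p ∧
      lf (cov c t) A p m ⬝ᵥ q ≠ 0 := by
  have hG0 : ∀ t : Fin r → Fin 2 → K, Opn fun z => ∀ k ∈ Finset.univ, leg c t z k ≠ 0 :=
    fun t => Opn.all fun k => opn_lin (legL c t k)
  have hG0' : ∀ t : Fin r → Fin 2 → K, (∀ k, t k ≠ 0) →
      ∃ z, cov c t ⬝ᵥ z = 0 ∧ ∀ k ∈ Finset.univ, leg c t z k ≠ 0 := fun t ht =>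
    avoid_all (fun k => opn_lin (legL c t k)) (leg_exists hb ht) Finset.univ
  rcases m with _ | _ | k
  · obtain ⟨t, ht, hq'⟩ := h0 rfl
    obtain ⟨z, hz, hz1, hz2⟩ := avoid2 (hG0 t) opn_ne (hG0' t ht) ex_ne
    refine ⟨t, fun _ => z, ht, ⟨?_, hz1, fun j hj => by omega⟩, hq'⟩
    intro j hj
    obtain rfl : j = 0 := by omega
    exact ⟨hz2, hz⟩
  · have hv : A 0 *ᵥ q ≠ 0 := mul_ne' (hA 0) hq
    obtain ⟨t, ht, hnp⟩ := exists_leg_np hb hr hv
    obtain ⟨z, hz, hz1, hz2⟩ := avoid2 (hG0 t) (opn_dot (A 0 *ᵥ q)) (hG0' t ht) (exists_fun hnp)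
    have hz3 : z ≠ 0 := by
      rintro rfl
      apply hz2
      rw [dotProduct_zero]
    have hP : PathTo (cov c t) A (fun z => ∀ k ∈ Finset.univ, leg c t z k ≠ 0) 0 fun _ => z := by
      refine ⟨?_, hz1, fun j hj => by omega⟩
      intro j hj
      obtain rfl : j = 0 := by omega
      exact ⟨hz3, hz⟩
    obtain ⟨p, hp, hp'⟩ := hP.more hA (hb t ht)
    refine ⟨t, p, ht, hp, ?_⟩
    unfold lf
    rw [if_neg (by omega), tr_dot', dotProduct_comm]
    have e1 : p (0 + 1 - 1) = z := hp' 0 le_rfl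
    rw [e1]
    exact hz2
  · have hv : A (k + 1) *ᵥ q ≠ 0 := mul_ne' (hA _) hq
    set v := A (k + 1) *ᵥ q with hvd
    set t : Fin r → Fin 2 → K := fun _ => ![1, 0] with ht
    have ht0 : ∀ k, t k ≠ 0 := fun k h => one_ne_zero (congrFun h 0)
    have hu := hb t ht0
    obtain ⟨p, g1, g2, g3, g4⟩ := exists_path hA hu (hG0 t) (hG0' t ht0) k
      (G := fun z => cm v (A k)ᵀ z ≠ 0) (opn_lin _) (fun l hl => cm_tr_exists (hA k) hv hl)
    have hP : PathTo (cov c t) A (fun z => ∀ k ∈ Finset.univ, leg c t z k ≠ 0) k p := ⟨g1, g2, g3⟩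
    have hl : lf (cov c t) A p (k + 1) = (A k)ᵀ *ᵥ p k := by
      unfold lf
      rw [if_neg (by omega), Nat.add_sub_cancel]
    obtain ⟨p1, h1, h2, h3⟩ := hP.step hA hu (opn_dot v) (by
      rw [hl]
      exact exists_fun g4)
    obtain ⟨p2, h4, h5⟩ := h1.more hA hu
    refine ⟨t, p2, ht0, h4, ?_⟩
    unfold lf
    rw [if_neg (by omega), tr_dot', dotProduct_comm]
    have e1 : k + 1 + 1 - 1 = k + 1 := by omega
    rw [e1, h5 (k + 1) le_rfl]
    exact h2

end Chain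

variable {r m r' : ℕ}

/-- One leg: the covectors of the two points of the leg are linearly independent. -/
theorem Bpf.one {K : Type} [Field K] {c : (Fin 1 → Fin 2) → Fin 3 → K} (hb : Bpf c) :
    c (fun _ => 0) ⨯₃ c (fun _ => 1) ≠ 0 := by
  intro h
  by_cases h0 : c (fun _ => 0) = 0
  · refine hb (fun _ => ![1, 0]) (fun k h => one_ne_zero (congrFun h 0)) ?_
    rw [cov_one]
    simp [h0]
  · obtain ⟨μ, hμ⟩ := par' h0 h
    refine hb (fun _ => ![-μ, 1]) (fun k h => one_ne_zero (congrFun h 1)) ?_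
    rw [cov_one, hμ]
    simp

theorem span2 {K : Type} [Field K] {x y u : Fin 3 → K} (h : x ⨯₃ y ≠ 0)
    (hu : u ⬝ᵥ (x ⨯₃ y) = 0) : ∃ a b : K, a • x + b • y = u := by
  obtain ⟨k, hk⟩ : ∃ k, (x ⨯₃ y) k ≠ 0 := by
    by_contra hcc
    push Not at hcc
    exact h (funext hcc)
  refine ⟨(u ⨯₃ y) k / (x ⨯₃ y) k, (x ⨯₃ u) k / (x ⨯₃ y) k, ?_⟩
  have key : ∀ i, (u ⨯₃ y) k * x i + (x ⨯₃ u) k * y i = (x ⨯₃ y) k * u i := by
    rw [dot3, PG.c0, PG.c1, PG.c2] at hu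
    have hk3 : k = 0 ∨ k = 1 ∨ k = 2 := by omega
    intro i
    have hi3 : i = 0 ∨ i = 1 ∨ i = 2 := by omega
    rcases hk3 with rfl | rfl | rfl <;> rcases hi3 with rfl | rfl | rfl <;>
      simp only [PG.c0, PG.c1, PG.c2] <;>
      first
        | ring1
        | linear_combination (-1 : K) * hu
        | linear_combination hu
  funext i
  rw [Pi.add_apply, Pi.smul_apply, Pi.smul_apply, smul_eq_mul, smul_eq_mul]
  field_simp
  linear_combination key i

/-- For one vertex and one leg on the right. -/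
theorem Smooth.base {X : Eqs ℂ r 0 1} (hs : Smooth X) (hb : Bpf X.c) (hb' : Bpf X.c') :
    ∃ t : Fin r → Fin 2 → ℂ, (∀ k, t k ≠ 0) ∧
      cov X.c t ⬝ᵥ (X.c' (fun _ => 0) ⨯₃ X.c' fun _ => 1) ≠ 0 := by
  by_contra hc
  push Not at hc
  have hq := hb'.one
  set t : Fin r → Fin 2 → ℂ := fun _ => ![1, 0] with ht
  have ht0 : ∀ k, t k ≠ 0 := fun k h => one_ne_zero (congrFun h 0)
  have hu := hc t ht0
  obtain ⟨a, b, hab⟩ := span2 hq hu
  have hcov : cov X.c' (fun _ => ![a, b]) = cov X.c t := by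
    rw [cov_one, ← hab]
    rfl
  have ht' : ∀ k : Fin 1, (fun _ => ![a, b] : Fin 1 → Fin 2 → ℂ) k ≠ 0 := by
    intro k h
    have ea : a = 0 := congrFun h 0
    have eb : b = 0 := congrFun h 1
    rw [ea, eb, zero_smul, zero_smul, add_zero] at hab
    exact hb t ht0 hab.symm
  have h := hs ⟨t, fun _ => X.c' (fun _ => 0) ⨯₃ X.c' fun _ => 1, fun _ => ![a, b]⟩ ht0
    (fun _ => hq) ht' (on_of hu (fun i => i.elim0) (by
      simp only
      rw [hcov]
      exact hu)) ![1, -1] ?_ ?_ ?_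
  · exact one_ne_zero (congrFun h 0)
  · intro k
    have : leg X.c t (X.c' (fun _ => 0) ⨯₃ X.c' fun _ => 1) k = 0 := by
      funext v
      unfold leg
      apply hc
      intro k'
      by_cases hk : k' = k
      · rw [hk, Function.update_self]
        intro h0
        have := congrFun h0 v
        simp at this
      · rw [Function.update_of_ne hk]
        exact ht0 k'
    simp only
    rw [this, smul_zero]
  · intro j
    obtain rfl : j = 0 := by omega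
    rw [lcov_zero]
    have h4 : rcov X ⟨t, fun _ => X.c' (fun _ => 0) ⨯₃ X.c' fun _ => 1, fun _ => ![a, b]⟩ 0 =
        cov X.c' (fun _ => ![a, b]) := rcov_last X _
    rw [h4, hcov]
    change (1 : ℂ) • cov X.c t + (-1 : ℂ) • cov X.c t = 0
    simp
  · intro k
    have : leg X.c' (fun _ => ![a, b]) (X.c' (fun _ => 0) ⨯₃ X.c' fun _ => 1) k = 0 := by
      obtain rfl : k = 0 := by omega
      funext v
      have h2 : v = 0 ∨ v = 1 := by omega
      unfold leg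
      rw [cov_one, Function.update_self]
      rcases h2 with rfl | rfl
      · simp only [Pi.single_eq_same, one_smul, ne_eq, zero_ne_one, not_false_eq_true, one_ne_zero,
          Pi.single_eq_of_ne, zero_smul, zero_add, add_zero, Pi.zero_apply]
        exact dot_self_cross _ _
      · simp only [Pi.single_eq_same, one_smul, ne_eq, zero_ne_one, not_false_eq_true, one_ne_zero,
          Pi.single_eq_of_ne, zero_smul, zero_add, add_zero, Pi.zero_apply]
        exact dot_cross_self _ _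
    simp only
    rw [this, smul_zero]

/-- The open set is not empty. -/
theorem Smooth.nonempty {X : Eqs ℂ r m r'} (hs : Smooth X) (hr : r = 1 ∨ r = 2)
    (hr' : r' = 1 ∨ r' = 2) : ∃ x : Pt ℂ r m r', (∀ k, x.t k ≠ 0) ∧ (∀ j, x.p j ≠ 0) ∧
      (∀ k, x.t' k ≠ 0) ∧ On X x ∧ InU X x := by
  have hb := hs.left (by omega) (by omega)
  have hb' := hs.right (by omega) (by omega)
  have hA := hs.det (by omega) (by omega)
  rcases hr' with rfl | rfl
  · have hq := hb'.one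
    obtain ⟨t, p, ht, hP, hlf⟩ := path1 hb (by omega) (extA_det hA) hq m (by
      rintro rfl
      exact hs.base hb hb')
    have h1 := hP.1 m le_rfl
    obtain ⟨t', f1, f2, f3, f4⟩ := finish1 h1.1 h1.2 hlf
    exact assemble X ht hP f1 f2 f3 f4
  · exact nonempty_U two_ne_zero X hb hA hb'.det

end Pool.Agent.K1H88.CH
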