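import Pool.Agent.K1H88.CH.Exist3
import Pool.Agent.K1H88.CH.Count

/-! The passage between integer and complex coefficients. -/

namespace Pool.Agent.K1H88.CH

open Matrix Pool.Agent.K1H88.PG

variable {r m r' : ℕ}

/-- The same equations over the complex numbers. -/
def Eqs.toC (X : Eqs ℤ r m r') : Eqs ℂ r m r' where
  c := fun f i => X.c f i
  A := fun i => (X.A i).map (Int.castRingHom ℂ)
  c' := fun f i => X.c' f i

theorem cross_cast (a b : V) : (fun i => ((a ⨯₃ b) i : ℂ)) =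
    (fun i => (a i : ℂ)) ⨯₃ fun i => (b i : ℂ) := by
  apply ext3
  · rw [PG.c0, PG.c0]
    push_cast
    rfl
  · rw [PG.c1, PG.c1]
    push_cast
    rfl
  · rw [PG.c2, PG.c2]
    push_cast
    rfl

theorem nbm_cast (c : (Fin 2 → Fin 2) → V) :
    nbm (fun f i => (c f i : ℂ)) = (nbm c).map (Int.castRingHom ℂ) := by
  ext i k
  rw [map_apply]
  have hi : i = 0 ∨ i = 1 ∨ i = 2 := by omega
  have hk : k = 0 ∨ k = 1 ∨ k = 2 := by omega
  rcases hi with rfl | rfl | rfl <;> rcases hk with rfl | rfl | rfl <;>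
    simp [nbm, PG.c0, PG.c1, PG.c2]

theorem Nb_sw (c : T4) : (Nb (sw c)).det = (Nb c).det := by
  rw [det_fin_three, det_fin_three]
  simp only [Nb, Nm, sw, of_apply, cons_val_zero, cons_val_one, cons_val, PG.c0, PG.c1, PG.c2,
    Pi.add_apply]
  ring

theorem hasEnd_of {c : (Fin r → Fin 2) → V} (hr : r = 1 ∨ r = 2)
    (hb : Bpf fun f i => (c f i : ℂ)) : HasEnd c := by
  rcases hr with rfl | rfl
  · apply hasEnd1
    intro h
    apply hb.one
    rw [← cross_cast, h]
    funext i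
    simp
  · have h1 : (nbm c).det ≠ 0 := by
      intro h
      apply hb.det
      rw [nbm_cast, ← RingHom.mapMatrix_apply, ← RingHom.map_det, h, map_zero]
    have h2 : (Nb fun i j => c ![i, j]).det ≠ 0 := h1
    exact hasEnd2 h2 (by rw [Nb_sw]; exact h2)

theorem nb_symm (i j : Idx r m r') (h : nb i j) : nb j i := by
  rcases i with i | i | i <;> rcases j with j | j | j <;> simp only [nb] at h ⊢
  · exact Ne.symm h
  · exact h
  · exact h
  · omega
  · exact h
  · exact h
  · exact Ne.symm h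

theorem nb_claw (j i1 i2 i3 : Idx r m r') (h1 : nb j i1) (h2 : nb j i2) (h3 : nb j i3)
    (n12 : i1 ≠ i2) (n13 : i1 ≠ i3) (n23 : i2 ≠ i3) : nb i1 i2 ∨ nb i1 i3 ∨ nb i2 i3 := by
  rcases j with j | j | j <;> rcases i1 with i1 | i1 | i1 <;> rcases i2 with i2 | i2 | i2 <;>
    rcases i3 with i3 | i3 | i3 <;>
    simp only [nb, ne_eq, Sum.inl.injEq, Sum.inr.injEq, Fin.ext_iff, Fin.val_zero,
      Fin.val_last] at h1 h2 h3 n12 n13 n23 ⊢ <;>
    omega

end Pool.Agent.K1H88.CH
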