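import Pool.Agent.K1H88.PG.Sum

/-! From boxes to heights, for a graph of coordinates. -/

namespace Pool.Agent.K1H88.CH

open Pool.Agent.K1H88.PG (Bd)

variable {ι : Type} [Fintype ι]

/-- For a graph with the set of vertices `ι` and the relation `nb` (`nb i j`: the vertices `i` and
`j` are joined by an edge): the cone generated by the basis vectors `e k` and the vectors
`N j - e j`, where `N j` is the sum of the `e k` with `nb j k`. -/
def Eff (nb : ι → ι → Prop) [DecidableRel nb] (y : ι → ℝ) : Prop :=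
  ∃ a b : ι → ℝ, (∀ j, 0 ≤ a j) ∧ (∀ j, 0 ≤ b j) ∧
    ∀ k, y k = b k + (∑ j with nb j k, a j - a k)

/-- The class is in the interior of the cone. -/
def Big (nb : ι → ι → Prop) [DecidableRel nb] (l : ι → ℝ) : Prop :=
  ∃ η : ℝ, 0 < η ∧ Eff nb fun j => l j - η

/-- The infimum of all `t` such that `t L + K` is in the cone, where `K = (-1, …, -1)`. -/
noncomputable def fuj (nb : ι → ι → Prop) [DecidableRel nb] (l : ι → ℝ) : ℝ :=
  sInf {t : ℝ | Eff nb fun j => t * l j - 1}

variable {nb : ι → ι → Prop} [DecidableRel nb]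

theorem Eff.pair {y : ι → ℝ} (h : Eff nb y) {i j : ι} (h1 : nb i j) (h2 : nb j i) :
    0 ≤ y i + y j := by
  obtain ⟨a, b, ha, hb, hy⟩ := h
  rw [hy, hy]
  have g1 : a j ≤ ∑ k with nb k i, a k :=
    Finset.single_le_sum (f := a) (fun k _ => ha k) (Finset.mem_filter.2 ⟨Finset.mem_univ _, h2⟩)
  have g2 : a i ≤ ∑ k with nb k j, a k :=
    Finset.single_le_sum (f := a) (fun k _ => ha k) (Finset.mem_filter.2 ⟨Finset.mem_univ _, h1⟩)
  have h3 := hb i
  have h4 := hb j
  linarith

/-- The pairing with the logarithms of the heights. -/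
theorem Eff.dot {y : ι → ℝ} (h : Eff nb y) : ∃ K : ℝ, 0 ≤ K ∧ ∀ (c : ℝ) (v : ι → ℝ), 0 ≤ c →
    (∀ i, 0 ≤ v i) → (∀ i, v i ≤ c + ∑ k with nb i k, v k) → -(K * c) ≤ ∑ j, y j * v j := by
  obtain ⟨a, b, ha, hb, hy⟩ := h
  refine ⟨∑ j, a j, Finset.sum_nonneg fun j _ => ha j, ?_⟩
  intro c v hc hv hv'
  have s1 : ∑ k, (∑ j with nb j k, a j) * v k = ∑ j, a j * ∑ k with nb j k, v k := by
    simp_rw [Finset.sum_filter, Finset.sum_mul, Finset.mul_sum]
    rw [Finset.sum_comm]
    apply Finset.sum_congr rfl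
    intro j _
    apply Finset.sum_congr rfl
    intro k _
    split_ifs <;> simp
  have e : ∑ j, y j * v j = ∑ j, b j * v j + ∑ j, a j * (∑ k with nb j k, v k - v j) := by
    calc ∑ j, y j * v j = ∑ k, (b k * v k + ((∑ j with nb j k, a j) * v k - a k * v k)) := by
          apply Finset.sum_congr rfl
          intro j _
          rw [hy]
          ring
      _ = ∑ j, b j * v j + (∑ j, a j * ∑ k with nb j k, v k - ∑ j, a j * v j) := by
          rw [Finset.sum_add_distrib, Finset.sum_sub_distrib, s1]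
      _ = _ := by
          rw [← Finset.sum_sub_distrib]
          congr 1
          apply Finset.sum_congr rfl
          intro j _
          ring
  have h1 : 0 ≤ ∑ j, b j * v j := Finset.sum_nonneg fun j _ => mul_nonneg (hb j) (hv j)
  have h2 : ∑ j, a j * (-c) ≤ ∑ j, a j * (∑ k with nb j k, v k - v j) := by
    apply Finset.sum_le_sum
    intro j _
    apply mul_le_mul_of_nonneg_left _ (ha j)
    have := hv' j
    linarith
  rw [← Finset.sum_mul] at h2
  rw [e]
  linarith

theorem eff_mono {y z : ι → ℝ} (h : Eff nb y) (hyz : ∀ i, y i ≤ z i) : Eff nb z := by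
  obtain ⟨a, b, ha, hb, hy⟩ := h
  refine ⟨a, fun j => b j + (z j - y j), ha, fun j => ?_, fun j => ?_⟩
  · have := hb j
    have := hyz j
    linarith
  · have := hy j
    linarith

theorem Eff.smul {y : ι → ℝ} (h : Eff nb y) {c : ℝ} (hc : 0 ≤ c) : Eff nb fun j => c * y j := by
  obtain ⟨a, b, ha, hb, hy⟩ := h
  refine ⟨fun j => c * a j, fun j => c * b j, fun j => mul_nonneg hc (ha j),
    fun j => mul_nonneg hc (hb j), fun j => ?_⟩
  simp only
  rw [hy, ← Finset.mul_sum]
  ring

theorem fuj_set {l : ι → ℝ} (hl : Big nb l) : {t : ℝ | Eff nb fun j => t * l j - 1}.Nonempty := by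
  obtain ⟨η, hη, h⟩ := hl
  refine ⟨1 / η, ?_⟩
  apply eff_mono (h.smul (c := 1 / η) (by positivity))
  intro i
  have : 1 / η * (l i - η) = 1 / η * l i - 1 := by
    field_simp
  exact this.le

/-- The number of points of bounded height. -/
theorem upper {α : Type} (U : Set α) (h : α → ι → ℕ) (hpos : ∀ x ∈ U, ∀ i, 1 ≤ h x i)
    (κ : ℝ) (hκ1 : 1 ≤ κ)
    (hmid : ∀ x ∈ U, ∀ i, (h x i : ℝ) ≤ κ * ∏ k with nb i k, (h x k : ℝ))
    (hbox : ∀ ε : ℝ, 0 < ε → ∃ C : ℝ, 0 ≤ C ∧ ∀ (X : ι → ℝ) (Z : ℝ), (∀ i, 1 ≤ X i) →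
      (∀ i, X i ≤ Z) → Bd {x | x ∈ U ∧ ∀ i, X i ≤ h x i ∧ (h x i : ℝ) ≤ 2 * X i}
        (C * (∏ i, X i) * Z ^ ε))
    {i0 j0 : ι} (hi0 : nb i0 j0) (hj0 : nb j0 i0)
    (l : ι → ℝ) (hl : Big nb l) (ε : ℝ) (hε : 0 < ε) :
    ∃ C : ℝ, ∀ T : ℝ, 1 ≤ T →
      Bd {x | x ∈ U ∧ ∏ i, (h x i : ℝ) ^ l i ≤ T} (C * T ^ (fuj nb l + ε)) := by
  classical
  set m : ℕ := Fintype.card ι with hm
  have hm1 : 1 ≤ m := Fintype.card_pos_iff.2 ⟨i0⟩
  obtain ⟨t, ht1, ht2⟩ := exists_lt_of_csInf_lt (fuj_set hl)
    (show sInf {t : ℝ | Eff nb fun j => t * l j - 1} < fuj nb l + ε / 2 by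
      unfold fuj
      linarith)
  have ht1' : Eff nb fun j => t * l j - 1 := ht1
  obtain ⟨K2, hK2, hd2⟩ := ht1'.dot
  obtain ⟨η, hη, hbig⟩ := hl
  obtain ⟨K1, hK1, hd1⟩ := hbig.dot
  have htpos : 0 < t := by
    have h1 := ht1'.pair hi0 hj0
    have h2 := hbig.pair hi0 hj0
    by_contra hc
    push Not at hc
    nlinarith
  set c := Real.log κ with hc
  have hc0 : 0 ≤ c := Real.log_nonneg hκ1
  have hlog2 : 0 < Real.log 2 := Real.log_pos (by norm_num)
  set ε' : ℝ := η * ε / 4 with hε'
  have hε'0 : 0 < ε' := by positivity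
  obtain ⟨C, hC, hcyc⟩ := hbox ε' hε'0
  set δ : ℝ := ε / (4 * m) with hδ
  have hm0 : (0 : ℝ) < m := by exact_mod_cast hm1
  have hδ0 : 0 < δ := by positivity
  -- the constants
  set D : ℝ := (1 / (η * Real.log 2)) * (1 / δ + K1 * c) + 1 with hD
  have hD0 : 0 < D := by positivity
  refine ⟨D ^ m * (C * Real.exp (K2 * c) * Real.exp (K1 * c * (ε / 4))), ?_⟩
  intro T hT
  have hT0 : 0 < T := by linarith
  have hlT : 0 ≤ Real.log T := Real.log_nonneg hT
  set R : ℝ := (Real.log T + K1 * c) / (η * Real.log 2) with hR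
  have hR0 : 0 ≤ R := by positivity
  set S : Set α := {x | x ∈ U ∧ ∏ i, (h x i : ℝ) ^ l i ≤ T} with hS
  -- facts about a point
  have hpt : ∀ x ∈ S, (∀ i, Real.log (h x i) ≤ (Real.log T + K1 * c) / η) ∧
      ∑ i, Real.log (h x i) ≤ t * Real.log T + K2 * c := by
    rintro x ⟨hr, hH⟩
    have hpos' : ∀ i, (1 : ℝ) ≤ h x i := fun i => by
      exact_mod_cast hpos x hr i
    set v : ι → ℝ := fun i => Real.log (h x i) with hv
    have hv0 : ∀ i, 0 ≤ v i := fun i => Real.log_nonneg (hpos' i)
    have hvc : ∀ i, v i ≤ c + ∑ k with nb i k, v k := by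
      intro i
      have h6 := hmid x hr i
      have h7 := Real.log_le_log (by linarith [hpos' i]) h6
      rw [Real.log_mul (by linarith) (Finset.prod_pos fun k _ => by linarith [hpos' k]).ne',
        Real.log_prod fun k _ => (by linarith [hpos' k] : (0 : ℝ) < h x k).ne'] at h7
      exact h7
    have hlogH : ∑ i, l i * v i ≤ Real.log T := by
      have h1 : Real.log (∏ i, (h x i : ℝ) ^ l i) = ∑ i, l i * v i := by
        rw [Real.log_prod fun i _ => (Real.rpow_pos_of_pos (by linarith [hpos' i]) _).ne']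
        apply Finset.sum_congr rfl
        intro i _
        rw [Real.log_rpow (by linarith [hpos' i])]
      rw [← h1]
      exact Real.log_le_log (Finset.prod_pos fun i _ =>
        Real.rpow_pos_of_pos (by linarith [hpos' i]) _) hH
    constructor
    · have h1 := hd1 c v hc0 hv0 hvc
      have h2 : ∑ j, (l j - η) * v j = ∑ j, l j * v j - η * ∑ j, v j := by
        rw [Finset.mul_sum, ← Finset.sum_sub_distrib]
        apply Finset.sum_congr rfl
        intro j _
        ring
      rw [h2] at h1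
      intro i
      rw [le_div_iff₀ hη]
      have h3 : v i ≤ ∑ j, v j := Finset.single_le_sum (f := v) (fun j _ => hv0 j)
        (Finset.mem_univ i)
      have h4 : v i * η ≤ η * ∑ j, v j := by
        rw [mul_comm]
        exact mul_le_mul_of_nonneg_left h3 hη.le
      change v i * η ≤ _
      linarith
    · have h1 := hd2 c v hc0 hv0 hvc
      have h2 : ∑ j, (t * l j - 1) * v j = t * ∑ j, l j * v j - ∑ j, v j := by
        rw [Finset.mul_sum, ← Finset.sum_sub_distrib]
        apply Finset.sum_congr rfl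
        intro j _
        ring
      rw [h2] at h1
      have h3 : t * ∑ j, l j * v j ≤ t * Real.log T := mul_le_mul_of_nonneg_left hlogH htpos.le
      change ∑ j, v j ≤ _
      linarith
  -- the dyadic classes
  set k : α → (ι → ℕ) := fun x i => Nat.log 2 (h x i) with hk
  set N : ℕ := ⌊R⌋₊ with hN
  set P : Finset (ι → ℕ) := Fintype.piFinset fun _ => Finset.range (N + 1) with hP
  have hkpt : ∀ x ∈ S, ∀ i, ((2 : ℝ) ^ k x i ≤ h x i) ∧
      (h x i : ℝ) ≤ 2 * 2 ^ k x i := by
    rintro x ⟨hr, -⟩ i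
    have h1 := hpos x hr i
    constructor
    · exact_mod_cast Nat.pow_log_le_self 2 (by omega)
    · have h2 := Nat.lt_pow_succ_log_self (b := 2) (by norm_num) (h x i)
      have h3 : (h x i : ℝ) < 2 ^ (Nat.log 2 (h x i) + 1) := by exact_mod_cast h2
      rw [pow_succ] at h3
      simp only [hk]
      linarith
  have hmaps : Set.MapsTo k S (P : Set (ι → ℕ)) := by
    intro x hx
    rw [Finset.mem_coe, hP, Fintype.mem_piFinset]
    intro i
    rw [Finset.mem_range, Nat.lt_succ_iff, hN]
    apply Nat.le_floor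
    rw [hR, le_div_iff₀ (by positivity)]
    have h1 := (hkpt x hx i).1
    have h2 := Real.log_le_log (by positivity) h1
    rw [Real.log_pow] at h2
    have h3 := (hpt x hx).1 i
    rw [le_div_iff₀ hη] at h3
    calc (k x i : ℝ) * (η * Real.log 2) = ((k x i : ℝ) * Real.log 2) * η := by ring
      _ ≤ Real.log (h x i) * η := mul_le_mul_of_nonneg_right h2 hη.le
      _ ≤ _ := h3
  have hPb : Bd (P : Set (ι → ℕ)) ((D * T ^ δ) ^ m) := by
    refine ⟨Finset.finite_toSet _, ?_⟩
    rw [Set.ncard_coe_finset, hP, Fintype.card_piFinset]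
    rw [Finset.prod_const, Finset.card_range, Finset.card_univ]
    push_cast
    apply pow_le_pow_left₀ (by positivity)
    have h1 : (N : ℝ) ≤ R := Nat.floor_le hR0
    have h2 : Real.log T ≤ T ^ δ / δ := Real.log_le_rpow_div hT0.le hδ0
    have h3 : 1 ≤ T ^ δ := Real.one_le_rpow hT hδ0.le
    have h4 : R ≤ (1 / (η * Real.log 2)) * (1 / δ + K1 * c) * T ^ δ := by
      rw [hR]
      calc (Real.log T + K1 * c) / (η * Real.log 2)
          = (1 / (η * Real.log 2)) * (Real.log T + K1 * c) := by ring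
        _ ≤ (1 / (η * Real.log 2)) * (T ^ δ / δ + K1 * c * T ^ δ) := by
            apply mul_le_mul_of_nonneg_left _ (by positivity)
            have : 0 ≤ K1 * c := by positivity
            nlinarith
        _ = _ := by ring
    calc (N : ℝ) + 1 ≤ (1 / (η * Real.log 2)) * (1 / δ + K1 * c) * T ^ δ + 1 * T ^ δ := by
          linarith
      _ = D * T ^ δ := by rw [hD]; ring
  set Zm : ℝ := Real.exp ((Real.log T + K1 * c) / η) with hZm
  have hfib : Bd S ((C * (Real.exp (t * Real.log T + K2 * c)) * Zm ^ ε') *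
      (D * T ^ δ) ^ m) := by
    apply hPb.fib k hmaps (by positivity)
    intro k0 _
    rcases Set.eq_empty_or_nonempty {x ∈ S | k x = k0} with hem | ⟨x1, hx1, hk1⟩
    · rw [hem]
      exact Bd.empty (by positivity)
    have hpt1 := hpt x1 hx1
    have hk1' := hkpt x1 hx1
    rw [hk1] at hk1'
    have hpos1 : ∀ i, (1 : ℝ) ≤ h x1 i := fun i => by
      exact_mod_cast hpos x1 hx1.1 i
    have hb := hcyc (fun i => (2 : ℝ) ^ k0 i) Zm
      (fun i => one_le_pow₀ (by norm_num)) (fun i => by
        rw [hZm, ← Real.log_le_iff_le_exp (by positivity)]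
        exact (Real.log_le_log (by positivity) (hk1' i).1).trans (hpt1.1 i))
    refine hb.mono ?_ ?_
    · rintro x ⟨hx, hkx⟩
      have h1 := hkpt x hx
      rw [hkx] at h1
      exact ⟨hx.1, h1⟩
    · have h1 : ∏ i, (2 : ℝ) ^ k0 i ≤ Real.exp (t * Real.log T + K2 * c) := by
        calc ∏ i, (2 : ℝ) ^ k0 i ≤ ∏ i, (h x1 i : ℝ) :=
              Finset.prod_le_prod (fun i _ => by positivity) fun i _ => (hk1' i).1
          _ = Real.exp (∑ i, Real.log (h x1 i)) := by
              rw [Real.exp_sum]
              apply Finset.prod_congr rfl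
              intro i _
              rw [Real.exp_log (by linarith [hpos1 i])]
          _ ≤ _ := Real.exp_le_exp.2 hpt1.2
      gcongr
  refine hfib.mono subset_rfl ?_
  have e1 : Real.exp (t * Real.log T + K2 * c) = Real.exp (K2 * c) * T ^ t := by
    rw [Real.exp_add, mul_comm, Real.rpow_def_of_pos hT0, mul_comm t]
  have e2 : Zm ^ ε' = Real.exp (K1 * c * (ε / 4)) * T ^ (ε / 4) := by
    rw [hZm, ← Real.exp_mul, Real.rpow_def_of_pos hT0, ← Real.exp_add, hε']
    congr 1
    field_simp
    ring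
  have e3 : (T ^ δ) ^ m = T ^ (ε / 4) := by
    rw [← Real.rpow_natCast, ← Real.rpow_mul hT0.le, hδ]
    congr 1
    field_simp
  calc (C * (Real.exp (t * Real.log T + K2 * c)) * Zm ^ ε') * (D * T ^ δ) ^ m
      = D ^ m * (C * Real.exp (K2 * c) * Real.exp (K1 * c * (ε / 4))) *
        (T ^ t * T ^ (ε / 4) * T ^ (ε / 4)) := by
        rw [e1, e2, mul_pow, e3]
        ring
    _ = D ^ m * (C * Real.exp (K2 * c) * Real.exp (K1 * c * (ε / 4))) * T ^ (t + ε / 2) := by
        rw [← Real.rpow_add hT0, ← Real.rpow_add hT0]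
        congr 2
        ring
    _ ≤ D ^ m * (C * Real.exp (K2 * c) * Real.exp (K1 * c * (ε / 4))) *
        T ^ (fuj nb l + ε) := by
        apply mul_le_mul_of_nonneg_left _ (by positivity)
        apply Real.rpow_le_rpow_of_exponent_le hT
        linarith

/-- The description of the cone by pairs and triples of vertices, for graphs in which each three
neighbours of a vertex contain a pair of neighbours. -/
theorem eff_iff [DecidableEq ι] (hs : ∀ i j, nb i j → nb j i)
    (hcl : ∀ j i1 i2 i3, nb j i1 → nb j i2 → nb j i3 → i1 ≠ i2 → i1 ≠ i3 → i2 ≠ i3 →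
      nb i1 i2 ∨ nb i1 i3 ∨ nb i2 i3) (y : ι → ℝ) :
    Eff nb y ↔ (∀ i j, nb i j → 0 ≤ y i + y j) ∧
      ∀ i j k, nb j i → nb j k → ¬ nb i k → i ≠ k → 0 ≤ y i + y j + y k := by
  constructor
  · intro h
    refine ⟨fun i j hij => h.pair hij (hs _ _ hij), fun i j k h1 h2 h3 h4 => ?_⟩
    obtain ⟨a, b, ha, hb, hy⟩ := h
    rw [hy i, hy j, hy k]
    have g1 : a j ≤ ∑ k with nb k i, a k :=
      Finset.single_le_sum (f := a) (fun k _ => ha k) (Finset.mem_filter.2 ⟨Finset.mem_univ _, h1⟩)
    have g2 : a j ≤ ∑ i with nb i k, a i :=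
      Finset.single_le_sum (f := a) (fun k _ => ha k) (Finset.mem_filter.2 ⟨Finset.mem_univ _, h2⟩)
    have g3 : a i + a k ≤ ∑ i with nb i j, a i := by
      rw [← Finset.sum_pair h4]
      apply Finset.sum_le_sum_of_subset_of_nonneg
      · intro z hz
        rw [Finset.mem_insert, Finset.mem_singleton] at hz
        rw [Finset.mem_filter]
        rcases hz with rfl | rfl
        · exact ⟨Finset.mem_univ _, hs _ _ h1⟩
        · exact ⟨Finset.mem_univ _, hs _ _ h2⟩
      · intro z _ _
        exact ha z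
    have h5 := hb i
    have h6 := hb j
    have h7 := hb k
    have h8 := ha j
    linarith
  · rintro ⟨h1, h2⟩
    refine ⟨fun j => max (-y j) 0, fun k => y k - (∑ j with nb j k, max (-y j) 0 - max (-y k) 0),
      fun j => le_max_right _ _, fun j => ?_, fun j => by ring⟩
    simp only
    by_cases hj : y j < 0
    · have e1 : ∑ k with nb k j, max (-y k) 0 = 0 := by
        apply Finset.sum_eq_zero
        intro k hk
        rw [Finset.mem_filter] at hk
        apply max_eq_right
        have := h1 k j hk.2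
        linarith
      rw [e1, max_eq_left (by linarith)]
      linarith
    · push Not at hj
      rw [max_eq_right (by linarith)]
      have key : ∑ k with nb k j, max (-y k) 0 ≤ y j := by
        have e1 : ∑ k with nb k j, max (-y k) 0 = ∑ k with (nb k j ∧ y k < 0), -y k := by
          rw [← Finset.filter_filter, Finset.sum_filter (fun k => y k < 0)]
          apply Finset.sum_congr rfl
          intro k _
          split_ifs with h
          · exact max_eq_left (by linarith)
          · exact max_eq_right (by linarith)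
        rw [e1]
        set N := Finset.univ.filter fun k => nb k j ∧ y k < 0 with hN
        have hmem : ∀ {k}, k ∈ N → nb k j ∧ y k < 0 := fun hk => (Finset.mem_filter.1 hk).2
        have hno : ∀ {k k'}, k ∈ N → k' ∈ N → ¬ nb k k' := by
          intro k k' hk hk' h
          have := h1 k k' h
          linarith [(hmem hk).2, (hmem hk').2]
        have hcard : N.card ≤ 2 := by
          by_contra hc
          push Not at hc
          obtain ⟨i1, i2, i3, m1, m2, m3, n12, n13, n23⟩ := Finset.two_lt_card_iff.1 hc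
          rcases hcl j i1 i2 i3 (hs _ _ (hmem m1).1) (hs _ _ (hmem m2).1) (hs _ _ (hmem m3).1)
            n12 n13 n23 with h | h | h
          · exact hno m1 m2 h
          · exact hno m1 m3 h
          · exact hno m2 m3 h
        have hc3 : N.card = 0 ∨ N.card = 1 ∨ N.card = 2 := by omega
        rcases hc3 with h | h | h
        · rw [Finset.card_eq_zero.1 h, Finset.sum_empty]
          exact hj
        · obtain ⟨k, hk⟩ := Finset.card_eq_one.1 h
          rw [hk, Finset.sum_singleton]
          have hkN : k ∈ N := by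
            rw [hk]
            exact Finset.mem_singleton_self _
          have := h1 k j (hmem hkN).1
          linarith
        · obtain ⟨k, k', hne, hk⟩ := Finset.card_eq_two.1 h
          rw [hk, Finset.sum_pair hne]
          have hkN : k ∈ N := by
            rw [hk]
            simp
          have hkN' : k' ∈ N := by
            rw [hk]
            simp
          have := h2 k j k' (hs _ _ (hmem hkN).1) (hs _ _ (hmem hkN').1) (hno hkN hkN') hne
          linarith
      linarith

end Pool.Agent.K1H88.CH
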