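import Pool.Agent.K1H88.CH.Rev
import Pool.Agent.K1H88.CH.Ends3
import Pool.Agent.K1H88.CH.GSum

/-! Open chains with legs. -/

namespace Pool.Agent.K1H88.CH

open Matrix Pool.Agent.K1H88.PG
open Pool.Agent.H548.WM (ht Rep le_ht' ht_le mem_bx)

section Defs

variable {R : Type} [CommRing R] {r m r' : ℕ}

/-- The multilinear map with the coefficients `c`: it takes the `r` vectors `t k` with two
coordinates to a vector with three coordinates. -/
def cov (c : (Fin r → Fin 2) → Fin 3 → R) (t : Fin r → Fin 2 → R) : Fin 3 → R :=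
  ∑ f : Fin r → Fin 2, (∏ k, t k (f k)) • c f

/-- The derivatives of `cov c t ⬝ᵥ p` with respect to the two coordinates of `t k`. -/
def leg (c : (Fin r → Fin 2) → Fin 3 → R) (t : Fin r → Fin 2 → R) (p : Fin 3 → R) (k : Fin r) :
    Fin 2 → R := fun v => cov c (Function.update t k (Pi.single v 1)) ⬝ᵥ p

/-- The coefficients of the equations of a chain with `m + 1` vertices, `r` legs on the left and
`r'` legs on the right. -/
structure Eqs (R : Type) (r m r' : ℕ) where
  c : (Fin r → Fin 2) → Fin 3 → R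
  A : Fin m → Matrix (Fin 3) (Fin 3) R
  c' : (Fin r' → Fin 2) → Fin 3 → R

/-- The coordinates of a point. -/
@[ext]
structure Pt (R : Type) (r m r' : ℕ) where
  t : Fin r → Fin 2 → R
  p : Fin (m + 1) → Fin 3 → R
  t' : Fin r' → Fin 2 → R

/-- The linear condition for a vertex, from the left. -/
def lcov (X : Eqs R r m r') (x : Pt R r m r') : Fin (m + 1) → Fin 3 → R :=
  Fin.cases (cov X.c x.t) fun i => (X.A i)ᵀ *ᵥ x.p i.castSucc

/-- The linear condition for a vertex, from the right. -/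
def rcov (X : Eqs R r m r') (x : Pt R r m r') : Fin (m + 1) → Fin 3 → R :=
  Fin.lastCases (cov X.c' x.t') fun i => X.A i *ᵥ x.p i.succ

/-- The equations. -/
def On (X : Eqs R r m r') (x : Pt R r m r') : Prop :=
  ∀ j, lcov X x j ⬝ᵥ x.p j = 0 ∧ rcov X x j ⬝ᵥ x.p j = 0

/-- The open set: each coordinate is determined by the others. -/
def InU (X : Eqs R r m r') (x : Pt R r m r') : Prop :=
  (∀ j, lcov X x j ⨯₃ rcov X x j ≠ 0) ∧ (∀ k, leg X.c x.t (x.p 0) k ≠ 0) ∧
    ∀ k, leg X.c' x.t' (x.p (Fin.last m)) k ≠ 0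

theorem lcov_zero (X : Eqs R r m r') (x : Pt R r m r') : lcov X x 0 = cov X.c x.t := rfl

theorem lcov_succ (X : Eqs R r m r') (x : Pt R r m r') (i : Fin m) :
    lcov X x i.succ = (X.A i)ᵀ *ᵥ x.p i.castSucc := rfl

theorem rcov_last (X : Eqs R r m r') (x : Pt R r m r') :
    rcov X x (Fin.last m) = cov X.c' x.t' := by
  unfold rcov
  rw [Fin.lastCases_last]

theorem rcov_castSucc (X : Eqs R r m r') (x : Pt R r m r') (i : Fin m) :
    rcov X x i.castSucc = X.A i *ᵥ x.p i.succ := by
  unfold rcov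
  rw [Fin.lastCases_castSucc]

theorem cov_update (c : (Fin r → Fin 2) → Fin 3 → R) (t : Fin r → Fin 2 → R) (k : Fin r)
    (u : Fin 2 → R) : cov c (Function.update t k u) =
      ∑ f : Fin r → Fin 2, (u (f k) * ∏ k' ∈ Finset.univ.erase k, t k' (f k')) • c f := by
  unfold cov
  apply Finset.sum_congr rfl
  intro f _
  congr 1
  rw [← Finset.mul_prod_erase Finset.univ _ (Finset.mem_univ k), Function.update_self]
  congr 1
  apply Finset.prod_congr rfl
  intro k' hk'
  rw [Function.update_of_ne (Finset.ne_of_mem_erase hk')]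

/-- The leg is orthogonal to the derivatives. -/
theorem leg_dot (c : (Fin r → Fin 2) → Fin 3 → R) (t : Fin r → Fin 2 → R) (p : Fin 3 → R)
    (k : Fin r) : leg c t p k 0 * t k 0 + leg c t p k 1 * t k 1 = cov c t ⬝ᵥ p := by
  have h1 : cov c t = cov c (Function.update t k (t k)) := by rw [Function.update_eq_self]
  rw [h1]
  unfold leg
  rw [cov_update, cov_update, cov_update, sum_dotProduct, sum_dotProduct, sum_dotProduct,
    Finset.sum_mul, Finset.sum_mul, ← Finset.sum_add_distrib]
  apply Finset.sum_congr rfl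
  intro f _
  rw [smul_dotProduct, smul_dotProduct, smul_dotProduct, smul_eq_mul, smul_eq_mul, smul_eq_mul]
  have h2 : f k = 0 ∨ f k = 1 := by omega
  rcases h2 with h | h
  · rw [h]
    simp
    ring
  · rw [h]
    simp
    ring

theorem cov_one (c : (Fin 1 → Fin 2) → Fin 3 → R) (t : Fin 1 → Fin 2 → R) :
    cov c t = t 0 0 • c (fun _ => 0) + t 0 1 • c (fun _ => 1) := by
  unfold cov
  rw [← (Equiv.funUnique (Fin 1) (Fin 2)).symm.sum_comp, Fin.sum_univ_two]
  simp only [Finset.univ_unique, Finset.prod_singleton]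
  rfl

theorem cov_two (c : (Fin 2 → Fin 2) → Fin 3 → R) (t : Fin 2 → Fin 2 → R) :
    cov c t = t 0 0 • (t 1 0 • c ![0, 0] + t 1 1 • c ![0, 1]) +
      t 0 1 • (t 1 0 • c ![1, 0] + t 1 1 • c ![1, 1]) := by
  unfold cov
  rw [← (finTwoArrowEquiv (Fin 2)).symm.sum_comp, Fintype.sum_prod_type, Fin.sum_univ_two,
    Fin.sum_univ_two, Fin.sum_univ_two]
  simp only [Fin.prod_univ_two, finTwoArrowEquiv_symm_apply, cons_val_zero, cons_val_one,
    smul_add, smul_smul]

end Defs

end Pool.Agent.K1H88.CH
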