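import Pool.Agent.K1H88.CH.Ends

/-! Chains with an end on the left and free on the right. -/

namespace Pool.Agent.K1H88.CH

open Matrix Pool.Agent.K1H88.PG
open Pool.Agent.H548.WM (ht Rep le_ht' ht_le mem_bx)

theorem combL (X : ℕ → ℝ) (hX : ∀ i, 1 ≤ X i) (n : ℕ) (hn : 1 ≤ n) :
    X (n - 1) ≤ X n ^ 2 ∨ X 1 ≤ X 0 ∨ (2 ≤ n ∧ X 2 ≤ X 1) ∨
      ∃ j, 1 ≤ j ∧ j + 2 ≤ n ∧ X (j - 1) * X (j + 2) ≤ X j * X (j + 1) := by
  by_contra hc
  push Not at hc
  obtain ⟨h1, h2, h3, h4⟩ := hc
  have pos : ∀ i, 0 < X i := fun i => lt_of_lt_of_le one_pos (hX i)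
  have inc : ∀ i, i + 1 ≤ n → X i < X (i + 1) := by
    intro i
    induction i using Nat.strong_induction_on with
    | _ i ih =>
      intro hi
      rcases Nat.lt_or_ge i 2 with h | h
      · have : i = 0 ∨ i = 1 := by omega
        rcases this with rfl | rfl
        · exact h2
        · exact h3 (by omega)
      · obtain ⟨k, rfl⟩ : ∃ k, i = k + 2 := ⟨i - 2, by omega⟩
        have g1 := h4 (k + 1) (by omega) (by omega)
        have g2 := ih k (by omega) (by omega)
        have e1 : k + 1 - 1 = k := by omega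
        rw [e1] at g1
        have g3 : X (k + 1) * X (k + 1 + 1) < X k * X (k + 1 + 2) := g1
        have p1 := pos k
        have p2 := pos (k + 2)
        have g4 : X k * X (k + 2) < X k * X (k + 3) :=
          (mul_lt_mul_of_pos_right g2 p2).trans g3
        exact lt_of_mul_lt_mul_left g4 p1.le
  have h5 := inc (n - 1) (by omega)
  rw [Nat.sub_add_cancel hn] at h5
  nlinarith [hX n]

/-- The chains with an end on the left. -/
def LF (E : EndT) (A : ℕ → Matrix (Fin 3) (Fin 3) ℤ) (s : E.S) (X : ℕ → ℝ) (n : ℕ) :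
    Set (E.Ω × (ℕ → V)) :=
  {q | q.1 ∈ E.mem s ∧ q.2 ∈ Path A X 1 (n + 1) ∧
    (1 ≤ n → E.u q.1 ⬝ᵥ q.2 1 = 0 ∧ E.nd (q.2 1)) ∧
    (2 ≤ n → E.u q.1 ⨯₃ (A 1 *ᵥ q.2 2) ≠ 0)}

/-- The covector on the left of a vertex. -/
def lc (E : EndT) (A : ℕ → Matrix (Fin 3) (Fin 3) ℤ) (ω : E.Ω) (x : ℕ → V) (j : ℕ) : V :=
  if j = 1 then E.u ω else (A (j - 1))ᵀ *ᵥ x (j - 1)

/-- The expected number. -/
noncomputable def WL (X : ℕ → ℝ) (n : ℕ) : ℝ := X 0 * X n * ∏ i ∈ Finset.Ico 1 (n + 1), X i

theorem WL_pos {X : ℕ → ℝ} (hX : ∀ i, 1 ≤ X i) (n : ℕ) : 0 < WL X n := by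
  unfold WL
  have pos : ∀ i, 0 < X i := fun i => lt_of_lt_of_le one_pos (hX i)
  have := Finset.prod_pos fun i (_ : i ∈ Finset.Ico 1 (n + 1)) => pos i
  have h1 := pos 0
  have h2 := pos n
  positivity

variable {E : EndT} {A : ℕ → Matrix (Fin 3) (Fin 3) ℤ} {s : E.S} {X : ℕ → ℝ} {n : ℕ}

theorem LF_cut {q : E.Ω × (ℕ → V)} (hq : q ∈ LF E A s X n) {k : ℕ} (hk : k ≤ n) :
    (q.1, cut q.2 1 (k + 1)) ∈ LF E A s X k := by
  obtain ⟨h1, h2, h3, h4⟩ := hq
  refine ⟨h1, cut_mem h2 le_rfl (by omega), fun hk' => ?_, fun hk' => ?_⟩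
  · simp only
    rw [cut_in le_rfl (by omega)]
    exact h3 (by omega)
  · simp only
    rw [cut_in (by omega) (by omega)]
    exact h4 (by omega)

/-- The covector is primitive up to a bounded factor. -/
theorem lc_gv {D : ℝ} {a : ℕ} (hA : Good A a) (hX : ∀ i, 1 ≤ X i) (h0 : X 0 = E.X s)
    (hgv : ∀ s, ∀ ω ∈ E.mem s, GV D (E.X s) (E.u ω)) {q : E.Ω × (ℕ → V)} {j : ℕ} (hj : 1 ≤ j)
    (hq1 : q.1 ∈ E.mem s) (hq2 : 2 ≤ j → Rep (q.2 (j - 1)) ∧ X (j - 1) ≤ ht (q.2 (j - 1)) ∧
      (ht (q.2 (j - 1)) : ℝ) ≤ 2 * X (j - 1)) :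
    GV (max D (Dm a)) (X (j - 1)) (lc E A q.1 q.2 j) := by
  have hXp : 0 ≤ X (j - 1) := le_trans zero_le_one (hX _)
  unfold lc
  split_ifs with h
  · subst h
    have := hgv s q.1 hq1
    rw [← h0] at this
    exact this.mono hXp (le_max_left _ _)
  · obtain ⟨g1, g2, g3⟩ := hq2 (by omega)
    have hM := hA (j - 1)
    have := gv_mul hM.2.tr (by rw [det_transpose]; exact hM.1) g1 g2 g3
    exact this.mono hXp (le_max_right _ _)

theorem lc_dot {q : E.Ω × (ℕ → V)} (hq : q ∈ LF E A s X n) {j : ℕ} (h1 : 1 ≤ j) (h2 : j ≤ n) :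
    lc E A q.1 q.2 j ⬝ᵥ q.2 j = 0 := by
  unfold lc
  split_ifs with h
  · subst h
    exact (hq.2.2.1 h2).1
  · have := hq.2.1.2.2.1 (j - 1) (by omega) (by omega)
    rw [Nat.sub_add_cancel h1] at this
    rw [tr_dot]
    exact this

theorem lc_cross {q : E.Ω × (ℕ → V)} (hq : q ∈ LF E A s X n) {j : ℕ} (h1 : 1 ≤ j)
    (h2 : j + 1 ≤ n) : lc E A q.1 q.2 j ⨯₃ (A j *ᵥ q.2 (j + 1)) ≠ 0 := by
  unfold lc
  split_ifs with h
  · subst h
    exact hq.2.2.2 h2
  · have := hq.2.1.2.2.2 (j - 1) (by omega) (by omega)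
    have e1 : j - 1 + 1 = j := by omega
    have e2 : j - 1 + 2 = j + 1 := by omega
    rw [e1, e2] at this
    exact this

/-- The number of chains with an end on the left. -/
theorem left (hE : E.OK) (a n : ℕ) (ε : ℝ) (hε : 0 < ε) : ∃ C : ℝ, 0 ≤ C ∧
    ∀ (A : ℕ → Matrix (Fin 3) (Fin 3) ℤ) (s : E.S) (X : ℕ → ℝ) (Z : ℝ), Good A a →
      (∀ i, 1 ≤ X i) → X 0 = E.X s → (∀ i, i ≤ n → X i ≤ Z) →
        Bd (LF E A s X n) (C * WL X n * Z ^ ε) := by
  induction n using Nat.strong_induction_on generalizing ε with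
  | _ n ih =>
    rcases Nat.eq_zero_or_pos n with rfl | hn
    · obtain ⟨C, hC, h⟩ := hE.all
      refine ⟨C, hC, ?_⟩
      intro A s X Z hA hX h0 hZ
      have hZ1 : 1 ≤ Z := (hX 0).trans (hZ 0 le_rfl)
      have h1 : 1 ≤ Z ^ ε := Real.one_le_rpow hZ1 hε.le
      refine ((h s).inj (fun q : E.Ω × (ℕ → V) => q.1) (fun q hq => hq.1) ?_).mono subset_rfl ?_
      · rintro ⟨ω, x⟩ ⟨-, hx, -⟩ ⟨ω', x'⟩ ⟨-, hx', -⟩ heq
        simp only at heq hx hx'
        have : x = x' := by
          funext i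
          rw [hx.1 i (by omega), hx'.1 i (by omega)]
        rw [heq, this]
      · unfold WL
        have : 0 ≤ C * E.X s ^ 2 := by positivity
        simp only [zero_add, Finset.Ico_self, Finset.prod_empty, mul_one]
        rw [h0]
        nlinarith
    obtain ⟨Dg, hgv⟩ := hE.gv
    set D : ℝ := max Dg (Dm a) with hD
    obtain ⟨Cl, hCl, hleft⟩ := ih (n - 1) (by omega) ε hε
    obtain ⟨Cf, hCf, hfibE⟩ := hE.fib (ε / 2) (by positivity)
    obtain ⟨Cq, hCq, hpairE⟩ := hE.pair (Dm a) (ε / 2) (by positivity)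
    obtain ⟨Cp, hCp, hpath⟩ : ∃ C : ℝ, 0 ≤ C ∧ ∀ (A : ℕ → Matrix (Fin 3) (Fin 3) ℤ) (X : ℕ → ℝ)
        (s t : ℕ) (Z : ℝ), 1 ≤ s → s < t → t ≤ n + 1 → Good A a → (∀ i, 1 ≤ X i) →
        (∀ i, s ≤ i → i < t → X i ≤ Z) → Bd (Path A X s t) (C * W X s t * Z ^ (ε / 3)) := by
      have : ∀ k : ℕ, ∃ C : ℝ, 0 ≤ C ∧ (1 ≤ k → ∀ (A : ℕ → Matrix (Fin 3) (Fin 3) ℤ)
          (X : ℕ → ℝ) (s : ℕ) (Z : ℝ), Good A a → (∀ i, 1 ≤ X i) →
          (∀ i, s ≤ i → i < s + k → X i ≤ Z) →
            Bd (Path A X s (s + k)) (C * W X s (s + k) * Z ^ (ε / 3))) := by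
        intro k
        by_cases hk : 1 ≤ k
        · obtain ⟨C, hC, h⟩ := path a k hk (ε / 3) (by positivity)
          exact ⟨C, hC, fun _ => h⟩
        · exact ⟨0, le_rfl, fun h => absurd h hk⟩
      choose C hC h using this
      refine ⟨∑ k ∈ Finset.range (n + 1), C k, Finset.sum_nonneg fun k _ => hC k, ?_⟩
      intro A X s t Z hs hst htn hA hX hZ
      obtain ⟨k, rfl⟩ : ∃ k, t = s + k := ⟨t - s, by omega⟩
      have h1 := h k (by omega) A X s Z hA hX hZ
      refine h1.mono subset_rfl ?_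
      have h2 : C k ≤ ∑ k ∈ Finset.range (n + 1), C k :=
        Finset.single_le_sum (f := C) (fun k _ => hC k) (Finset.mem_range.2 (by omega))
      have h3 := W_pos hX s (s + k)
      have hZ1 : 1 ≤ Z := (hX s).trans (hZ s le_rfl (by omega))
      have h4 : 0 < Z ^ (ε / 3) := Real.rpow_pos_of_pos (by linarith) _
      gcongr
    have hsub : ∀ j : ℕ, ∃ C : ℝ, 0 ≤ C ∧ (j < n → ∀ (A : ℕ → Matrix (Fin 3) (Fin 3) ℤ)
        (s : E.S) (X : ℕ → ℝ) (Z : ℝ), Good A a → (∀ i, 1 ≤ X i) → X 0 = E.X s →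
        (∀ i, i ≤ j → X i ≤ Z) → Bd (LF E A s X j) (C * WL X j * Z ^ (ε / 3))) := by
      intro j
      by_cases hj : j < n
      · obtain ⟨C, hC, h⟩ := ih j hj (ε / 3) (by positivity)
        exact ⟨C, hC, fun _ => h⟩
      · exact ⟨0, le_rfl, fun h => absurd h hj⟩
    choose c hc hcb using hsub
    obtain ⟨Cg, hCg, hpair⟩ := gv_pair a D (ε / 3) (by positivity)
    set S1 : ℝ := (1 + 72 * D ^ 2) * Cl with hS1
    set S2 : ℝ := (2 * Cf) * Cp with hS2
    set S3 : ℝ := Cq * Cp with hS3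
    set S4 : ℝ := ∑ j ∈ Finset.range n, 2 * Cg * (c j * Cp) with hS4
    have hS10 : 0 ≤ S1 := by positivity
    have hS20 : 0 ≤ S2 := by positivity
    have hS30 : 0 ≤ S3 := by positivity
    have hS40 : 0 ≤ S4 := Finset.sum_nonneg fun j _ => by
      have := hc j
      positivity
    refine ⟨S1 + S2 + S3 + S4, by positivity, ?_⟩
    intro A s X Z hA hX h0 hZ
    have hZ1 : 1 ≤ Z := (hX 0).trans (hZ 0 (by omega))
    have hZ0 : 0 < Z := by linarith
    have pos : ∀ i, 0 < X i := fun i => lt_of_lt_of_le one_pos (hX i)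
    have hWp := WL_pos hX n
    have hZe : 0 < Z ^ ε := Real.rpow_pos_of_pos hZ0 _
    have hz2 : Z ^ (ε / 2) * Z ^ (ε / 3) ≤ Z ^ ε := by
      rw [← Real.rpow_add hZ0]
      exact Real.rpow_le_rpow_of_exponent_le hZ1 (by linarith)
    have hz3 : Z ^ (ε / 3) * (Z ^ (ε / 3) * Z ^ (ε / 3)) = Z ^ ε := by
      rw [← Real.rpow_add hZ0, ← Real.rpow_add hZ0]
      congr 1
      ring
    have fin : ∀ S : ℝ, S ≤ S1 + S2 + S3 + S4 → S * WL X n * Z ^ ε ≤
        (S1 + S2 + S3 + S4) * WL X n * Z ^ ε := fun S hS => by gcongr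
    rcases combL X hX n hn with hR | hL0 | ⟨hn2, hL1⟩ | ⟨j, hj1, hj2, hj3⟩
    · -- the last vertex
      have hb := hleft A s X Z hA hX h0 (fun i hi => hZ i (by omega))
      have hfib : Bd (LF E A s X n) ((1 + 72 * D ^ 2 * (X n ^ 2 / X (n - 1))) *
          (Cl * WL X (n - 1) * Z ^ ε)) := by
        apply hb.fib (fun q => (q.1, cut q.2 1 (n - 1 + 1))) (fun q hq => LF_cut hq (by omega))
        · have := pos (n - 1)
          positivity
        rintro ⟨ω, y⟩ hy
        have hgvy := lc_gv (q := (ω, y)) hA hX h0 hgv hn hy.1 (fun h2 => by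
          exact hy.2.1.2.1 (n - 1) (by omega) (by omega))
        have hone := gv_one hgvy (hX _) (pos n).le
        apply hone.inj (fun q => q.2 n)
        · rintro ⟨ω', x⟩ ⟨hx, hxy⟩
          simp only [Prod.mk.injEq] at hxy
          obtain ⟨rfl, hxy⟩ := hxy
          have h5 := hx.2.1.2.1 n hn (by omega)
          refine ⟨h5.1, ?_, h5.2.2⟩
          have h6 := lc_dot hx hn le_rfl
          have h7 : lc E A ω' y n = lc E A ω' x n := by
            unfold lc
            split_ifs with h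
            · rfl
            · rw [← hxy, cut_in (by omega) (by omega)]
          simp only
          rw [h7]
          exact h6
        · rintro ⟨ω1, x⟩ ⟨hx, hxy⟩ ⟨ω2, x'⟩ ⟨hx', hxy'⟩ h
          simp only [Prod.mk.injEq] at hxy hxy' h ⊢
          refine ⟨hxy.1.trans hxy'.1.symm, ?_⟩
          funext i
          by_cases hi : 1 ≤ i ∧ i < n + 1
          · by_cases hi2 : i = n
            · rw [hi2]
              exact h
            · have h6 : i < n - 1 + 1 := by omega
              rw [← cut_in (x := x) hi.1 h6, ← cut_in (x := x') hi.1 h6]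
              exact congrFun (hxy.2.trans hxy'.2.symm) i
          · exact (hx.2.1.1 i hi).trans (hx'.2.1.1 i hi).symm
      refine (hfib.mono subset_rfl ?_).mono subset_rfl (fin S1 (by linarith))
      have p1 := pos (n - 1)
      have pn := pos n
      have e1 : X n ^ 2 / X (n - 1) * WL X (n - 1) = WL X n := by
        unfold WL
        rw [Nat.sub_add_cancel hn, Finset.prod_Ico_succ_top (by omega)]
        field_simp
      have h8 : 1 ≤ X n ^ 2 / X (n - 1) := by
        rw [le_div_iff₀ p1]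
        linarith
      have hW1 := WL_pos hX (n - 1)
      calc (1 + 72 * D ^ 2 * (X n ^ 2 / X (n - 1))) * (Cl * WL X (n - 1) * Z ^ ε)
          ≤ (X n ^ 2 / X (n - 1) + 72 * D ^ 2 * (X n ^ 2 / X (n - 1))) *
            (Cl * WL X (n - 1) * Z ^ ε) := by gcongr
        _ = S1 * (X n ^ 2 / X (n - 1) * WL X (n - 1)) * Z ^ ε := by
            rw [hS1]
            ring
        _ = S1 * WL X n * Z ^ ε := by rw [e1]
    · -- the end
      have hb := hpath A X 1 (n + 1) Z le_rfl (by omega) le_rfl hA hX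
        (fun i hi hi' => hZ i (by omega))
      have hfib : Bd (LF E A s X n) ((Cf * (1 + X 0 / X 1) * Z ^ (ε / 2)) *
          (Cp * W X 1 (n + 1) * Z ^ (ε / 3))) := by
        apply hb.fib (fun q => q.2) (fun q hq => hq.2.1)
        · have := pos 0
          have := pos 1
          positivity
        intro y hy
        rcases Set.eq_empty_or_nonempty {q ∈ LF E A s X n | q.2 = y} with hem | ⟨q1, hq1, hq1y⟩
        · rw [hem]
          apply Bd.empty
          have := pos 0
          have := pos 1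
          positivity
        have hy1 := hy.2.1 1 le_rfl (by omega)
        have hndy : E.nd (y 1) := by
          rw [← hq1y]
          exact (hq1.2.2.1 hn).2
        have h5 := hfibE s (y 1) (X 1) Z hy1.1 hndy (hX 1) hy1.2.1 hy1.2.2
          (by rw [← h0]; exact hZ 0 (by omega)) (hZ 1 hn)
        rw [← h0] at h5
        apply h5.inj (fun q => q.1)
        · rintro ⟨ω, x⟩ ⟨hx, hxy⟩
          simp only at hxy
          refine ⟨hx.1, ?_⟩
          have := (hx.2.2.1 hn).1
          simp only at this ⊢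
          rw [hxy] at this
          exact this
        · rintro ⟨ω, x⟩ ⟨-, hxy⟩ ⟨ω', x'⟩ ⟨-, hxy'⟩ h
          simp only [Prod.mk.injEq] at hxy hxy' h ⊢
          exact ⟨h, hxy.trans hxy'.symm⟩
      refine (hfib.mono subset_rfl ?_).mono subset_rfl (fin S2 (by linarith))
      have p0 := pos 0
      have p1 := pos 1
      have e1 : X 0 / X 1 * W X 1 (n + 1) = WL X n := by
        unfold WL W
        rw [Nat.add_sub_cancel]
        field_simp
      have h8 : 1 ≤ X 0 / X 1 := by
        rw [le_div_iff₀ p1]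
        linarith
      have hW1 := W_pos hX 1 (n + 1)
      have pz2 : 0 < Z ^ (ε / 2) := Real.rpow_pos_of_pos hZ0 _
      have pz3 : 0 < Z ^ (ε / 3) := Real.rpow_pos_of_pos hZ0 _
      calc (Cf * (1 + X 0 / X 1) * Z ^ (ε / 2)) * (Cp * W X 1 (n + 1) * Z ^ (ε / 3))
          ≤ (Cf * (X 0 / X 1 + X 0 / X 1) * Z ^ (ε / 2)) * (Cp * W X 1 (n + 1) * Z ^ (ε / 3)) := by
            gcongr
        _ = S2 * (X 0 / X 1 * W X 1 (n + 1)) * (Z ^ (ε / 2) * Z ^ (ε / 3)) := by
            rw [hS2]
            ring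
        _ = S2 * WL X n * (Z ^ (ε / 2) * Z ^ (ε / 3)) := by rw [e1]
        _ ≤ S2 * WL X n * Z ^ ε := by gcongr
    · -- the end and the first vertex
      have hb := hpath A X 2 (n + 1) Z (by omega) (by omega) le_rfl hA hX
        (fun i hi hi' => hZ i (by omega))
      have hfib : Bd (LF E A s X n) ((Cq * (X 0 * X 1 / X 2) * Z ^ (ε / 2)) *
          (Cp * W X 2 (n + 1) * Z ^ (ε / 3))) := by
        apply hb.fib (fun q => cut q.2 2 (n + 1)) (fun q hq => cut_mem hq.2.1 (by omega) le_rfl)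
        · have := pos 0
          have := pos 1
          have := pos 2
          positivity
        intro y hy
        have hy1 := hy.2.1 2 le_rfl (by omega)
        have hM := hA 1
        have hw : GV (Dm a) (X 2) (A 1 *ᵥ y 2) := gv_mul hM.2 hM.1 hy1.1 hy1.2.1 hy1.2.2
        have h5 := hpairE s (A 1 *ᵥ y 2) (X 1) (X 2) Z (hX 2) hL1 hw
          (by rw [← h0]; exact hZ 0 (by omega)) (hZ 1 hn)
        rw [← h0] at h5
        apply h5.inj (fun q => (q.1, q.2 1))
        · rintro ⟨ω, x⟩ ⟨hx, hxy⟩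
          simp only at hxy
          have h6 := hx.2.1.2.1 1 le_rfl (by omega)
          have h7 : y 2 = x 2 := by
            rw [← hxy]
            exact cut_in (by omega) (by omega)
          refine ⟨hx.1, h6.1, (hx.2.2.1 hn).2, h6.2.2, (hx.2.2.1 hn).1, ?_, ?_⟩
          · simp only
            rw [h7, dotProduct_comm]
            exact hx.2.1.2.2.1 1 le_rfl (by omega)
          · simp only
            rw [h7]
            exact hx.2.2.2 hn2
        · rintro ⟨ω, x⟩ ⟨hx, hxy⟩ ⟨ω', x'⟩ ⟨hx', hxy'⟩ h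
          simp only [Prod.mk.injEq] at hxy hxy' h ⊢
          refine ⟨h.1, ?_⟩
          funext i
          by_cases hi : 1 ≤ i ∧ i < n + 1
          · by_cases hi2 : i = 1
            · rw [hi2]
              exact h.2
            · have h6 : 2 ≤ i := by omega
              rw [← cut_in (x := x) h6 hi.2, ← cut_in (x := x') h6 hi.2]
              exact congrFun (hxy.trans hxy'.symm) i
          · exact (hx.2.1.1 i hi).trans (hx'.2.1.1 i hi).symm
      refine (hfib.mono subset_rfl ?_).mono subset_rfl (fin S3 (by linarith))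
      have p0 := pos 0
      have p1 := pos 1
      have p2 := pos 2
      have e1 : X 0 * X 1 / X 2 * W X 2 (n + 1) = WL X n := by
        unfold WL W
        rw [Nat.add_sub_cancel, Finset.prod_eq_prod_Ico_succ_bot (a := 1) (b := n + 1) (by omega)]
        field_simp
      have hW1 := W_pos hX 2 (n + 1)
      calc (Cq * (X 0 * X 1 / X 2) * Z ^ (ε / 2)) * (Cp * W X 2 (n + 1) * Z ^ (ε / 3))
          = S3 * (X 0 * X 1 / X 2 * W X 2 (n + 1)) * (Z ^ (ε / 2) * Z ^ (ε / 3)) := by
            rw [hS3]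
            ring
        _ = S3 * WL X n * (Z ^ (ε / 2) * Z ^ (ε / 3)) := by rw [e1]
        _ ≤ S3 * WL X n * Z ^ ε := by gcongr
    · -- two inner vertices
      have hbl := hcb (j - 1) (by omega) A s X Z hA hX h0 (fun i hi => hZ i (by omega))
      have hbr := hpath A X (j + 2) (n + 1) Z (by omega) (by omega) le_rfl hA hX
        (fun i hi hi' => hZ i (by omega))
      have hbp := hbl.prod hbr
      have hfib : Bd (LF E A s X n) ((Cg * (1 + X j * X (j + 1) / (X (j - 1) * X (j + 2))) *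
          Z ^ (ε / 3)) * ((c (j - 1) * WL X (j - 1) * Z ^ (ε / 3)) *
            (Cp * W X (j + 2) (n + 1) * Z ^ (ε / 3)))) := by
        have ppos : 0 ≤ Cg * (1 + X j * X (j + 1) / (X (j - 1) * X (j + 2))) * Z ^ (ε / 3) := by
          have := pos (j - 1)
          have := pos j
          have := pos (j + 1)
          have := pos (j + 2)
          positivity
        apply hbp.fib (fun q => ((q.1, cut q.2 1 (j - 1 + 1)), cut q.2 (j + 2) (n + 1)))
          (fun q hq => ⟨LF_cut hq (by omega), cut_mem hq.2.1 (by omega) le_rfl⟩) ppos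
        rintro ⟨⟨ω, y⟩, y'⟩ ⟨hy, hy'⟩
        simp only at hy hy'
        rcases Set.eq_empty_or_nonempty {q ∈ LF E A s X n |
          ((q.1, cut q.2 1 (j - 1 + 1)), cut q.2 (j + 2) (n + 1)) = ((ω, y), y')} with
          hem | ⟨⟨ω1, x1⟩, hx1, hxy1⟩
        · rw [hem]
          exact Bd.empty ppos
        have hval : ∀ ω' x, (((ω', cut x 1 (j - 1 + 1)), cut x (j + 2) (n + 1)) :
            (E.Ω × (ℕ → V)) × (ℕ → V)) = ((ω, y), y') → ω' = ω ∧
            lc E A ω' x j = lc E A ω y j ∧ x (j + 2) = y' (j + 2) := by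
          intro ω' x hx
          simp only [Prod.mk.injEq] at hx
          obtain ⟨⟨rfl, h5⟩, h6⟩ := hx
          refine ⟨rfl, ?_, ?_⟩
          · unfold lc
            split_ifs with h
            · rfl
            · rw [← h5, cut_in (by omega) (by omega)]
          · rw [← h6]
            exact (cut_in (by omega) (by omega)).symm
        have hgvy := lc_gv (q := (ω, y)) hA hX h0 hgv hj1 hy.1 (fun h2 => by
          exact hy.2.1.2.1 (j - 1) (by omega) (by omega))
        have hry' := hy'.2.1 (j + 2) (by omega) (by omega)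
        have hM1 := hA j
        have hM2 := hA (j + 1)
        have hw : GV D (X (j + 2)) (A (j + 1) *ᵥ y' (j + 2)) :=
          (gv_mul hM2.2 hM2.1 hry'.1 hry'.2.1 hry'.2.2).mono (pos _).le (le_max_right _ _)
        obtain ⟨v1, v2, v3⟩ := hval ω1 x1 hxy1
        have hδ : ((A j).adjugate *ᵥ (lc E A ω y j)) ⬝ᵥ (A (j + 1) *ᵥ y' (j + 2)) ≠ 0 := by
          rw [← v2, ← v3]
          apply delta_ne hM1.1 (y := x1 j) (z := x1 (j + 1))
          · exact lc_dot hx1 hj1 (by omega)
          · rw [dotProduct_comm]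
            exact hx1.2.1.2.2.1 (j + 1) (by omega) (by omega)
          · exact hx1.2.1.2.2.1 j hj1 (by omega)
          · exact lc_cross hx1 hj1 (by omega)
          · exact hx1.2.1.2.2.2 j hj1 (by omega)
        have hpb := hpair (A j) hM1.2 hM1.1 _ _ (X (j - 1)) (X (j + 2)) (X j) (X (j + 1)) Z
          (hX _) (hX _) hgvy hw (hZ _ (by omega)) (hZ _ (by omega)) (pos _).le (pos _).le hδ
        apply hpb.inj (fun q => (q.2 j, q.2 (j + 1)))
        · rintro ⟨ω', x⟩ ⟨hx, hxy⟩
          obtain ⟨w1, w2, w3⟩ := hval ω' x hxy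
          have h5 := hx.2.1.2.1 j hj1 (by omega)
          have h6 := hx.2.1.2.1 (j + 1) (by omega) (by omega)
          refine ⟨h5.1, h6.1, ?_, ?_, ?_, h5.2.2, h6.2.2⟩
          · simp only
            rw [← w2]
            exact lc_dot hx hj1 (by omega)
          · simp only
            rw [dotProduct_comm, ← w3]
            exact hx.2.1.2.2.1 (j + 1) (by omega) (by omega)
          · exact hx.2.1.2.2.1 j hj1 (by omega)
        · rintro ⟨ω1, x⟩ ⟨hx, hxy⟩ ⟨ω2, x'⟩ ⟨hx', hxy'⟩ h
          simp only [Prod.mk.injEq] at hxy hxy' h ⊢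
          refine ⟨hxy.1.1.trans hxy'.1.1.symm, ?_⟩
          funext i
          by_cases hi : 1 ≤ i ∧ i < n + 1
          · by_cases hi2 : i < j - 1 + 1
            · rw [← cut_in (x := x) hi.1 hi2, ← cut_in (x := x') hi.1 hi2]
              exact congrFun (hxy.1.2.trans hxy'.1.2.symm) i
            · by_cases hi3 : j + 2 ≤ i
              · rw [← cut_in (x := x) hi3 hi.2, ← cut_in (x := x') hi3 hi.2]
                exact congrFun (hxy.2.trans hxy'.2.symm) i
              · by_cases hi4 : i = j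
                · rw [hi4]
                  exact h.1
                · have hi5 : i = j + 1 := by omega
                  rw [hi5]
                  exact h.2
          · exact (hx.2.1.1 i hi).trans (hx'.2.1.1 i hi).symm
      refine (hfib.mono subset_rfl ?_).mono subset_rfl (fin S4 (by linarith))
      have p0 := pos (j - 1)
      have p1 := pos j
      have p2 := pos (j + 1)
      have p3 := pos (j + 2)
      have e1 : X j * X (j + 1) / (X (j - 1) * X (j + 2)) * (WL X (j - 1) * W X (j + 2) (n + 1)) =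
          WL X n := by
        unfold WL W
        rw [Nat.sub_add_cancel hj1, Nat.add_sub_cancel,
          ← Finset.prod_Ico_consecutive X (m := 1) (n := j) (k := n + 1) hj1 (by omega),
          Finset.prod_eq_prod_Ico_succ_bot (a := j) (b := n + 1) (by omega),
          Finset.prod_eq_prod_Ico_succ_bot (a := j + 1) (b := n + 1) (by omega)]
        field_simp
      have h8 : 1 ≤ X j * X (j + 1) / (X (j - 1) * X (j + 2)) := by
        rw [le_div_iff₀ (by positivity)]
        linarith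
      have hW1 := WL_pos hX (j - 1)
      have hW2 := W_pos hX (j + 2) (n + 1)
      have hc1 := hc (j - 1)
      have hSj : 2 * Cg * (c (j - 1) * Cp) ≤ S4 := by
        rw [hS4]
        apply Finset.single_le_sum (f := fun j => 2 * Cg * (c j * Cp))
          (fun i _ => by
            have := hc i
            positivity)
        exact Finset.mem_range.2 (by omega)
      set q := X j * X (j + 1) / (X (j - 1) * X (j + 2)) with hq
      have hq0 : 0 < q := by positivity
      calc Cg * (1 + q) * Z ^ (ε / 3) * (c (j - 1) * WL X (j - 1) * Z ^ (ε / 3) *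
            (Cp * W X (j + 2) (n + 1) * Z ^ (ε / 3)))
          ≤ Cg * (q + q) * Z ^ (ε / 3) * (c (j - 1) * WL X (j - 1) * Z ^ (ε / 3) *
            (Cp * W X (j + 2) (n + 1) * Z ^ (ε / 3))) := by gcongr
        _ = (2 * Cg * (c (j - 1) * Cp)) * (q * (WL X (j - 1) * W X (j + 2) (n + 1))) *
            (Z ^ (ε / 3) * (Z ^ (ε / 3) * Z ^ (ε / 3))) := by ring
        _ = (2 * Cg * (c (j - 1) * Cp)) * WL X n * Z ^ ε := by rw [e1, hz3]
        _ ≤ S4 * WL X n * Z ^ ε := by gcongr

end Pool.Agent.K1H88.CH
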