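import Pool.Agent.K1H88.CH.Vecs

/-! Points of the projective line. -/

namespace Pool.Agent.K1H88.CH

open Matrix Pool.Agent.K1H88.PG
open Pool.Agent.H548.WM (ht Rep le_ht' ht_le mem_bx)

/-- Integer vectors with two coordinates. -/
abbrev V2 := Fin 2 → ℤ

theorem bez2 {t : V2} (h : Rep t) : ∃ s : V2, s 0 * t 0 + s 1 * t 1 = 1 := by
  have h1 := h.1
  have h2 : ((Int.gcd (t 0) (t 1) : ℕ) : ℤ) ∣ Finset.univ.gcd t := by
    apply Finset.dvd_gcd
    intro i _
    fin_cases i
    · exact Int.gcd_dvd_left ..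
    · exact Int.gcd_dvd_right ..
  rw [h1] at h2
  have h3 : ((Int.gcd (t 0) (t 1) : ℕ) : ℤ) = 1 := Int.eq_one_of_dvd_one (Int.natCast_nonneg _) h2
  have e1 := Int.gcd_eq_gcd_ab (t 0) (t 1)
  rw [h3] at e1
  refine ⟨![Int.gcdA (t 0) (t 1), Int.gcdB (t 0) (t 1)], ?_⟩
  change Int.gcdA (t 0) (t 1) * t 0 + Int.gcdB (t 0) (t 1) * t 1 = 1
  linarith

theorem rep2_ne {t : V2} (h : Rep t) : t ≠ 0 := by
  rintro rfl
  obtain ⟨-, i, hi, -⟩ := h
  simp at hi

/-- The two coordinates as a vector in space. -/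
def emb (t : V2) : V := ![t 0, t 1, 0]

@[simp] theorem emb0 (t : V2) : emb t 0 = t 0 := rfl
@[simp] theorem emb1 (t : V2) : emb t 1 = t 1 := rfl
@[simp] theorem emb2 (t : V2) : emb t 2 = 0 := rfl

theorem emb_inj {t t' : V2} (h : emb t = emb t') : t = t' := by
  funext i
  fin_cases i
  · exact congrFun h 0
  · exact congrFun h 1

theorem emb_rep {t : V2} (h : Rep t) : Rep (emb t) := by
  obtain ⟨s, hs⟩ := bez2 h
  obtain ⟨h1, i, hi, hi'⟩ := h
  constructor
  · have h2 : Finset.univ.gcd (emb t) ∣ 1 := by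
      rw [← hs]
      apply dvd_add
      · exact (Finset.gcd_dvd (f := emb t) (Finset.mem_univ 0)).mul_left _
      · exact (Finset.gcd_dvd (f := emb t) (Finset.mem_univ 1)).mul_left _
    have h3 := Finset.normalize_gcd (s := Finset.univ) (f := emb t)
    rw [← h3]
    exact normalize_eq_one.2 (isUnit_of_dvd_one h2)
  · fin_cases i
    · exact ⟨0, hi, fun j hj => by omega⟩
    · refine ⟨1, hi, fun j hj => ?_⟩
      obtain rfl : j = 0 := by omega
      exact hi' 0 (by decide)

theorem emb_ht (t : V2) : ht (emb t) = ht t := by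
  apply le_antisymm
  · apply ht_le
    intro i
    fin_cases i
    · exact le_ht' t 0
    · exact le_ht' t 1
    · change |(0 : ℤ)| ≤ _
      simp
  · apply ht_le
    intro i
    fin_cases i
    · exact le_ht' (emb t) 0
    · exact le_ht' (emb t) 1

theorem ht2_pos {t : V2} (h : Rep t) : 1 ≤ ht t := by
  rw [← emb_ht]
  exact ht_pos (rep_ne (emb_rep h))

theorem eq2 {t t' : V2} (h : Rep t) (h' : Rep t') (h0 : t 0 * t' 1 - t 1 * t' 0 = 0) : t = t' := by
  apply emb_inj
  apply par_eq (emb_rep h) (emb_rep h')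
  apply ext3
  · rw [c0]
    simp
  · rw [c1]
    simp
  · rw [c2]
    simpa using h0

/-- Vectors orthogonal to a primitive vector. -/
theorem par2 {t : V2} (h : Rep t) {x y : ℤ} (hx : x * t 0 + y * t 1 = 0) :
    ∃ g : ℤ, x = g * t 1 ∧ y = -(g * t 0) := by
  obtain ⟨s, hs⟩ := bez2 h
  refine ⟨s 1 * x - s 0 * y, ?_, ?_⟩
  · linear_combination (-x) * hs + s 0 * hx
  · linear_combination (-y) * hs + s 1 * hx

theorem card2 {A : ℝ} (hA : 1 ≤ A) : Bd {t : V2 | (ht t : ℝ) ≤ 2 * A} (25 * A ^ 2) := by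
  have h3 : {t : V2 | (ht t : ℝ) ≤ 2 * A} ⊆ ↑(Pool.Agent.H548.WM.bx 2 ⌊2 * A⌋₊) := by
    intro v hv
    rw [Finset.mem_coe, mem_bx]
    exact Nat.le_floor hv
  refine ⟨(Finset.finite_toSet _).subset h3, ?_⟩
  have h4 := Set.ncard_le_ncard h3 (Finset.finite_toSet _)
  rw [Set.ncard_coe_finset, Pool.Agent.H548.WM.card_bx] at h4
  have h5 : ((⌊2 * A⌋₊ : ℕ) : ℝ) ≤ 2 * A := Nat.floor_le (by linarith)
  calc ({t : V2 | (ht t : ℝ) ≤ 2 * A}.ncard : ℝ)
      ≤ (((2 * ⌊2 * A⌋₊ + 1) ^ 2 : ℕ) : ℝ) := by exact_mod_cast h4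
    _ = (2 * (⌊2 * A⌋₊ : ℝ) + 1) ^ 2 := by push_cast; ring
    _ ≤ (5 * A) ^ 2 := by
        apply pow_le_pow_left₀ (by positivity)
        linarith
    _ = 25 * A ^ 2 := by ring

/-- The monomials of degree two. -/
def mon (t : V2) : V := ![t 0 ^ 2, t 0 * t 1, t 1 ^ 2]

theorem mon_rep {t : V2} (h : Rep t) : Rep (mon t) := by
  obtain ⟨s, hs⟩ := bez2 h
  obtain ⟨h1, i, hi, hi'⟩ := h
  constructor
  · have h2 : Finset.univ.gcd (mon t) ∣ 1 := by
      have e : (1 : ℤ) = (s 0 ^ 2) * mon t 0 + (2 * s 0 * s 1) * mon t 1 + (s 1 ^ 2) * mon t 2 := by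
        change (1 : ℤ) = (s 0 ^ 2) * t 0 ^ 2 + (2 * s 0 * s 1) * (t 0 * t 1) + (s 1 ^ 2) * t 1 ^ 2
        linear_combination (-(s 0 * t 0 + s 1 * t 1) - 1) * hs
      rw [e]
      apply dvd_add
      · apply dvd_add
        · exact (Finset.gcd_dvd (f := mon t) (Finset.mem_univ 0)).mul_left _
        · exact (Finset.gcd_dvd (f := mon t) (Finset.mem_univ 1)).mul_left _
      · exact (Finset.gcd_dvd (f := mon t) (Finset.mem_univ 2)).mul_left _
    have h3 := Finset.normalize_gcd (s := Finset.univ) (f := mon t)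
    rw [← h3]
    exact normalize_eq_one.2 (isUnit_of_dvd_one h2)
  · fin_cases i
    · refine ⟨0, ?_, fun j hj => by omega⟩
      change 0 < t 0 ^ 2
      have : 0 < t 0 := hi
      positivity
    · have h0 : t 0 = 0 := hi' 0 (by decide)
      refine ⟨2, ?_, fun j hj => ?_⟩
      · change 0 < t 1 ^ 2
        have : 0 < t 1 := hi
        positivity
      · have : j = 0 ∨ j = 1 := by omega
        rcases this with rfl | rfl
        · change t 0 ^ 2 = 0
          rw [h0]
          norm_num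
        · change t 0 * t 1 = 0
          rw [h0, zero_mul]

theorem mon_ht (t : V2) : ht (mon t) = ht t ^ 2 := by
  have h0 := le_ht' t 0
  have h1 := le_ht' t 1
  apply le_antisymm
  · apply ht_le
    intro i
    push_cast
    fin_cases i
    · change |t 0 ^ 2| ≤ _
      rw [abs_pow]
      exact pow_le_pow_left₀ (abs_nonneg _) h0 2
    · change |t 0 * t 1| ≤ _
      rw [abs_mul, sq]
      exact mul_le_mul h0 h1 (abs_nonneg _) (Nat.cast_nonneg _)
    · change |t 1 ^ 2| ≤ _
      rw [abs_pow]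
      exact pow_le_pow_left₀ (abs_nonneg _) h1 2
  · obtain ⟨i, hi⟩ := Pool.Agent.H548.WM.exists_ht (by norm_num) t
    have h2 : ((ht t ^ 2 : ℕ) : ℤ) ≤ ht (mon t) := by
      push_cast
      rw [← hi, sq_abs]
      fin_cases i
      · have := le_ht' (mon t) 0
        exact (le_abs_self _).trans this
      · have := le_ht' (mon t) 2
        exact (le_abs_self _).trans this
    exact_mod_cast h2

/-- The primitive vector of a nonzero vector. -/
theorem exists_prim {v : V} (hv : v ≠ 0) : ∃ (g : ℤ) (r : V), g ≠ 0 ∧ Rep r ∧ v = g • r := by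
  obtain ⟨f, hf, hf1⟩ := Finset.extract_gcd v (Finset.univ_nonempty (α := Fin 3))
  set G := Finset.univ.gcd v with hG
  have hv' : v = G • f := by
    funext i
    exact hf i (Finset.mem_univ i)
  have hG0 : G ≠ 0 := by
    intro h
    apply hv
    rw [hv', h, zero_smul]
  have hf0 : f ≠ 0 := by
    rintro rfl
    apply hv
    rw [hv', smul_zero]
  -- the first nonzero coordinate
  obtain ⟨i, hi, hi'⟩ : ∃ i, f i ≠ 0 ∧ ∀ j < i, f j = 0 := by
    by_cases h0 : f 0 = 0
    · by_cases h1 : f 1 = 0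
      · refine ⟨2, ?_, ?_⟩
        · intro h2
          apply hf0
          exact ext3 h0 h1 h2
        · intro j hj
          have : j = 0 ∨ j = 1 := by omega
          rcases this with rfl | rfl
          · exact h0
          · exact h1
      · refine ⟨1, h1, ?_⟩
        intro j hj
        obtain rfl : j = 0 := by omega
        exact h0
    · exact ⟨0, h0, fun j hj => by omega⟩
  rcases lt_or_gt_of_ne hi with h | h
  · refine ⟨-G, -f, neg_ne_zero.2 hG0, ⟨?_, i, ?_, ?_⟩, ?_⟩
    · have h2 : Finset.univ.gcd (-f) ∣ Finset.univ.gcd f := by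
        apply Finset.dvd_gcd
        intro b hb
        have := Finset.gcd_dvd (f := -f) hb
        rw [Pi.neg_apply, dvd_neg] at this
        exact this
      rw [hf1] at h2
      have h3 := Finset.normalize_gcd (s := Finset.univ) (f := -f)
      rw [← h3]
      exact normalize_eq_one.2 (isUnit_of_dvd_one h2)
    · rw [Pi.neg_apply]
      omega
    · intro j hj
      rw [Pi.neg_apply, hi' j hj, neg_zero]
    · rw [neg_smul_neg]
      exact hv'
  · exact ⟨G, f, hG0, ⟨hf1, i, h, hi'⟩, hv'⟩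

end Pool.Agent.K1H88.CH
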