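import Pool.Agent.K1H88.CH.P1

/-! Pencils of covectors with a point of the projective line as parameter. -/

namespace Pool.Agent.K1H88.CH

open Matrix Pool.Agent.K1H88.PG
open Pool.Agent.H548.WM (ht Rep le_ht' ht_le mem_bx)

/-- The member of the pencil. -/
def pv (c0 c1 : V) (t : V2) : V := t 0 • c0 + t 1 • c1

theorem pv_cross1 (c0 c1 : V) (t : V2) : pv c0 c1 t ⨯₃ c1 = t 0 • (c0 ⨯₃ c1) := by
  unfold pv
  rw [LinearMap.map_add₂, LinearMap.map_smul₂, LinearMap.map_smul₂, cross_self, smul_zero,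
    add_zero]

theorem pv_cross0 (c0 c1 : V) (t : V2) : c0 ⨯₃ pv c0 c1 t = t 1 • (c0 ⨯₃ c1) := by
  unfold pv
  rw [map_add, map_smul, map_smul, cross_self, smul_zero, zero_add]

theorem pv_cross (c0 c1 : V) (t t' : V2) :
    pv c0 c1 t ⨯₃ pv c0 c1 t' = (t 0 * t' 1 - t 1 * t' 0) • (c0 ⨯₃ c1) := by
  apply ext3 <;> simp only [pv, PG.c0, PG.c1, PG.c2, Pi.add_apply, Pi.smul_apply, smul_eq_mul] <;>
    ring

theorem pv_dot (c0 c1 : V) (t : V2) : (c0 ⨯₃ c1) ⬝ᵥ pv c0 c1 t = 0 := by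
  rw [dot3, PG.c0, PG.c1, PG.c2]
  simp only [pv, Pi.add_apply, Pi.smul_apply, smul_eq_mul]
  ring

/-- Members of a pencil are primitive up to a bounded factor. -/
theorem pencil_gv {D R B : ℝ} {c0 c1 : V} (hn : GV D (R ^ 2) (c0 ⨯₃ c1)) (hR : 1 ≤ R)
    (h0 : (ht c0 : ℝ) ≤ D * R) (h1 : (ht c1 : ℝ) ≤ D * R) {t : V2} (ht1 : Rep t) (hB : 1 ≤ B)
    (hB1 : B ≤ ht t) (hB2 : (ht t : ℝ) ≤ 2 * B) : GV (4 * D ^ 2) (B * R) (pv c0 c1 t) := by
  have hD := hn.D_pos
  have hnp := hn.pos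
  obtain ⟨c, d, g1, g2, g3, g4, g5⟩ := hn
  obtain ⟨s, hs⟩ := bez2 ht1
  set v := pv c0 c1 t with hv
  set n := c0 ⨯₃ c1 with hnd
  refine ⟨s 0 • (c1 ⨯₃ c) + s 1 • (c ⨯₃ c0), d, ?_, g2, ?_, ?_, ?_⟩
  · have e1 : (c1 ⨯₃ c) ⬝ᵥ v = t 0 * d := by
      rw [dotProduct_comm, triple_product_permutation, triple_product_permutation, pv_cross1,
        dotProduct_smul, g1, smul_eq_mul]
    have e2 : (c ⨯₃ c0) ⬝ᵥ v = t 1 * d := by
      rw [dotProduct_comm, triple_product_permutation, pv_cross0, dotProduct_smul, g1,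
        smul_eq_mul]
    rw [add_dotProduct, smul_dotProduct, smul_dotProduct, e1, e2, smul_eq_mul, smul_eq_mul]
    linear_combination d * hs
  · nlinarith
  · -- the lower bound
    obtain ⟨i, hi⟩ := Pool.Agent.H548.WM.exists_ht (by norm_num) t
    have key : (ht t : ℝ) * ht n ≤ 2 * ht v * (D * R) := by
      fin_cases i
      · have e1 := cross_le v c1
        rw [pv_cross1, ht_smul] at e1
        have e2 : (|t 0| : ℤ) * ht n ≤ 2 * ht v * ht c1 := e1
        have e3 : (|t 0| : ℤ) = ht t := hi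
        rw [e3] at e2
        have e4 : (ht t : ℝ) * ht n ≤ 2 * ht v * ht c1 := by exact_mod_cast e2
        exact e4.trans (by gcongr)
      · have e1 := cross_le c0 v
        rw [pv_cross0, ht_smul] at e1
        have e2 : (|t 1| : ℤ) * ht n ≤ 2 * ht c0 * ht v := e1
        have e3 : (|t 1| : ℤ) = ht t := hi
        rw [e3] at e2
        have e4 : (ht t : ℝ) * ht n ≤ 2 * ht c0 * ht v := by exact_mod_cast e2
        refine e4.trans ?_
        calc 2 * (ht c0 : ℝ) * ht v ≤ 2 * (D * R) * ht v := by gcongr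
          _ = _ := by ring
    -- `B R² ≤ D ht t ht n ≤ 2 D² R ht v`
    have h2 : B * R ^ 2 ≤ 2 * D ^ 2 * R * ht v := by
      calc B * R ^ 2 ≤ ht t * (D * ht n) := by gcongr
        _ = D * (ht t * ht n) := by ring
        _ ≤ D * (2 * ht v * (D * R)) := by gcongr
        _ = _ := by ring
    have h3 : B * R ≤ 2 * D ^ 2 * ht v := by
      have hR0 : 0 < R := by linarith
      apply le_of_mul_le_mul_right _ hR0
      calc B * R * R = B * R ^ 2 := by ring
        _ ≤ _ := h2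
        _ = _ := by ring
    have : 0 ≤ D ^ 2 * (ht v : ℝ) := by positivity
    linarith
  · have e1 : (ht v : ℝ) ≤ |(t 0 : ℝ)| * ht c0 + |(t 1 : ℝ)| * ht c1 := by
      have h2 := ht_add (t 0 • c0) (t 1 • c1)
      rw [ht_smul, ht_smul] at h2
      exact_mod_cast h2
    have e2 : |(t 0 : ℝ)| ≤ ht t := by exact_mod_cast le_ht' t 0
    have e3 : |(t 1 : ℝ)| ≤ ht t := by exact_mod_cast le_ht' t 1
    calc (ht v : ℝ) ≤ (2 * B) * (D * R) + (2 * B) * (D * R) := by
          refine e1.trans (add_le_add ?_ ?_)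
          · exact mul_le_mul (e2.trans hB2) h0 (Nat.cast_nonneg _) (by positivity)
          · exact mul_le_mul (e3.trans hB2) h1 (Nat.cast_nonneg _) (by positivity)
      _ = 4 * D * (B * R) := by ring
      _ ≤ 4 * D ^ 2 * (B * R) := by
          have : 0 ≤ B * R := by positivity
          exact mul_le_mul_of_nonneg_right (by nlinarith) this

/-- The member of a pencil and a point orthogonal to it and to a given covector. -/
theorem pencil (D ε : ℝ) (hε : 0 < ε) : ∃ C : ℝ, 0 ≤ C ∧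
    ∀ (c0 c1 w : V) (P Q Y Y' Z : ℝ), 1 ≤ P → 1 ≤ Q → GV D P (c0 ⨯₃ c1) → GV D Q w → P ≤ Z →
      Q ≤ Z → 0 ≤ Y → 0 ≤ Y' →
        Bd {v : V2 × V | Rep v.1 ∧ Rep v.2 ∧ pv c0 c1 v.1 ⬝ᵥ v.2 = 0 ∧ w ⬝ᵥ v.2 = 0 ∧
          pv c0 c1 v.1 ⨯₃ w ≠ 0 ∧ (c0 ⨯₃ c1) ⨯₃ v.2 ≠ 0 ∧ (ht (pv c0 c1 v.1) : ℝ) ≤ 2 * Y ∧
          (ht v.2 : ℝ) ≤ 2 * Y'}
        (C * (1 + Y * Y' / (P * Q)) * Z ^ ε) := by
  obtain ⟨C, hC, h⟩ := gv_pair 1 D ε hε
  refine ⟨C, hC, ?_⟩
  intro c0 c1 w P Q Y Y' Z hP hQ hn hw hPZ hQZ hY hY'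
  set S := {v : V2 × V | Rep v.1 ∧ Rep v.2 ∧ pv c0 c1 v.1 ⬝ᵥ v.2 = 0 ∧ w ⬝ᵥ v.2 = 0 ∧
    pv c0 c1 v.1 ⨯₃ w ≠ 0 ∧ (c0 ⨯₃ c1) ⨯₃ v.2 ≠ 0 ∧ (ht (pv c0 c1 v.1) : ℝ) ≤ 2 * Y ∧
    (ht v.2 : ℝ) ≤ 2 * Y'} with hS
  rcases S.eq_empty_or_nonempty with he | ⟨v0, hv0⟩
  · rw [he]
    apply Bd.empty
    have : (0 : ℝ) ≤ Z := by linarith
    positivity
  have hent : Ent (1 : Matrix (Fin 3) (Fin 3) ℤ) 1 := by
    intro i j
    rw [Matrix.one_apply]
    split_ifs <;> simp
  have hδ : ((1 : Matrix (Fin 3) (Fin 3) ℤ).adjugate *ᵥ (c0 ⨯₃ c1)) ⬝ᵥ w ≠ 0 := by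
    obtain ⟨g1, g2, g3, g4, g5, g6, -⟩ := hv0
    apply delta_ne (by simp) (y := pv c0 c1 v0.1) (z := v0.2) (pv_dot _ _ _) g4
    · rw [one_mulVec]
      exact g3
    · rw [one_mulVec]
      exact g6
    · rw [transpose_one, one_mulVec]
      exact g5
  have hmain := h 1 hent (by simp) (c0 ⨯₃ c1) w P Q Y Y' Z hP hQ hn hw hPZ hQZ hY hY' hδ
  -- the primitive covector
  have hex : ∀ t : V2, ∃ (g : ℤ) (r : V), Rep t → g ≠ 0 ∧ Rep r ∧ pv c0 c1 t = g • r := by
    intro t
    by_cases ht0 : Rep t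
    · have hne : pv c0 c1 t ≠ 0 := by
        intro h0
        have e1 := pv_cross1 c0 c1 t
        have e2 := pv_cross0 c0 c1 t
        rw [h0, LinearMap.map_zero₂] at e1
        rw [h0, map_zero] at e2
        apply rep2_ne ht0
        funext i
        fin_cases i
        · exact (smul_eq_zero.1 e1.symm).resolve_right hn.ne
        · exact (smul_eq_zero.1 e2.symm).resolve_right hn.ne
      obtain ⟨g, r, h1, h2, h3⟩ := exists_prim hne
      exact ⟨g, r, fun _ => ⟨h1, h2, h3⟩⟩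
    · exact ⟨0, 0, fun h => absurd h ht0⟩
  choose γ ρ hρ using hex
  apply hmain.inj (fun v => (ρ v.1, v.2))
  · rintro ⟨t, p⟩ ⟨g1, g2, g3, g4, g5, g6, g7, g8⟩
    simp only at g1 g2 g3 g4 g5 g6 g7 g8
    obtain ⟨k1, k2, k3⟩ := hρ t g1
    have hdiv : ∀ a : V, a ⬝ᵥ pv c0 c1 t = 0 → a ⬝ᵥ ρ t = 0 := by
      intro a ha
      rw [k3, dotProduct_smul, smul_eq_mul] at ha
      exact (mul_eq_zero.1 ha).resolve_left k1
    refine ⟨k2, g2, hdiv _ (pv_dot _ _ _), g4, ?_, ?_, g8⟩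
    · simp only
      rw [one_mulVec, dotProduct_comm]
      apply hdiv
      rw [dotProduct_comm]
      exact g3
    · simp only
      refine le_trans ?_ g7
      rw [k3]
      have h1 : (ht (ρ t) : ℤ) ≤ ht (γ t • ρ t) := by
        rw [ht_smul]
        have := Int.one_le_abs k1
        nlinarith [(Nat.cast_nonneg (ht (ρ t)) : (0 : ℤ) ≤ ht (ρ t))]
      exact_mod_cast h1
  · rintro ⟨t, p⟩ ⟨g1, -⟩ ⟨t', p'⟩ ⟨g1', -⟩ heq
    simp only [Prod.mk.injEq] at heq g1 g1'
    obtain ⟨k1, k2, k3⟩ := hρ t g1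
    obtain ⟨l1, l2, l3⟩ := hρ t' g1'
    have e1 : pv c0 c1 t ⨯₃ pv c0 c1 t' = 0 := by
      rw [k3, l3, ← heq.1, map_smul, LinearMap.map_smul₂, cross_self, smul_zero, smul_zero]
    rw [pv_cross] at e1
    have e2 := (smul_eq_zero.1 e1).resolve_right hn.ne
    rw [eq2 g1 g1' e2, heq.2]

/-- Pairs of points of the projective line on a bilinear curve. -/
theorem bil (D ε : ℝ) (hε : 0 < ε) : ∃ C : ℝ, 0 ≤ C ∧
    ∀ (M : Fin 2 → Fin 2 → ℤ) (H A B Z : ℝ) (d : ℤ), 1 ≤ H → 0 ≤ A → 0 ≤ B → H ≤ Z →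
      (∀ i j, (|M i j| : ℝ) ≤ D * H) → (∃ i j, H ≤ D * |(M i j : ℝ)|) → d ≠ 0 → |(d : ℝ)| ≤ D →
      (∀ g : ℤ, (∀ i j, g ∣ M i j) → g ∣ d) → M 0 0 * M 1 1 - M 0 1 * M 1 0 ≠ 0 →
        Bd {v : V2 × V2 | Rep v.1 ∧ Rep v.2 ∧ (ht v.1 : ℝ) ≤ 2 * A ∧ (ht v.2 : ℝ) ≤ 2 * B ∧
          (v.1 0 * M 0 0 + v.1 1 * M 1 0) * v.2 0 + (v.1 0 * M 0 1 + v.1 1 * M 1 1) * v.2 1 = 0}
        (C * (1 + A * B / H) * Z ^ ε) := by
  classical
  obtain ⟨C, hC, hdiv⟩ := Pool.Agent.Helper112.divisor_bound (ε / 2) (by positivity)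
  set c1 : ℝ := 1 + 144 * D ^ 2 with hc1
  set c2 : ℝ := 2 * D ^ 2 with hc2
  have hc1p : 1 ≤ c1 := by
    have : (0 : ℝ) ≤ 144 * D ^ 2 := by positivity
    linarith
  have hc2p : 0 ≤ c2 := by positivity
  refine ⟨c1 * (2 * (C * c2 ^ (ε / 2))), by positivity, ?_⟩
  intro M H A B Z d hH hA hB hHZ hM1 hM2 hd hdD hg hdet
  have hH0 : 0 < H := by linarith
  have hZ0 : 0 < Z := by linarith
  have hD1 : 1 ≤ D := by
    have : (1 : ℝ) ≤ |(d : ℝ)| := by exact_mod_cast Int.one_le_abs hd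
    linarith
  set N := M 0 0 * M 1 1 - M 0 1 * M 1 0 with hN
  set S := {v : V2 × V2 | Rep v.1 ∧ Rep v.2 ∧ (ht v.1 : ℝ) ≤ 2 * A ∧ (ht v.2 : ℝ) ≤ 2 * B ∧
    (v.1 0 * M 0 0 + v.1 1 * M 1 0) * v.2 0 + (v.1 0 * M 0 1 + v.1 1 * M 1 1) * v.2 1 = 0} with hS
  -- the content
  have key : ∀ v ∈ S, ∃ g : ℤ, v.1 0 * M 0 0 + v.1 1 * M 1 0 = g * v.2 1 ∧
      v.1 0 * M 0 1 + v.1 1 * M 1 1 = -(g * v.2 0) ∧ g ∣ N := by
    rintro ⟨a, b⟩ ⟨h1, h2, -, -, h5⟩
    simp only at h1 h2 h5 ⊢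
    obtain ⟨g, hg1, hg2⟩ := par2 h2 h5
    refine ⟨g, hg1, hg2, ?_⟩
    obtain ⟨s, hs⟩ := bez2 h1
    -- `N a_i` is a combination
    have e0 : N * a 0 = g * (b 1 * M 1 1 + b 0 * M 1 0) := by
      linear_combination M 1 1 * hg1 - M 1 0 * hg2
    have e1 : N * a 1 = g * (-(b 0 * M 0 0) - b 1 * M 0 1) := by
      linear_combination M 0 0 * hg2 - M 0 1 * hg1
    have e2 : N = g * (s 0 * (b 1 * M 1 1 + b 0 * M 1 0) + s 1 * (-(b 0 * M 0 0) - b 1 * M 0 1)) := by
      linear_combination (-N) * hs + s 0 * e0 + s 1 * e1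
    exact ⟨_, e2⟩
  choose! γ hγ using key
  -- the divisors
  set T : Finset ℤ := (N.natAbs.divisors.image fun n : ℕ => (n : ℤ)) ∪
    (N.natAbs.divisors.image fun n : ℕ => -(n : ℤ)) with hT
  have hTc : (T.card : ℝ) ≤ 2 * (N.natAbs.divisors.card : ℝ) := by
    have h1 := Finset.card_union_le (N.natAbs.divisors.image fun n : ℕ => (n : ℤ))
      (N.natAbs.divisors.image fun n : ℕ => -(n : ℤ))
    have h2 := Finset.card_image_le (s := N.natAbs.divisors) (f := fun n : ℕ => (n : ℤ))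
    have h3 := Finset.card_image_le (s := N.natAbs.divisors) (f := fun n : ℕ => -(n : ℤ))
    rw [← hT] at h1
    have h4 : T.card ≤ 2 * N.natAbs.divisors.card := by omega
    exact_mod_cast h4
  have hmaps : Set.MapsTo γ S (T : Set ℤ) := by
    intro v hv
    have h1 := (hγ v hv).2.2
    have h2 : (γ v).natAbs ∈ N.natAbs.divisors := by
      rw [Nat.mem_divisors]
      exact ⟨Int.natAbs_dvd_natAbs.2 h1, Int.natAbs_ne_zero.2 hdet⟩
    rw [Finset.mem_coe, hT, Finset.mem_union, Finset.mem_image, Finset.mem_image]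
    rcases le_total 0 (γ v) with h | h
    · exact Or.inl ⟨_, h2, Int.natAbs_of_nonneg h⟩
    · refine Or.inr ⟨_, h2, ?_⟩
      rw [Int.ofNat_natAbs_of_nonpos h, neg_neg]
  have hTb : Bd (T : Set ℤ) (2 * (N.natAbs.divisors.card : ℝ)) := by
    refine ⟨Finset.finite_toSet _, ?_⟩
    rw [Set.ncard_coe_finset]
    exact hTc
  have hfib : Bd S ((c1 * (1 + A * B / H)) * (2 * (N.natAbs.divisors.card : ℝ))) := by
    apply hTb.fib γ hmaps (by positivity)
    intro g _
    rcases Set.eq_empty_or_nonempty {v ∈ S | γ v = g} with hem | ⟨v0, hv0, hv0g⟩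
    · rw [hem]
      exact Bd.empty (by positivity)
    have hg0 : g ≠ 0 := by
      rintro rfl
      have := (hγ v0 hv0).2.2
      rw [hv0g] at this
      exact hdet (zero_dvd_iff.1 this)
    have hgp : (0 : ℝ) < |(g : ℝ)| := by
      rw [abs_pos]
      exact_mod_cast hg0
    have hb : Bd (emb '' {a : V2 | ∃ b, (a, b) ∈ S ∧ γ (a, b) = g})
        (1 + 9 * (8 * D ^ 2 * (A * B / H))) := by
      apply Bd.pairs _ (2 * A) _ (![0, 0, g] : V) _ d hd _ (by positivity)
      · rintro _ ⟨a, ⟨b, hab, hab'⟩, rfl⟩ _ ⟨a', ⟨b', hab2, hab2'⟩, rfl⟩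
        obtain ⟨k1, k2, -⟩ := hγ _ hab
        obtain ⟨l1, l2, -⟩ := hγ _ hab2
        rw [hab'] at k1 k2
        rw [hab2'] at l1 l2
        simp only at k1 k2 l1 l2
        set w := a 0 * a' 1 - a 1 * a' 0 with hw
        -- divisibility
        have m00 : M 0 0 * w = g * (b 1 * a' 1 - b' 1 * a 1) := by
          rw [hw]
          linear_combination a' 1 * k1 - a 1 * l1
        have m10 : M 1 0 * w = g * (b' 1 * a 0 - b 1 * a' 0) := by
          rw [hw]
          linear_combination a 0 * l1 - a' 0 * k1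
        have m01 : M 0 1 * w = g * (b' 0 * a 1 - b 0 * a' 1) := by
          rw [hw]
          linear_combination a' 1 * k2 - a 1 * l2
        have m11 : M 1 1 * w = g * (b 0 * a' 0 - b' 0 * a 0) := by
          rw [hw]
          linear_combination a 0 * l2 - a' 0 * k2
        have hdw : g ∣ d * w := by
          -- the ideal of the integers `r` with `g ∣ r w`
          have hgc : ((Int.gcd g w : ℕ) : ℤ) ≠ 0 := by
            have : Int.gcd g w ≠ 0 := by
              rw [Ne, Int.gcd_eq_zero_iff]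
              tauto
            exact_mod_cast this
          obtain ⟨g', hg'⟩ : ((Int.gcd g w : ℕ) : ℤ) ∣ g := Int.gcd_dvd_left ..
          obtain ⟨w', hw'⟩ : ((Int.gcd g w : ℕ) : ℤ) ∣ w := Int.gcd_dvd_right ..
          have hcop : IsCoprime g' w' := by
            rw [Int.isCoprime_iff_gcd_eq_one]
            have h1 := Int.gcd_mul_left (Int.gcd g w : ℤ) g' w'
            rw [← hg', ← hw'] at h1
            have h2 : Int.gcd g w ≠ 0 := by exact_mod_cast hgc
            have h3 : Int.natAbs ((Int.gcd g w : ℕ) : ℤ) = Int.gcd g w := Int.natAbs_natCast _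
            rw [h3] at h1
            have h4 : Int.gcd g w * 1 = Int.gcd g w * Int.gcd g' w' := by
              rw [mul_one]
              exact h1
            exact (Nat.eq_of_mul_eq_mul_left (Nat.pos_of_ne_zero h2) h4).symm
          have hall : ∀ i j, g' ∣ M i j := by
            have aux : ∀ r t : ℤ, r * w = g * t → g' ∣ r := by
              intro r t hrt
              apply hcop.dvd_of_dvd_mul_right
              refine ⟨t, ?_⟩
              apply mul_left_cancel₀ hgc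
              calc ((Int.gcd g w : ℕ) : ℤ) * (r * w') = r * w := by
                    conv_rhs => rw [hw']
                    ring
                _ = g * t := hrt
                _ = ((Int.gcd g w : ℕ) : ℤ) * (g' * t) := by
                    conv_lhs => rw [hg']
                    ring
            intro i j
            fin_cases i <;> fin_cases j
            · exact aux _ _ m00
            · exact aux _ _ m01
            · exact aux _ _ m10
            · exact aux _ _ m11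
          obtain ⟨e, he⟩ := hg g' hall
          refine ⟨e * w', ?_⟩
          rw [he]
          calc g' * e * w = g' * e * (((Int.gcd g w : ℕ) : ℤ) * w') := by rw [← hw']
            _ = (((Int.gcd g w : ℕ) : ℤ) * g') * (e * w') := by ring
            _ = g * (e * w') := by rw [← hg']
        obtain ⟨k, hk⟩ := hdw
        refine ⟨k, ?_, ?_⟩
        · apply ext3
          · rw [Pi.smul_apply, Pi.smul_apply, PG.c0]
            simp
          · rw [Pi.smul_apply, Pi.smul_apply, PG.c1]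
            simp
          · rw [Pi.smul_apply, Pi.smul_apply, PG.c2]
            simp only [emb0, emb1, smul_eq_mul]
            change d * w = k * g
            rw [hk]
            ring
        · -- the size
          obtain ⟨i, j, hij⟩ := hM2
          obtain ⟨-, -, a1, a2, -⟩ := hab
          obtain ⟨-, -, a3, a4, -⟩ := hab2
          simp only at a1 a2 a3 a4
          have q : ∀ (t : V2) (i : Fin 2), |(t i : ℝ)| ≤ ht t := fun t i => by
            exact_mod_cast le_ht' t i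
          have qa : ∀ i, |(a i : ℝ)| ≤ 2 * A := fun i => (q a i).trans a1
          have qa' : ∀ i, |(a' i : ℝ)| ≤ 2 * A := fun i => (q a' i).trans a3
          have qb : ∀ i, |(b i : ℝ)| ≤ 2 * B := fun i => (q b i).trans a2
          have qb' : ∀ i, |(b' i : ℝ)| ≤ 2 * B := fun i => (q b' i).trans a4
          have prod : ∀ x y : ℝ, |x| ≤ 2 * B → |y| ≤ 2 * A → |x * y| ≤ 4 * (A * B) := by
            intro x y hx hy
            rw [abs_mul]
            calc |x| * |y| ≤ (2 * B) * (2 * A) :=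
                  mul_le_mul hx hy (abs_nonneg _) (by positivity)
              _ = _ := by ring
          have diff : ∀ x y x' y' : ℝ, |x| ≤ 2 * B → |y| ≤ 2 * A → |x'| ≤ 2 * B → |y'| ≤ 2 * A →
              |x * y - x' * y'| ≤ 8 * (A * B) := by
            intro x y x' y' hx hy hx' hy'
            have h1 := abs_le.1 (prod x y hx hy)
            have h2 := abs_le.1 (prod x' y' hx' hy')
            rw [abs_le]
            constructor <;> linarith [h1.1, h1.2, h2.1, h2.2]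
          have hMw : |(M i j : ℝ)| * |(w : ℝ)| ≤ |(g : ℝ)| * (8 * (A * B)) := by
            rw [← abs_mul]
            fin_cases i <;> fin_cases j
            · have h1 : (M 0 0 : ℝ) * w = g * (b 1 * a' 1 - b' 1 * a 1) := by exact_mod_cast m00
              change |(M 0 0 : ℝ) * w| ≤ _
              rw [h1, abs_mul]
              exact mul_le_mul_of_nonneg_left (diff _ _ _ _ (qb 1) (qa' 1) (qb' 1) (qa 1))
                (abs_nonneg _)
            · have h1 : (M 0 1 : ℝ) * w = g * (b' 0 * a 1 - b 0 * a' 1) := by exact_mod_cast m01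
              change |(M 0 1 : ℝ) * w| ≤ _
              rw [h1, abs_mul]
              exact mul_le_mul_of_nonneg_left (diff _ _ _ _ (qb' 0) (qa 1) (qb 0) (qa' 1))
                (abs_nonneg _)
            · have h1 : (M 1 0 : ℝ) * w = g * (b' 1 * a 0 - b 1 * a' 0) := by exact_mod_cast m10
              change |(M 1 0 : ℝ) * w| ≤ _
              rw [h1, abs_mul]
              exact mul_le_mul_of_nonneg_left (diff _ _ _ _ (qb' 1) (qa 0) (qb 1) (qa' 0))
                (abs_nonneg _)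
            · have h1 : (M 1 1 : ℝ) * w = g * (b 0 * a' 0 - b' 0 * a 0) := by exact_mod_cast m11
              change |(M 1 1 : ℝ) * w| ≤ _
              rw [h1, abs_mul]
              exact mul_le_mul_of_nonneg_left (diff _ _ _ _ (qb 0) (qa' 0) (qb' 0) (qa 0))
                (abs_nonneg _)
          have hkr : (d : ℝ) * w = g * k := by exact_mod_cast hk
          have hk1 : |(g : ℝ)| * |(k : ℝ)| = |(d : ℝ)| * |(w : ℝ)| := by
            rw [← abs_mul, ← abs_mul, hkr]
          have hw1 : H * |(w : ℝ)| ≤ D * (|(g : ℝ)| * (8 * (A * B))) := by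
            calc H * |(w : ℝ)| ≤ (D * |(M i j : ℝ)|) * |(w : ℝ)| :=
                  mul_le_mul_of_nonneg_right hij (abs_nonneg _)
              _ = D * (|(M i j : ℝ)| * |(w : ℝ)|) := by ring
              _ ≤ _ := by gcongr
          have h3 : |(g : ℝ)| * (H * |(k : ℝ)|) ≤ |(g : ℝ)| * (8 * D ^ 2 * (A * B)) := by
            calc |(g : ℝ)| * (H * |(k : ℝ)|) = H * (|(g : ℝ)| * |(k : ℝ)|) := by ring
              _ = |(d : ℝ)| * (H * |(w : ℝ)|) := by rw [hk1]; ring
              _ ≤ D * (D * (|(g : ℝ)| * (8 * (A * B)))) := by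
                  apply mul_le_mul hdD hw1 (by positivity) (by positivity)
              _ = _ := by ring
          have h4 := le_of_mul_le_mul_left h3 hgp
          rw [← mul_div_assoc, le_div_iff₀ hH0]
          linarith
      · rintro _ ⟨a, ⟨b, hab, -⟩, rfl⟩
        refine ⟨emb_rep hab.1, ?_⟩
        rw [emb_ht]
        exact hab.2.2.1
      · intro h
        apply hg0
        exact congrFun h 2
    refine (hb.inj (fun v : V2 × V2 => emb v.1) ?_ ?_).mono subset_rfl ?_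
    · rintro ⟨a, b⟩ ⟨hv, hvg⟩
      exact ⟨a, ⟨b, hv, hvg⟩, rfl⟩
    · rintro ⟨a, b⟩ ⟨hv, hvg⟩ ⟨a', b'⟩ ⟨hv', hvg'⟩ heq
      have haa : a = a' := emb_inj heq
      subst haa
      obtain ⟨k1, k2, -⟩ := hγ _ hv
      obtain ⟨l1, l2, -⟩ := hγ _ hv'
      rw [hvg] at k1 k2
      rw [hvg'] at l1 l2
      simp only at k1 k2 l1 l2
      have e1 : b 1 = b' 1 := mul_left_cancel₀ hg0 (k1.symm.trans l1)
      have e0 : b 0 = b' 0 := by
        apply mul_left_cancel₀ hg0
        linarith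
      have : b = b' := by
        funext i
        fin_cases i
        · exact e0
        · exact e1
      rw [this]
    · rw [hc1]
      have : 0 ≤ A * B / H := by positivity
      nlinarith [sq_nonneg D]
  refine hfib.mono subset_rfl ?_
  have e2 : (N.natAbs.divisors.card : ℝ) ≤ C * c2 ^ (ε / 2) * Z ^ ε := by
    have g1 : (N.natAbs : ℝ) ≤ c2 * Z ^ 2 := by
      have g2 : (N.natAbs : ℝ) = |(N : ℝ)| := by
        rw [Nat.cast_natAbs, Int.cast_abs]
      have g3 : ∀ i j k l, |(M i j : ℝ) * M k l| ≤ (D * Z) ^ 2 := by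
        intro i j k l
        rw [abs_mul, sq]
        have h1 : |(M i j : ℝ)| ≤ D * Z := (hM1 i j).trans (by gcongr)
        have h2 : |(M k l : ℝ)| ≤ D * Z := (hM1 k l).trans (by gcongr)
        exact mul_le_mul h1 h2 (abs_nonneg _) (by positivity)
      have g4 := abs_le.1 (g3 0 0 1 1)
      have g5 := abs_le.1 (g3 0 1 1 0)
      rw [g2, hN, hc2]
      push_cast
      rw [abs_le]
      have : 2 * D ^ 2 * Z ^ 2 = 2 * (D * Z) ^ 2 := by ring
      rw [this]
      constructor <;> linarith [g4.1, g4.2, g5.1, g5.2]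
    have g6 := hdiv N.natAbs (Int.natAbs_pos.2 hdet)
    refine g6.trans ?_
    rw [mul_assoc]
    refine mul_le_mul_of_nonneg_left ?_ hC.le
    calc (N.natAbs : ℝ) ^ (ε / 2) ≤ (c2 * Z ^ 2) ^ (ε / 2) :=
          Real.rpow_le_rpow (by positivity) g1 (by positivity)
      _ = c2 ^ (ε / 2) * Z ^ ε := by
          rw [Real.mul_rpow hc2p (by positivity), ← Real.rpow_natCast Z 2,
            ← Real.rpow_mul hZ0.le]
          congr 2
          push_cast
          ring
  calc _ ≤ (c1 * (1 + A * B / H)) * (2 * (C * c2 ^ (ε / 2) * Z ^ ε)) := by gcongr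
    _ = _ := by ring

end Pool.Agent.K1H88.CH
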