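import Pool.Agent.K1H88.CH.Left

/-! Chains with an end on the right. -/

namespace Pool.Agent.K1H88.CH

open Matrix Pool.Agent.K1H88.PG
open Pool.Agent.H548.WM (ht Rep le_ht' ht_le mem_bx)

/-- The chains with the vertices `m, …, n` and an end on the right. -/
def FR (E : EndT) (A : ℕ → Matrix (Fin 3) (Fin 3) ℤ) (s : E.S) (X : ℕ → ℝ) (m n : ℕ) :
    Set ((ℕ → V) × E.Ω) :=
  {q | q.1 ∈ Path A X m (n + 1) ∧ q.2 ∈ E.mem s ∧
    (m ≤ n → E.u q.2 ⬝ᵥ q.1 n = 0 ∧ E.nd (q.1 n)) ∧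
    (m < n → E.u q.2 ⨯₃ ((A (n - 1))ᵀ *ᵥ q.1 (n - 1)) ≠ 0)}

/-- The expected number. -/
noncomputable def WR (X : ℕ → ℝ) (m n : ℕ) : ℝ :=
  X m * X (n + 1) * ∏ i ∈ Finset.Ico m (n + 1), X i

theorem WR_pos {X : ℕ → ℝ} (hX : ∀ i, 1 ≤ X i) (m n : ℕ) : 0 < WR X m n := by
  unfold WR
  have pos : ∀ i, 0 < X i := fun i => lt_of_lt_of_le one_pos (hX i)
  have := Finset.prod_pos fun i (_ : i ∈ Finset.Ico m (n + 1)) => pos i
  have h1 := pos m
  have h2 := pos (n + 1)
  positivity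

/-- The number of chains with an end on the right. -/
theorem right {E : EndT} (hE : E.OK) (a n : ℕ) (ε : ℝ) (hε : 0 < ε) : ∃ C : ℝ, 0 ≤ C ∧
    ∀ (A : ℕ → Matrix (Fin 3) (Fin 3) ℤ) (s : E.S) (X : ℕ → ℝ) (m : ℕ) (Z : ℝ), 1 ≤ m →
      m ≤ n + 1 → Good A a → (∀ i, 1 ≤ X i) → X (n + 1) = E.X s → (∀ i, i ≤ n + 1 → X i ≤ Z) →
        Bd (FR E A s X m n) (C * WR X m n * Z ^ ε) := by
  have : ∀ k : ℕ, ∃ C : ℝ, 0 ≤ C ∧
      ∀ (A : ℕ → Matrix (Fin 3) (Fin 3) ℤ) (s : E.S) (X : ℕ → ℝ) (Z : ℝ), Good A a →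
      (∀ i, 1 ≤ X i) → X 0 = E.X s → (∀ i, i ≤ k → X i ≤ Z) →
        Bd (LF E A s X k) (C * WL X k * Z ^ ε) := fun k => left hE a k ε hε
  choose C hC h using this
  refine ⟨∑ k ∈ Finset.range (n + 1), C k, Finset.sum_nonneg fun k _ => hC k, ?_⟩
  intro A s X m Z hm hmn hA hX h0 hZ
  set N := n + 1 - m with hN
  have h1 := h N (fun i => (A (n - i))ᵀ) s (fun i => X (n + 1 - i)) Z
    (fun i => ⟨by rw [det_transpose]; exact (hA _).1, (hA _).2.tr⟩) (fun i => hX _)
    h0 (fun i hi => hZ _ (by omega))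
  have hW : WL (fun i => X (n + 1 - i)) N = WR X m n := by
    unfold WL WR
    have e1 := Finset.prod_Ico_reflect X 1 (m := N + 1) (n := n + 1) (by omega)
    have e2 : n + 1 + 1 - (N + 1) = m := by omega
    have e3 : n + 1 + 1 - 1 = n + 1 := by omega
    rw [e2, e3] at e1
    rw [e1]
    have e4 : n + 1 - N = m := by omega
    simp only [e4, Nat.sub_zero]
    ring
  rw [hW] at h1
  have h2 : Bd (FR E A s X m n) (C N * WR X m n * Z ^ ε) := by
    apply h1.inj (fun q => (q.2, fun i => q.1 (n + 1 - i)))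
    · rintro ⟨x, ω⟩ ⟨g1, g2, g3, g4⟩
      simp only at g1 g2 g3 g4
      obtain ⟨k1, k2, k3, k4⟩ := g1
      refine ⟨g2, ⟨?_, ?_, ?_, ?_⟩, ?_, ?_⟩
      · intro i hi
        by_cases hi0 : i = 0
        · rw [hi0]
          exact k1 _ (by omega)
        · exact k1 _ (by omega)
      · intro i hi hi'
        exact k2 _ (by omega) (by omega)
      · intro i hi hi'
        simp only
        have e1 : n + 1 - i = (n - i) + 1 := by omega
        have e2 : n + 1 - (i + 1) = n - i := by omega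
        rw [e1, e2, dotProduct_comm, tr_dot]
        exact k3 _ (by omega) (by omega)
      · intro i hi hi'
        simp only
        have e1 : n + 1 - i = (n - i - 1) + 2 := by omega
        have e2 : n + 1 - (i + 2) = n - i - 1 := by omega
        have e3 : n - (i + 1) = n - i - 1 := by omega
        have e4 : n - i = (n - i - 1) + 1 := by omega
        rw [e1, e2, e3, transpose_transpose, ← cross_anticomm, neg_ne_zero]
        conv_lhs => rw [e4]
        exact k4 _ (by omega) (by omega)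
      · intro hi
        exact g3 (by omega)
      · intro hi
        change E.u ω ⨯₃ ((A (n - 1))ᵀ *ᵥ x (n + 1 - 2)) ≠ 0
        have e1 : n + 1 - 2 = n - 1 := by omega
        rw [e1]
        exact g4 (by omega)
    · rintro ⟨x, ω⟩ ⟨g1, -⟩ ⟨x', ω'⟩ ⟨g1', -⟩ heq
      simp only [Prod.mk.injEq] at heq ⊢
      refine ⟨?_, heq.1⟩
      funext i
      by_cases hi : m ≤ i ∧ i < n + 1
      · have := congrFun heq.2 (n + 1 - i)
        have e1 : n + 1 - (n + 1 - i) = i := by omega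
        rw [e1] at this
        exact this
      · exact (g1.1 i hi).trans (g1'.1 i hi).symm
  refine h2.mono subset_rfl ?_
  have h3 : C N ≤ ∑ k ∈ Finset.range (n + 1), C k :=
    Finset.single_le_sum (f := C) (fun k _ => hC k) (Finset.mem_range.2 (by omega))
  have h4 := WR_pos hX m n
  have hZ1 : 1 ≤ Z := (hX 0).trans (hZ 0 (by omega))
  have h5 : 0 < Z ^ ε := Real.rpow_pos_of_pos (by linarith) _
  gcongr

/-- The chains with two ends. -/
def LR (E E' : EndT) (A : ℕ → Matrix (Fin 3) (Fin 3) ℤ) (s : E.S) (s' : E'.S) (X : ℕ → ℝ)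
    (n : ℕ) : Set (E.Ω × (ℕ → V) × E'.Ω) :=
  {q | (q.1, q.2.1) ∈ LF E A s X n ∧ (q.2.1, q.2.2) ∈ FR E' A s' X 1 n ∧
    (n = 1 → E.u q.1 ⨯₃ E'.u q.2.2 ≠ 0)}

theorem combLR (X : ℕ → ℝ) (hX : ∀ i, 1 ≤ X i) (n : ℕ) :
    X 1 ≤ X 0 ∨ X n ≤ X (n + 1) ∨ X 2 ≤ X 1 ∨
      ∃ j, 1 ≤ j ∧ j + 1 ≤ n ∧ X (j - 1) * X (j + 2) ≤ X j * X (j + 1) := by
  by_contra hc
  push Not at hc
  obtain ⟨h1, h2, h3, h4⟩ := hc
  have pos : ∀ i, 0 < X i := fun i => lt_of_lt_of_le one_pos (hX i)
  have inc : ∀ i, i ≤ n → X i < X (i + 1) := by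
    intro i
    induction i using Nat.strong_induction_on with
    | _ i ih =>
      intro hi
      rcases Nat.lt_or_ge i 2 with h | h
      · have : i = 0 ∨ i = 1 := by omega
        rcases this with rfl | rfl
        · exact h1
        · exact h3
      · obtain ⟨k, rfl⟩ : ∃ k, i = k + 2 := ⟨i - 2, by omega⟩
        have g1 := h4 (k + 1) (by omega) (by omega)
        have g2 := ih k (by omega) (by omega)
        have e1 : k + 1 - 1 = k := by omega
        rw [e1] at g1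
        have g3 : X (k + 1) * X (k + 1 + 1) < X k * X (k + 1 + 2) := g1
        have p1 := pos k
        have p2 := pos (k + 2)
        have g4 : X k * X (k + 2) < X k * X (k + 3) :=
          (mul_lt_mul_of_pos_right g2 p2).trans g3
        exact lt_of_mul_lt_mul_left g4 p1.le
  have h5 := inc n le_rfl
  linarith

/-- The covector on the right of a vertex. -/
def rc (E : EndT) (A : ℕ → Matrix (Fin 3) (Fin 3) ℤ) (ω : E.Ω) (x : ℕ → V) (n j : ℕ) : V :=
  if j = n then E.u ω else A j *ᵥ x (j + 1)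

section

variable {E E' : EndT} {A : ℕ → Matrix (Fin 3) (Fin 3) ℤ} {s : E.S} {s' : E'.S} {X : ℕ → ℝ}
  {n : ℕ}

theorem rc_gv {D : ℝ} {a : ℕ} (hA : Good A a) (hX : ∀ i, 1 ≤ X i) (h0 : X (n + 1) = E.X s)
    (hgv : ∀ s, ∀ ω ∈ E.mem s, GV D (E.X s) (E.u ω)) {ω : E.Ω} {x : ℕ → V} {j : ℕ} (hj : j ≤ n)
    (hq1 : ω ∈ E.mem s) (hq2 : j < n → Rep (x (j + 1)) ∧ X (j + 1) ≤ ht (x (j + 1)) ∧
      (ht (x (j + 1)) : ℝ) ≤ 2 * X (j + 1)) :
    GV (max D (Dm a)) (X (j + 1)) (rc E A ω x n j) := by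
  have hXp : 0 ≤ X (j + 1) := le_trans zero_le_one (hX _)
  unfold rc
  split_ifs with h
  · subst h
    have := hgv s ω hq1
    rw [← h0] at this
    exact this.mono hXp (le_max_left _ _)
  · obtain ⟨g1, g2, g3⟩ := hq2 (by omega)
    have hM := hA j
    have := gv_mul hM.2 hM.1 g1 g2 g3
    exact this.mono hXp (le_max_right _ _)

theorem rc_dot {q : E.Ω × (ℕ → V) × E'.Ω} (hq : q ∈ LR E E' A s s' X n) {j : ℕ} (h1 : 1 ≤ j)
    (h2 : j ≤ n) : rc E' A q.2.2 q.2.1 n j ⬝ᵥ q.2.1 j = 0 := by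
  unfold rc
  split_ifs with h
  · subst h
    exact (hq.2.1.2.2.1 h1).1
  · rw [dotProduct_comm]
    exact hq.2.1.1.2.2.1 j h1 (by omega)

theorem lr_cross {q : E.Ω × (ℕ → V) × E'.Ω} (hq : q ∈ LR E E' A s s' X n) {j : ℕ} (h1 : 1 ≤ j)
    (h2 : j ≤ n) : lc E A q.1 q.2.1 j ⨯₃ rc E' A q.2.2 q.2.1 n j ≠ 0 := by
  unfold lc rc
  split_ifs with h h' h'
  · exact hq.2.2 (by omega)
  · subst h
    exact hq.1.2.2.2 (by omega)
  · subst h'
    have := hq.2.1.2.2.2 (by omega)
    rw [← cross_anticomm, neg_ne_zero]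
    exact this
  · have := hq.2.1.1.2.2.2 (j - 1) (by omega) (by omega)
    have e1 : j - 1 + 1 = j := by omega
    have e2 : j - 1 + 2 = j + 1 := by omega
    rw [e1, e2] at this
    exact this

theorem FR_cut {q : (ℕ → V) × E'.Ω} (hq : q ∈ FR E' A s' X 1 n) {k : ℕ} (hk : 1 ≤ k) :
    (cut q.1 k (n + 1), q.2) ∈ FR E' A s' X k n := by
  obtain ⟨h1, h2, h3, h4⟩ := hq
  refine ⟨cut_mem h1 hk le_rfl, h2, fun hk' => ?_, fun hk' => ?_⟩
  · simp only
    rw [cut_in (by omega) (by omega)]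
    exact h3 (by omega)
  · simp only
    rw [cut_in (by omega) (by omega)]
    exact h4 (by omega)

end

/-- The number of chains with two ends. -/
theorem both {E E' : EndT} (hE : E.OK) (hE' : E'.OK) (a n : ℕ) (hn : 1 ≤ n) (ε : ℝ)
    (hε : 0 < ε) : ∃ C : ℝ, 0 ≤ C ∧
    ∀ (A : ℕ → Matrix (Fin 3) (Fin 3) ℤ) (s : E.S) (s' : E'.S) (X : ℕ → ℝ) (Z : ℝ), Good A a →
      (∀ i, 1 ≤ X i) → X 0 = E.X s → X (n + 1) = E'.X s' → (∀ i, i ≤ n + 1 → X i ≤ Z) →
        Bd (LR E E' A s s' X n) (C * (∏ i ∈ Finset.range (n + 2), X i) * Z ^ ε) := by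
  obtain ⟨Dg, hgv⟩ := hE.gv
  obtain ⟨Dg', hgv'⟩ := hE'.gv
  set D : ℝ := max (max Dg (Dm a)) (max Dg' (Dm a)) with hD
  obtain ⟨Cf, hCf, hfibE⟩ := hE.fib (ε / 2) (by positivity)
  obtain ⟨Cf', hCf', hfibE'⟩ := hE'.fib (ε / 2) (by positivity)
  obtain ⟨Cq, hCq, hpairE⟩ := hE.pair D (ε / 2) (by positivity)
  obtain ⟨Cr, hCr, hright⟩ := right hE' a n (ε / 3) (by positivity)
  have hsub : ∀ j : ℕ, ∃ C : ℝ, 0 ≤ C ∧ ∀ (A : ℕ → Matrix (Fin 3) (Fin 3) ℤ)
      (s : E.S) (X : ℕ → ℝ) (Z : ℝ), Good A a → (∀ i, 1 ≤ X i) → X 0 = E.X s →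
      (∀ i, i ≤ j → X i ≤ Z) → Bd (LF E A s X j) (C * WL X j * Z ^ (ε / 3)) :=
    fun j => left hE a j (ε / 3) (by positivity)
  choose c hc hcb using hsub
  obtain ⟨Cg, hCg, hpair⟩ := gv_pair a D (ε / 3) (by positivity)
  set S1 : ℝ := (2 * Cf) * Cr with hS1
  set S2 : ℝ := (2 * Cf') * c n with hS2
  set S3 : ℝ := Cq * Cr with hS3
  set S4 : ℝ := ∑ j ∈ Finset.range n, 2 * Cg * (c j * Cr) with hS4
  have hcn := hc n
  have hS10 : 0 ≤ S1 := by positivity
  have hS20 : 0 ≤ S2 := by positivity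
  have hS30 : 0 ≤ S3 := by positivity
  have hS40 : 0 ≤ S4 := Finset.sum_nonneg fun j _ => by
    have := hc j
    positivity
  refine ⟨S1 + S2 + S3 + S4, by positivity, ?_⟩
  intro A s s' X Z hA hX h0 h0' hZ
  have hZ1 : 1 ≤ Z := (hX 0).trans (hZ 0 (by omega))
  have hZ0 : 0 < Z := by linarith
  have pos : ∀ i, 0 < X i := fun i => lt_of_lt_of_le one_pos (hX i)
  set W : ℝ := ∏ i ∈ Finset.range (n + 2), X i with hW
  have hWp : 0 < W := Finset.prod_pos fun i _ => pos i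
  have hWe : W = X 0 * (∏ i ∈ Finset.Ico 1 (n + 1), X i) * X (n + 1) := by
    rw [hW, Finset.prod_range_succ, Finset.range_eq_Ico,
      Finset.prod_eq_prod_Ico_succ_bot (a := 0) (b := n + 1) (by omega)]
  have hZe : 0 < Z ^ ε := Real.rpow_pos_of_pos hZ0 _
  have hz2 : Z ^ (ε / 2) * Z ^ (ε / 3) ≤ Z ^ ε := by
    rw [← Real.rpow_add hZ0]
    exact Real.rpow_le_rpow_of_exponent_le hZ1 (by linarith)
  have hz3 : Z ^ (ε / 3) * (Z ^ (ε / 3) * Z ^ (ε / 3)) = Z ^ ε := by
    rw [← Real.rpow_add hZ0, ← Real.rpow_add hZ0]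
    congr 1
    ring
  have fin : ∀ S : ℝ, S ≤ S1 + S2 + S3 + S4 → S * W * Z ^ ε ≤
      (S1 + S2 + S3 + S4) * W * Z ^ ε := fun S hS => by gcongr
  have pz2 : 0 < Z ^ (ε / 2) := Real.rpow_pos_of_pos hZ0 _
  have pz3 : 0 < Z ^ (ε / 3) := Real.rpow_pos_of_pos hZ0 _
  rcases combLR X hX n with hL0 | hR0 | hL1 | ⟨j, hj1, hj2, hj3⟩
  · -- the left end
    have hb := hright A s' X 1 Z le_rfl (by omega) hA hX h0' hZ
    have hfib : Bd (LR E E' A s s' X n) ((Cf * (1 + X 0 / X 1) * Z ^ (ε / 2)) *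
        (Cr * WR X 1 n * Z ^ (ε / 3))) := by
      have ppos : 0 ≤ Cf * (1 + X 0 / X 1) * Z ^ (ε / 2) := by
        have := pos 0
        have := pos 1
        positivity
      apply hb.fib (fun q => q.2) (fun q hq => hq.2.1) ppos
      intro y hy
      rcases Set.eq_empty_or_nonempty {q ∈ LR E E' A s s' X n | q.2 = y} with
        hem | ⟨q1, hq1, hq1y⟩
      · rw [hem]
        exact Bd.empty ppos
      have hy1 := hy.1.2.1 1 le_rfl (by omega)
      have hndy : E.nd (y.1 1) := by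
        rw [← hq1y]
        exact (hq1.1.2.2.1 hn).2
      have h5 := hfibE s (y.1 1) (X 1) Z hy1.1 hndy (hX 1) hy1.2.1 hy1.2.2
        (by rw [← h0]; exact hZ 0 (by omega)) (hZ 1 (by omega))
      rw [← h0] at h5
      apply h5.inj (fun q => q.1)
      · rintro ⟨ω, x⟩ ⟨hx, hxy⟩
        simp only at hxy
        subst hxy
        exact ⟨hx.1.1, (hx.1.2.2.1 hn).1⟩
      · rintro ⟨ω, x⟩ ⟨-, hxy⟩ ⟨ω', x'⟩ ⟨-, hxy'⟩ h
        simp only at hxy hxy' h
        rw [h, hxy, hxy']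
    refine (hfib.mono subset_rfl ?_).mono subset_rfl (fin S1 (by linarith))
    have p0 := pos 0
    have p1 := pos 1
    have e1 : X 0 / X 1 * WR X 1 n = W := by
      rw [hWe]
      unfold WR
      field_simp
    have h8 : 1 ≤ X 0 / X 1 := by
      rw [le_div_iff₀ p1]
      linarith
    have hW1 := WR_pos hX 1 n
    calc (Cf * (1 + X 0 / X 1) * Z ^ (ε / 2)) * (Cr * WR X 1 n * Z ^ (ε / 3))
        ≤ (Cf * (X 0 / X 1 + X 0 / X 1) * Z ^ (ε / 2)) * (Cr * WR X 1 n * Z ^ (ε / 3)) := by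
          gcongr
      _ = S1 * (X 0 / X 1 * WR X 1 n) * (Z ^ (ε / 2) * Z ^ (ε / 3)) := by
          rw [hS1]
          ring
      _ = S1 * W * (Z ^ (ε / 2) * Z ^ (ε / 3)) := by rw [e1]
      _ ≤ S1 * W * Z ^ ε := by gcongr
  · -- the right end
    have hb := hcb n A s X Z hA hX h0 (fun i hi => hZ i (by omega))
    have hfib : Bd (LR E E' A s s' X n) ((Cf' * (1 + X (n + 1) / X n) * Z ^ (ε / 2)) *
        (c n * WL X n * Z ^ (ε / 3))) := by
      have ppos : 0 ≤ Cf' * (1 + X (n + 1) / X n) * Z ^ (ε / 2) := by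
        have := pos n
        have := pos (n + 1)
        positivity
      apply hb.fib (fun q => (q.1, q.2.1)) (fun q hq => hq.1) ppos
      intro y hy
      rcases Set.eq_empty_or_nonempty {q ∈ LR E E' A s s' X n | (q.1, q.2.1) = y} with
        hem | ⟨q1, hq1, hq1y⟩
      · rw [hem]
        exact Bd.empty ppos
      have hy1 := hy.2.1.2.1 n hn (by omega)
      have hndy : E'.nd (y.2 n) := by
        rw [← hq1y]
        exact (hq1.2.1.2.2.1 hn).2
      have h5 := hfibE' s' (y.2 n) (X n) Z hy1.1 hndy (hX n) hy1.2.1 hy1.2.2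
        (by rw [← h0']; exact hZ (n + 1) le_rfl) (hZ n (by omega))
      rw [← h0'] at h5
      apply h5.inj (fun q => q.2.2)
      · rintro ⟨ω, x, ω'⟩ ⟨hx, hxy⟩
        simp only at hxy
        subst hxy
        exact ⟨hx.2.1.2.1, (hx.2.1.2.2.1 hn).1⟩
      · rintro ⟨ω, x, ω'⟩ ⟨-, hxy⟩ ⟨ω2, x2, ω2'⟩ ⟨-, hxy'⟩ h
        simp only at hxy hxy' h
        have := hxy.trans hxy'.symm
        simp only [Prod.mk.injEq] at this ⊢
        exact ⟨this.1, this.2, h⟩
    refine (hfib.mono subset_rfl ?_).mono subset_rfl (fin S2 (by linarith))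
    have p0 := pos n
    have p1 := pos (n + 1)
    have e1 : X (n + 1) / X n * WL X n = W := by
      rw [hWe]
      unfold WL
      field_simp
    have h8 : 1 ≤ X (n + 1) / X n := by
      rw [le_div_iff₀ p0]
      linarith
    have hW1 := WL_pos hX n
    calc (Cf' * (1 + X (n + 1) / X n) * Z ^ (ε / 2)) * (c n * WL X n * Z ^ (ε / 3))
        ≤ (Cf' * (X (n + 1) / X n + X (n + 1) / X n) * Z ^ (ε / 2)) *
          (c n * WL X n * Z ^ (ε / 3)) := by gcongr
      _ = S2 * (X (n + 1) / X n * WL X n) * (Z ^ (ε / 2) * Z ^ (ε / 3)) := by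
          rw [hS2]
          ring
      _ = S2 * W * (Z ^ (ε / 2) * Z ^ (ε / 3)) := by rw [e1]
      _ ≤ S2 * W * Z ^ ε := by gcongr
  · -- the left end and the first vertex
    have hb := hright A s' X 2 Z (by norm_num) (by omega) hA hX h0' hZ
    have hfib : Bd (LR E E' A s s' X n) ((Cq * (X 0 * X 1 / X 2) * Z ^ (ε / 2)) *
        (Cr * WR X 2 n * Z ^ (ε / 3))) := by
      apply hb.fib (fun q => (cut q.2.1 2 (n + 1), q.2.2)) (fun q hq => FR_cut hq.2.1 (by norm_num))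
      · have := pos 0
        have := pos 1
        have := pos 2
        positivity
      rintro ⟨y, ω'⟩ hy
      have hw : GV D (X 2) (rc E' A ω' y n 1) := by
        have := rc_gv (j := 1) (x := y) hA hX h0' hgv' hn hy.2.1 (fun h2 =>
          hy.1.2.1 2 le_rfl (by omega))
        exact this.mono (pos _).le (le_max_right _ _)
      have h5 := hpairE s _ (X 1) (X 2) Z (hX 2) hL1 hw
        (by rw [← h0]; exact hZ 0 (by omega)) (hZ 1 (by omega))
      rw [← h0] at h5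
      apply h5.inj (fun q => (q.1, q.2.1 1))
      · rintro ⟨ω, x, ω2⟩ ⟨hx, hxy⟩
        simp only [Prod.mk.injEq] at hxy
        obtain ⟨hxy, rfl⟩ := hxy
        have h6 := hx.1.2.1.2.1 1 le_rfl (by omega)
        have h7 : rc E' A ω2 y n 1 = rc E' A ω2 x n 1 := by
          unfold rc
          split_ifs with h
          · rfl
          · rw [← hxy, cut_in (by omega) (by omega)]
        refine ⟨hx.1.1, h6.1, (hx.1.2.2.1 hn).2, h6.2.2, (hx.1.2.2.1 hn).1, ?_, ?_⟩
        · simp only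
          rw [h7]
          exact rc_dot hx le_rfl hn
        · simp only
          rw [h7]
          exact lr_cross hx le_rfl hn
      · rintro ⟨ω, x, ω1⟩ ⟨hx, hxy⟩ ⟨ω2, x', ω3⟩ ⟨hx', hxy'⟩ h
        simp only [Prod.mk.injEq] at hxy hxy' h ⊢
        refine ⟨h.1, ?_, hxy.2.trans hxy'.2.symm⟩
        funext i
        by_cases hi : 1 ≤ i ∧ i < n + 1
        · by_cases hi2 : i = 1
          · rw [hi2]
            exact h.2
          · have h6 : 2 ≤ i := by omega
            rw [← cut_in (x := x) h6 hi.2, ← cut_in (x := x') h6 hi.2]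
            exact congrFun (hxy.1.trans hxy'.1.symm) i
        · exact (hx.1.2.1.1 i hi).trans (hx'.1.2.1.1 i hi).symm
    refine (hfib.mono subset_rfl ?_).mono subset_rfl (fin S3 (by linarith))
    have p0 := pos 0
    have p1 := pos 1
    have p2 := pos 2
    have e1 : X 0 * X 1 / X 2 * WR X 2 n = W := by
      rw [hWe]
      unfold WR
      rw [Finset.prod_eq_prod_Ico_succ_bot (a := 1) (b := n + 1) (by omega)]
      field_simp
    have hW1 := WR_pos hX 2 n
    calc (Cq * (X 0 * X 1 / X 2) * Z ^ (ε / 2)) * (Cr * WR X 2 n * Z ^ (ε / 3))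
        = S3 * (X 0 * X 1 / X 2 * WR X 2 n) * (Z ^ (ε / 2) * Z ^ (ε / 3)) := by
          rw [hS3]
          ring
      _ = S3 * W * (Z ^ (ε / 2) * Z ^ (ε / 3)) := by rw [e1]
      _ ≤ S3 * W * Z ^ ε := by gcongr
  · -- two vertices
    have hbl := hcb (j - 1) A s X Z hA hX h0 (fun i hi => hZ i (by omega))
    have hbr := hright A s' X (j + 2) Z (by omega) (by omega) hA hX h0' hZ
    have hbp := hbl.prod hbr
    have hfib : Bd (LR E E' A s s' X n) ((Cg * (1 + X j * X (j + 1) / (X (j - 1) * X (j + 2))) *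
        Z ^ (ε / 3)) * ((c (j - 1) * WL X (j - 1) * Z ^ (ε / 3)) *
          (Cr * WR X (j + 2) n * Z ^ (ε / 3)))) := by
      have ppos : 0 ≤ Cg * (1 + X j * X (j + 1) / (X (j - 1) * X (j + 2))) * Z ^ (ε / 3) := by
        have := pos (j - 1)
        have := pos j
        have := pos (j + 1)
        have := pos (j + 2)
        positivity
      apply hbp.fib (fun q => ((q.1, cut q.2.1 1 (j - 1 + 1)), (cut q.2.1 (j + 2) (n + 1), q.2.2)))
        (fun q hq => ⟨LF_cut hq.1 (by omega), FR_cut hq.2.1 (by omega)⟩) ppos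
      rintro ⟨⟨ω, y⟩, ⟨y', ω'⟩⟩ ⟨hy, hy'⟩
      simp only at hy hy'
      rcases Set.eq_empty_or_nonempty {q ∈ LR E E' A s s' X n |
        ((q.1, cut q.2.1 1 (j - 1 + 1)), (cut q.2.1 (j + 2) (n + 1), q.2.2)) =
          ((ω, y), (y', ω'))} with hem | ⟨⟨ω1, x1, ω1'⟩, hx1, hxy1⟩
      · rw [hem]
        exact Bd.empty ppos
      have hval : ∀ o x o', (((o, cut x 1 (j - 1 + 1)), (cut x (j + 2) (n + 1), o')) :
          (E.Ω × (ℕ → V)) × ((ℕ → V) × E'.Ω)) = ((ω, y), (y', ω')) → o = ω ∧ o' = ω' ∧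
          lc E A o x j = lc E A ω y j ∧ rc E' A o' x n (j + 1) = rc E' A ω' y' n (j + 1) := by
        intro o x o' hx
        simp only [Prod.mk.injEq] at hx
        obtain ⟨⟨rfl, h5⟩, h6, rfl⟩ := hx
        refine ⟨rfl, rfl, ?_, ?_⟩
        · unfold lc
          split_ifs with h
          · rfl
          · rw [← h5, cut_in (by omega) (by omega)]
        · unfold rc
          split_ifs with h
          · rfl
          · rw [← h6, cut_in (by omega) (by omega)]
      have hgvy : GV D (X (j - 1)) (lc E A ω y j) := by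
        have := lc_gv (q := (ω, y)) hA hX h0 hgv hj1 hy.1 (fun h2 => by
          exact hy.2.1.2.1 (j - 1) (by omega) (by omega))
        exact this.mono (pos _).le (le_max_left _ _)
      have hw : GV D (X (j + 2)) (rc E' A ω' y' n (j + 1)) := by
        have := rc_gv (j := j + 1) (x := y') hA hX h0' hgv' hj2 hy'.2.1 (fun h2 =>
          hy'.1.2.1 (j + 2) le_rfl (by omega))
        exact this.mono (pos _).le (le_max_right _ _)
      have hM1 := hA j
      obtain ⟨v1, v2, v3, v4⟩ := hval ω1 x1 ω1' hxy1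
      have hδ : ((A j).adjugate *ᵥ (lc E A ω y j)) ⬝ᵥ (rc E' A ω' y' n (j + 1)) ≠ 0 := by
        rw [← v3, ← v4]
        apply delta_ne hM1.1 (y := x1 j) (z := x1 (j + 1))
        · exact lc_dot hx1.1 hj1 (by omega)
        · exact rc_dot hx1 (by omega) hj2
        · exact hx1.1.2.1.2.2.1 j hj1 (by omega)
        · exact lc_cross hx1.1 hj1 (by omega)
        · have := lr_cross hx1 (j := j + 1) (by omega) hj2
          unfold lc at this
          rw [if_neg (by omega), Nat.add_sub_cancel] at this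
          exact this
      have hpb := hpair (A j) hM1.2 hM1.1 _ _ (X (j - 1)) (X (j + 2)) (X j) (X (j + 1)) Z
        (hX _) (hX _) hgvy hw (hZ _ (by omega)) (hZ _ (by omega)) (pos _).le (pos _).le hδ
      apply hpb.inj (fun q => (q.2.1 j, q.2.1 (j + 1)))
      · rintro ⟨o, x, o'⟩ ⟨hx, hxy⟩
        obtain ⟨w1, w2, w3, w4⟩ := hval o x o' hxy
        have h5 := hx.1.2.1.2.1 j hj1 (by omega)
        have h6 := hx.1.2.1.2.1 (j + 1) (by omega) (by omega)
        refine ⟨h5.1, h6.1, ?_, ?_, ?_, h5.2.2, h6.2.2⟩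
        · simp only
          rw [← w3]
          exact lc_dot hx.1 hj1 (by omega)
        · simp only
          rw [← w4]
          exact rc_dot hx (by omega) hj2
        · exact hx.1.2.1.2.2.1 j hj1 (by omega)
      · rintro ⟨o1, x, o2⟩ ⟨hx, hxy⟩ ⟨o3, x', o4⟩ ⟨hx', hxy'⟩ h
        simp only [Prod.mk.injEq] at hxy hxy' h ⊢
        refine ⟨hxy.1.1.trans hxy'.1.1.symm, ?_, hxy.2.2.trans hxy'.2.2.symm⟩
        funext i
        by_cases hi : 1 ≤ i ∧ i < n + 1
        · by_cases hi2 : i < j - 1 + 1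
          · rw [← cut_in (x := x) hi.1 hi2, ← cut_in (x := x') hi.1 hi2]
            exact congrFun (hxy.1.2.trans hxy'.1.2.symm) i
          · by_cases hi3 : j + 2 ≤ i
            · rw [← cut_in (x := x) hi3 hi.2, ← cut_in (x := x') hi3 hi.2]
              exact congrFun (hxy.2.1.trans hxy'.2.1.symm) i
            · by_cases hi4 : i = j
              · rw [hi4]
                exact h.1
              · have hi5 : i = j + 1 := by omega
                rw [hi5]
                exact h.2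
        · exact (hx.1.2.1.1 i hi).trans (hx'.1.2.1.1 i hi).symm
    refine (hfib.mono subset_rfl ?_).mono subset_rfl (fin S4 (by linarith))
    have p0 := pos (j - 1)
    have p1 := pos j
    have p2 := pos (j + 1)
    have p3 := pos (j + 2)
    have e1 : X j * X (j + 1) / (X (j - 1) * X (j + 2)) * (WL X (j - 1) * WR X (j + 2) n) =
        W := by
      rw [hWe]
      unfold WL WR
      rw [Nat.sub_add_cancel hj1,
        ← Finset.prod_Ico_consecutive X (m := 1) (n := j) (k := n + 1) hj1 (by omega),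
        Finset.prod_eq_prod_Ico_succ_bot (a := j) (b := n + 1) (by omega),
        Finset.prod_eq_prod_Ico_succ_bot (a := j + 1) (b := n + 1) (by omega)]
      field_simp
    have h8 : 1 ≤ X j * X (j + 1) / (X (j - 1) * X (j + 2)) := by
      rw [le_div_iff₀ (by positivity)]
      linarith
    have hW1 := WL_pos hX (j - 1)
    have hW2 := WR_pos hX (j + 2) n
    have hc1 := hc (j - 1)
    have hSj : 2 * Cg * (c (j - 1) * Cr) ≤ S4 := by
      rw [hS4]
      apply Finset.single_le_sum (f := fun j => 2 * Cg * (c j * Cr))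
        (fun i _ => by
          have := hc i
          positivity)
      exact Finset.mem_range.2 (by omega)
    set q := X j * X (j + 1) / (X (j - 1) * X (j + 2)) with hq
    have hq0 : 0 < q := by positivity
    calc Cg * (1 + q) * Z ^ (ε / 3) * (c (j - 1) * WL X (j - 1) * Z ^ (ε / 3) *
          (Cr * WR X (j + 2) n * Z ^ (ε / 3)))
        ≤ Cg * (q + q) * Z ^ (ε / 3) * (c (j - 1) * WL X (j - 1) * Z ^ (ε / 3) *
          (Cr * WR X (j + 2) n * Z ^ (ε / 3))) := by gcongr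
      _ = (2 * Cg * (c (j - 1) * Cr)) * (q * (WL X (j - 1) * WR X (j + 2) n)) *
          (Z ^ (ε / 3) * (Z ^ (ε / 3) * Z ^ (ε / 3))) := by ring
      _ = (2 * Cg * (c (j - 1) * Cr)) * W * Z ^ ε := by rw [e1, hz3]
      _ ≤ S4 * W * Z ^ ε := by gcongr

end Pool.Agent.K1H88.CH
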