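import Pool.Agent.K1H88.CH.Exist2

/-! Consequences of smoothness. -/

namespace Pool.Agent.K1H88.CH

open Matrix Pool.Agent.K1H88.PG

/-- The criterion of Jacobi: at all complex points of the variety the gradients of the `m + 2`
equations are linearly independent. The number `e i` is the coefficient of the gradient of the
equation number `i`; the equation number `0` is the one with the legs on the left, the equation
number `m + 1` is the one with the legs on the right. -/
def Smooth {r m r' : ℕ} (X : Eqs ℂ r m r') : Prop :=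
  ∀ x : Pt ℂ r m r', (∀ k, x.t k ≠ 0) → (∀ j, x.p j ≠ 0) → (∀ k, x.t' k ≠ 0) → On X x →
    ∀ e : Fin (m + 2) → ℂ, (∀ k, e 0 • leg X.c x.t (x.p 0) k = 0) →
      (∀ j : Fin (m + 1), e j.castSucc • lcov X x j + e j.succ • rcov X x j = 0) →
      (∀ k, e (Fin.last (m + 1)) • leg X.c' x.t' (x.p (Fin.last m)) k = 0) → e = 0

section Field

variable {K : Type} [Field K] {r m r' : ℕ}

theorem exists_orth (v : Fin 3 → K) : ∃ z : Fin 3 → K, z ≠ 0 ∧ v ⬝ᵥ z = 0 := by
  by_cases hv : v = 0
  · refine ⟨Pi.single 0 1, fun h => ?_, by rw [hv, zero_dotProduct]⟩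
    have := congrFun h 0
    simp at this
  · obtain ⟨z, hz, hz'⟩ := exists_np hv hv
    refine ⟨z, ?_, hz⟩
    rintro rfl
    apply hz'
    simp

theorem exists_seq (M : ℕ → Matrix (Fin 3) (Fin 3) K) {w : Fin 3 → K} (hw : w ≠ 0) :
    ∃ q : ℕ → Fin 3 → K, q 0 = w ∧ (∀ i, q i ≠ 0) ∧ ∀ i, (M i *ᵥ q i) ⬝ᵥ q (i + 1) = 0 := by
  choose f hf hf' using exists_orth (K := K)
  refine ⟨fun i => Nat.rec w (fun i z => f (M i *ᵥ z)) i, rfl, fun i => ?_, fun i => hf' _⟩
  cases i with
  | zero => exact hw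
  | succ i => exact hf _

/-- Chains with one or two given vertices. -/
theorem exists_chain (A : Fin m → Matrix (Fin 3) (Fin 3) K) (a : ℕ) {w' w : Fin 3 → K}
    (hw' : w' ≠ 0) (hw : w ≠ 0) (h : ∀ i : Fin m, i.val + 1 = a → w' ⬝ᵥ (A i *ᵥ w) = 0) :
    ∃ p : Fin (m + 1) → Fin 3 → K, (∀ j, p j ≠ 0) ∧
      (∀ i : Fin m, p i.castSucc ⬝ᵥ (A i *ᵥ p i.succ) = 0) ∧ (∀ j, j.val = a → p j = w) ∧
      ∀ j, j.val + 1 = a → p j = w' := by
  set A' : ℕ → Matrix (Fin 3) (Fin 3) K := fun i => if h : i < m then A ⟨i, h⟩ else 1 with hA'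
  have hAi : ∀ i : Fin m, A' i.val = A i := fun i => dif_pos i.2
  obtain ⟨q, q0, q1, q2⟩ := exists_seq (fun i => (A' (a + i))ᵀ) hw
  obtain ⟨s, s0, s1, s2⟩ := exists_seq (fun i => A' (a - 2 - i)) hw'
  refine ⟨fun j => if j.val < a then s (a - 1 - j.val) else q (j.val - a), ?_, ?_, ?_, ?_⟩
  · intro j
    simp only
    split_ifs
    · exact s1 _
    · exact q1 _
  · intro i
    simp only [Fin.val_castSucc, Fin.val_succ]
    by_cases h1 : i.val + 1 < a
    · rw [if_pos (by omega), if_pos h1]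
      have h2 := s2 (a - 1 - (i.val + 1))
      have e1 : a - 1 - (i.val + 1) + 1 = a - 1 - i.val := by omega
      have e2 : a - 2 - (a - 1 - (i.val + 1)) = i.val := by omega
      rw [e1, e2, hAi, dotProduct_comm] at h2
      exact h2
    · by_cases h3 : i.val + 1 = a
      · rw [if_pos (by omega), if_neg (by omega)]
        have e1 : a - 1 - i.val = 0 := by omega
        have e2 : i.val + 1 - a = 0 := by omega
        rw [e1, e2, s0, q0]
        exact h i h3
      · rw [if_neg (by omega), if_neg (by omega)]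
        have h2 := q2 (i.val - a)
        have e1 : i.val - a + 1 = i.val + 1 - a := by omega
        have e2 : a + (i.val - a) = i.val := by omega
        rw [e1, e2, hAi, tr_dot'] at h2
        exact h2
  · intro j hj
    simp only
    rw [if_neg (by omega), hj, Nat.sub_self, q0]
  · intro j hj
    simp only
    have e1 : a - 1 - j.val = 0 := by omega
    rw [if_pos (by omega), e1, s0]

theorem leg_update (c : (Fin r → Fin 2) → Fin 3 → K) (t : Fin r → Fin 2 → K) (k : Fin r)
    (u : Fin 2 → K) (p : Fin 3 → K) : leg c (Function.update t k u) p k = leg c t p k := by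
  funext v
  unfold leg
  rw [Function.update_idem]

/-- Legs for a given vertex. -/
theorem exists_legs (c : (Fin r → Fin 2) → Fin 3 → K) (hr : 1 ≤ r) (p : Fin 3 → K) :
    ∃ t : Fin r → Fin 2 → K, (∀ k, t k ≠ 0) ∧ cov c t ⬝ᵥ p = 0 := by
  set t : Fin r → Fin 2 → K := fun _ => ![1, 0] with ht
  have ht0 : ∀ k, t k ≠ 0 := fun k h => one_ne_zero (congrFun h 0)
  set k0 : Fin r := ⟨0, hr⟩
  by_cases h : leg c t p k0 = 0
  · refine ⟨t, ht0, ?_⟩
    rw [← leg_dot c t p k0, h]
    simp
  · refine ⟨Function.update t k0 ![leg c t p k0 1, -leg c t p k0 0], ?_, ?_⟩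
    · intro k
      by_cases hk : k = k0
      · rw [hk, Function.update_self]
        intro h0
        apply h
        have e0 : leg c t p k0 1 = 0 := congrFun h0 0
        have e1 : -leg c t p k0 0 = 0 := congrFun h0 1
        funext v
        have h2 : v = 0 ∨ v = 1 := by omega
        rcases h2 with rfl | rfl
        · exact neg_eq_zero.1 e1
        · exact e0
      · rw [Function.update_of_ne hk]
        exact ht0 k
    · rw [← leg_dot _ _ _ k0, leg_update, Function.update_self]
      simp only [cons_val_zero, cons_val_one]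
      ring

/-- A vertex at which all derivatives vanish, for legs with vanishing covector. -/
theorem exists_sing (c : (Fin r → Fin 2) → Fin 3 → K) (hr : r ≤ 2) {t : Fin r → Fin 2 → K}
    (ht : ∀ k, t k ≠ 0) (h : cov c t = 0) : ∃ p : Fin 3 → K, p ≠ 0 ∧ ∀ k, leg c t p k = 0 := by
  have h1 : ∀ k, ∃ v : Fin 2, ∀ p, leg c t p k v = 0 → leg c t p k = 0 := by
    intro k
    have key : ∀ p, leg c t p k 0 * t k 0 + leg c t p k 1 * t k 1 = 0 := fun p => by
      rw [leg_dot, h, zero_dotProduct]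
    by_cases h0 : t k 0 = 0
    · have h1 : t k 1 ≠ 0 := by
        intro h1
        apply ht k
        funext v
        have h2 : v = 0 ∨ v = 1 := by omega
        rcases h2 with rfl | rfl
        · exact h0
        · exact h1
      refine ⟨0, fun p hp => ?_⟩
      have h2 := key p
      rw [hp, zero_mul, zero_add] at h2
      funext v
      have h3 : v = 0 ∨ v = 1 := by omega
      rcases h3 with rfl | rfl
      · exact hp
      · exact (mul_eq_zero.1 h2).resolve_right h1
    · refine ⟨1, fun p hp => ?_⟩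
      have h2 := key p
      rw [hp, zero_mul, add_zero] at h2
      funext v
      have h3 : v = 0 ∨ v = 1 := by omega
      rcases h3 with rfl | rfl
      · exact (mul_eq_zero.1 h2).resolve_right h0
      · exact hp
  choose v hv using h1
  set M : Matrix (Fin 3) (Fin 3) K := Matrix.of fun i =>
    if h : i.val < r then cov c (Function.update t ⟨i.val, h⟩ (Pi.single (v ⟨i.val, h⟩) 1)) else 0
    with hM
  have hdet : M.det = 0 := by
    apply det_eq_zero_of_row_eq_zero 2
    intro j
    rw [hM, of_apply, dif_neg (by simp; omega)]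
    rfl
  obtain ⟨p, hp, hp'⟩ := exists_mulVec_eq_zero_iff.2 hdet
  refine ⟨p, hp, fun k => hv k p ?_⟩
  have h2 : M ⟨k.val, by omega⟩ ⬝ᵥ p = 0 := congrFun hp' ⟨k.val, by omega⟩
  have h3 : M ⟨k.val, by omega⟩ = cov c (Function.update t k (Pi.single (v k) 1)) := dif_pos k.2
  rw [h3] at h2
  exact h2

theorem on_of {X : Eqs K r m r'} {x : Pt K r m r'} (h0 : cov X.c x.t ⬝ᵥ x.p 0 = 0)
    (h1 : ∀ i : Fin m, x.p i.castSucc ⬝ᵥ (X.A i *ᵥ x.p i.succ) = 0)
    (h2 : cov X.c' x.t' ⬝ᵥ x.p (Fin.last m) = 0) : On X x := by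
  intro j
  constructor
  · cases j using Fin.cases with
    | zero => exact h0
    | succ j =>
      rw [lcov_succ, tr_dot']
      exact h1 j
  · cases j using Fin.lastCases with
    | last =>
      rw [rcov_last]
      exact h2
    | cast j =>
      rw [rcov_castSucc, dotProduct_comm]
      exact h1 j

end Field

variable {r m r' : ℕ}

theorem Smooth.not {X : Eqs ℂ r m r'} (hs : Smooth X) {x : Pt ℂ r m r'} (ht : ∀ k, x.t k ≠ 0)
    (hp : ∀ j, x.p j ≠ 0) (ht' : ∀ k, x.t' k ≠ 0) (hon : On X x) (a : Fin (m + 2))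
    (h0 : a = 0 → ∀ k, leg X.c x.t (x.p 0) k = 0)
    (hl : a = Fin.last (m + 1) → ∀ k, leg X.c' x.t' (x.p (Fin.last m)) k = 0)
    (hc : ∀ j : Fin (m + 1), j.castSucc = a → lcov X x j = 0)
    (hc' : ∀ j : Fin (m + 1), j.succ = a → rcov X x j = 0) : False := by
  have h := hs x ht hp ht' hon (Pi.single a 1) ?_ ?_ ?_
  · have := congrFun h a
    simp at this
  · intro k
    by_cases h : a = 0
    · rw [h0 h k, smul_zero]
    · rw [Pi.single_eq_of_ne (Ne.symm h), zero_smul]
  · intro j
    by_cases h : j.castSucc = a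
    · have h2 : j.succ ≠ a := by
        intro h2
        have h3 := congrArg Fin.val (h.trans h2.symm)
        rw [Fin.val_castSucc, Fin.val_succ] at h3
        omega
      rw [hc j h, smul_zero, Pi.single_eq_of_ne h2, zero_smul, add_zero]
    · rw [Pi.single_eq_of_ne h, zero_smul, zero_add]
      by_cases h2 : j.succ = a
      · rw [hc' j h2, smul_zero]
      · rw [Pi.single_eq_of_ne h2, zero_smul]
  · intro k
    by_cases h : a = Fin.last (m + 1)
    · rw [hl h k, smul_zero]
    · rw [Pi.single_eq_of_ne (Ne.symm h), zero_smul]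

theorem Smooth.left {X : Eqs ℂ r m r'} (hs : Smooth X) (hr : r ≤ 2) (hr' : 1 ≤ r') :
    Bpf X.c := by
  intro t ht hcov
  obtain ⟨w, hw, hleg⟩ := exists_sing X.c hr ht hcov
  obtain ⟨p, hp, hp1, hp2, -⟩ := exists_chain X.A 0 hw hw (fun i hi => by omega)
  obtain ⟨t', ht', hcov'⟩ := exists_legs X.c' hr' (p (Fin.last m))
  have hp0 : p 0 = w := hp2 0 rfl
  refine hs.not (x := ⟨t, p, t'⟩) ht hp ht' (on_of ?_ hp1 hcov') 0 ?_ ?_ ?_ ?_
  · rw [hcov, zero_dotProduct]
  · intro _ k
    simp only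
    rw [hp0]
    exact hleg k
  · intro h
    have := congrArg Fin.val h
    simp at this
  · intro j hj
    have hj0 : j = 0 := by
      ext
      have := congrArg Fin.val hj
      simpa using this
    rw [hj0, lcov_zero]
    exact hcov
  · intro j hj
    exact absurd hj (Fin.succ_ne_zero j)

theorem Smooth.right {X : Eqs ℂ r m r'} (hs : Smooth X) (hr : 1 ≤ r) (hr' : r' ≤ 2) :
    Bpf X.c' := by
  intro t' ht' hcov'
  obtain ⟨w, hw, hleg⟩ := exists_sing X.c' hr' ht' hcov'
  obtain ⟨p, hp, hp1, -, hp2⟩ := exists_chain X.A (m + 1) hw hw (fun i hi => by omega)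
  obtain ⟨t, ht, hcov⟩ := exists_legs X.c hr (p 0)
  have hp0 : p (Fin.last m) = w := hp2 (Fin.last m) rfl
  refine hs.not (x := ⟨t, p, t'⟩) ht hp ht' (on_of hcov hp1 ?_) (Fin.last (m + 1)) ?_ ?_ ?_ ?_
  · rw [hcov', zero_dotProduct]
  · intro h
    have := congrArg Fin.val h
    simp at this
  · intro _ k
    simp only
    rw [hp0]
    exact hleg k
  · intro j hj
    exact absurd hj (Fin.castSucc_lt_last j).ne
  · intro j hj
    have hj0 : j = Fin.last m := by
      ext
      have := congrArg Fin.val hj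
      simpa using this
    rw [hj0, rcov_last]
    exact hcov'

theorem Smooth.det {X : Eqs ℂ r m r'} (hs : Smooth X) (hr : 1 ≤ r) (hr' : 1 ≤ r') (i : Fin m) :
    (X.A i).det ≠ 0 := by
  intro hdet
  obtain ⟨w, hw, hw1⟩ := exists_mulVec_eq_zero_iff.2 hdet
  obtain ⟨w', hw', hw1'⟩ := exists_mulVec_eq_zero_iff.2
    (show (X.A i)ᵀ.det = 0 by rw [det_transpose, hdet])
  obtain ⟨p, hp, hp1, hp2, hp3⟩ := exists_chain X.A (i.val + 1) hw' hw (fun k hk => by
    obtain rfl : k = i := by
      ext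
      omega
    rw [hw1, dotProduct_zero])
  obtain ⟨t, ht, hcov⟩ := exists_legs X.c hr (p 0)
  obtain ⟨t', ht', hcov'⟩ := exists_legs X.c' hr' (p (Fin.last m))
  have e1 : p i.succ = w := hp2 i.succ (by simp)
  have e2 : p i.castSucc = w' := hp3 i.castSucc (by simp)
  refine hs.not (x := ⟨t, p, t'⟩) ht hp ht' (on_of hcov hp1 hcov') i.succ.castSucc ?_ ?_ ?_ ?_
  · intro h
    have := congrArg Fin.val h
    simp at this
  · intro h
    exact absurd h (Fin.castSucc_lt_last _).ne
  · intro j hj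
    obtain rfl : j = i.succ := Fin.castSucc_injective _ hj
    rw [lcov_succ]
    simp only
    rw [e2]
    exact hw1'
  · intro j hj
    have hj' : j = i.castSucc := by
      ext
      have := congrArg Fin.val hj
      simp at this ⊢
      omega
    rw [hj', rcov_castSucc]
    simp only
    rw [e1]
    exact hw1

/-- For two legs the matrix `nbm` is invertible. -/
theorem Bpf.det {c : (Fin 2 → Fin 2) → Fin 3 → ℂ} (hb : Bpf c) : (nbm c).det ≠ 0 := by
  intro h0
  have hS : (sm c).det = 0 := by rw [sm_det, h0, mul_zero]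
  obtain ⟨p, hp, hp'⟩ := exists_mulVec_eq_zero_iff.2 hS
  have hrank : dsc c p = 0 := by
    have h1 := sm_dot c p p
    rw [hp', zero_dotProduct] at h1
    have h2 : dsc c (p + p) = 4 * dsc c p := by
      unfold dsc
      simp only [dotProduct_add]
      ring
    rw [h2] at h1
    have h3 : (2 : ℂ) * dsc c p = 0 := by linear_combination -h1
    exact (mul_eq_zero.1 h3).resolve_left two_ne_zero
  rw [sm_mul] at hp'
  have hcov : ∀ a b : Fin 2 → ℂ, a ≠ 0 → b ≠ 0 →
      a 0 • (b 0 • c ![0, 0] + b 1 • c ![0, 1]) + a 1 • (b 0 • c ![1, 0] + b 1 • c ![1, 1]) ≠ 0 := by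
    intro a b ha hb' h
    refine hb ![a, b] ?_ ?_
    · intro k
      have h2 : k = 0 ∨ k = 1 := by omega
      rcases h2 with rfl | rfl
      · exact ha
      · exact hb'
    · rw [cov_two]
      exact h
  by_cases hN : c ![0, 0] ⬝ᵥ p = 0 ∧ c ![0, 1] ⬝ᵥ p = 0 ∧ c ![1, 0] ⬝ᵥ p = 0 ∧
      c ![1, 1] ⬝ᵥ p = 0
  · obtain ⟨n00, n01, n10, n11⟩ := hN
    -- a point at which the cross product vanishes
    have hpar : ∀ b : Fin 2 → ℂ, p ⨯₃ ((b 0 • c ![0, 0] + b 1 • c ![0, 1]) ⨯₃
        (b 0 • c ![1, 0] + b 1 • c ![1, 1])) = 0 := by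
      intro b
      rw [cross_cross', dotProduct_comm, dotProduct_comm p (b 0 • c ![0, 0] + b 1 • c ![0, 1])]
      simp only [add_dotProduct, smul_dotProduct, n00, n01, n10, n11, smul_zero, add_zero,
        zero_smul, sub_zero]
    obtain ⟨k, hk⟩ : ∃ k, p k ≠ 0 := by
      by_contra hc
      push Not at hc
      exact hp (funext hc)
    obtain ⟨b, hb0, hb1⟩ : ∃ b : Fin 2 → ℂ, b ≠ 0 ∧ ((b 0 • c ![0, 0] + b 1 • c ![0, 1]) ⨯₃
        (b 0 • c ![1, 0] + b 1 • c ![1, 1])) k = 0 := by
      set α := (c ![0, 0] ⨯₃ c ![1, 0]) k with hα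
      set β := (c ![0, 0] ⨯₃ c ![1, 1] + c ![0, 1] ⨯₃ c ![1, 0]) k with hβ
      set γ := (c ![0, 1] ⨯₃ c ![1, 1]) k with hγ
      have hform : ∀ b : Fin 2 → ℂ, ((b 0 • c ![0, 0] + b 1 • c ![0, 1]) ⨯₃
          (b 0 • c ![1, 0] + b 1 • c ![1, 1])) k =
          α * (b 0 * b 0) + β * (b 0 * b 1) + γ * (b 1 * b 1) := by
        intro b
        rw [hα, hβ, hγ]
        simp only [map_add, map_smul, LinearMap.add_apply, LinearMap.smul_apply, Pi.add_apply,
          Pi.smul_apply, smul_eq_mul]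
        ring
      by_cases hα0 : α = 0
      · refine ⟨![1, 0], fun h => one_ne_zero (congrFun h 0), ?_⟩
        rw [hform]
        simp [hα0]
      · obtain ⟨s, hs⟩ := IsAlgClosed.exists_pow_nat_eq (discrim α β γ) (n := 2) (by norm_num)
        obtain ⟨z, hz⟩ := exists_quadratic_eq_zero hα0 ⟨s, by rw [← hs, pow_two]⟩
        refine ⟨![z, 1], fun h => one_ne_zero (congrFun h 1), ?_⟩
        rw [hform]
        simp only [cons_val_zero, cons_val_one]
        linear_combination hz
    obtain ⟨l, hl⟩ := par' hp (hpar b)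
    have hl0 : l = 0 := by
      have h3 := congrFun hl k
      rw [hb1, Pi.smul_apply, smul_eq_mul] at h3
      exact (mul_eq_zero.1 h3.symm).resolve_right hk
    rw [hl0, zero_smul] at hl
    set x := b 0 • c ![0, 0] + b 1 • c ![0, 1] with hx
    set y := b 0 • c ![1, 0] + b 1 • c ![1, 1] with hy
    by_cases hx0 : x = 0
    · refine hcov ![1, 0] b (fun h => one_ne_zero (congrFun h 0)) hb0 ?_
      rw [← hx, ← hy, hx0]
      simp
    · obtain ⟨μ, hμ⟩ := par' hx0 hl
      refine hcov ![-μ, 1] b (fun h => one_ne_zero (congrFun h 1)) hb0 ?_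
      rw [← hx, ← hy, hμ]
      simp
  · -- the form has rank one
    obtain ⟨i, j, hij⟩ : ∃ i j : Fin 2, c ![i, j] ⬝ᵥ p ≠ 0 := by
      by_contra hc
      push Not at hc
      exact hN ⟨hc 0 0, hc 0 1, hc 1 0, hc 1 1⟩
    refine hcov ![c ![1, j] ⬝ᵥ p, -(c ![0, j] ⬝ᵥ p)] ![c ![i, 1] ⬝ᵥ p, -(c ![i, 0] ⬝ᵥ p)] ?_ ?_ ?_
    · intro h
      have e0 : c ![1, j] ⬝ᵥ p = 0 := congrFun h 0
      have e1 : -(c ![0, j] ⬝ᵥ p) = 0 := congrFun h 1
      rw [neg_eq_zero] at e1
      have h2 : i = 0 ∨ i = 1 := by omega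
      rcases h2 with rfl | rfl
      · exact hij e1
      · exact hij e0
    · intro h
      have e0 : c ![i, 1] ⬝ᵥ p = 0 := congrFun h 0
      have e1 : -(c ![i, 0] ⬝ᵥ p) = 0 := congrFun h 1
      rw [neg_eq_zero] at e1
      have h2 : j = 0 ∨ j = 1 := by omega
      rcases h2 with rfl | rfl
      · exact hij e1
      · exact hij e0
    · have h1 : (c ![i, j] ⬝ᵥ p) • ((c ![1, 1] ⬝ᵥ p) • c ![0, 0] + (c ![0, 0] ⬝ᵥ p) • c ![1, 1] -
          (c ![1, 0] ⬝ᵥ p) • c ![0, 1] - (c ![0, 1] ⬝ᵥ p) • c ![1, 0]) = 0 := by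
        rw [hp', smul_zero]
      rw [← h1]
      unfold dsc at hrank
      have hi : i = 0 ∨ i = 1 := by omega
      have hj : j = 0 ∨ j = 1 := by omega
      simp only [cons_val_zero, cons_val_one]
      set n00 := c ![0, 0] ⬝ᵥ p
      set n01 := c ![0, 1] ⬝ᵥ p
      set n10 := c ![1, 0] ⬝ᵥ p
      set n11 := c ![1, 1] ⬝ᵥ p
      rcases hi with rfl | rfl <;> rcases hj with rfl | rfl <;>
      · apply ext3 <;>
        · simp only [Pi.add_apply, Pi.sub_apply, Pi.smul_apply, smul_eq_mul]
          first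
            | linear_combination (-(c ![0, 0] 0)) * hrank
            | linear_combination (-(c ![0, 0] 1)) * hrank
            | linear_combination (-(c ![0, 0] 2)) * hrank
            | linear_combination (-(c ![0, 1] 0)) * hrank
            | linear_combination (-(c ![0, 1] 1)) * hrank
            | linear_combination (-(c ![0, 1] 2)) * hrank
            | linear_combination (-(c ![1, 0] 0)) * hrank
            | linear_combination (-(c ![1, 0] 1)) * hrank
            | linear_combination (-(c ![1, 0] 2)) * hrank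
            | linear_combination (-(c ![1, 1] 0)) * hrank
            | linear_combination (-(c ![1, 1] 1)) * hrank
            | linear_combination (-(c ![1, 1] 2)) * hrank

end Pool.Agent.K1H88.CH
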