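import Pool.Agent.K1H88.PG.Path

/-! Covectors which are primitive up to a bounded factor, and the counts for them. -/

namespace Pool.Agent.K1H88.CH

open Matrix Pool.Agent.K1H88.PG
open Pool.Agent.H548.WM (ht Rep le_ht' ht_le mem_bx)

/-- A vector of size about `Q`, primitive up to a bounded factor. -/
def GV (D Q : ℝ) (w : V) : Prop :=
  ∃ (c : V) (d : ℤ), c ⬝ᵥ w = d ∧ d ≠ 0 ∧ |(d : ℝ)| ≤ D ∧ Q ≤ D * ht w ∧ (ht w : ℝ) ≤ D * Q

theorem GV.ne {D Q : ℝ} {w : V} (h : GV D Q w) : w ≠ 0 := by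
  obtain ⟨c, d, h1, h2, -⟩ := h
  rintro rfl
  apply h2
  rw [← h1, dotProduct_zero]

theorem GV.pos {D Q : ℝ} {w : V} (h : GV D Q w) : (0 : ℝ) < ht w := by
  have := ht_pos h.ne
  exact_mod_cast this

theorem GV.D_pos {D Q : ℝ} {w : V} (h : GV D Q w) : 1 ≤ D := by
  obtain ⟨c, d, -, h2, h3, -⟩ := h
  have : (1 : ℝ) ≤ |(d : ℝ)| := by exact_mod_cast Int.one_le_abs h2
  linarith

theorem GV.mono {D D' Q : ℝ} {w : V} (h : GV D Q w) (hQ : 0 ≤ Q) (hD : D ≤ D') : GV D' Q w := by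
  have hp := h.pos
  obtain ⟨c, d, h1, h2, h3, h4, h5⟩ := h
  refine ⟨c, d, h1, h2, h3.trans hD, h4.trans ?_, h5.trans ?_⟩
  · exact mul_le_mul_of_nonneg_right hD hp.le
  · exact mul_le_mul_of_nonneg_right hD hQ

/-- The constant for a matrix. -/
noncomputable def Dm (a : ℕ) : ℝ := 6 * (a : ℝ) ^ 3 + 6 * (a : ℝ) ^ 2 + 6 * a + 1

/-- Images of primitive vectors. -/
theorem gv_mul {M : Matrix (Fin 3) (Fin 3) ℤ} {a : ℕ} (h : Ent M a) (hM : M.det ≠ 0) {x : V}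
    (hx : Rep x) {X : ℝ} (h1 : X ≤ ht x) (h2 : (ht x : ℝ) ≤ 2 * X) : GV (Dm a) X (M *ᵥ x) := by
  obtain ⟨c, hc⟩ := bez_mul M hx
  have e1 : (ht x : ℝ) ≤ 6 * a ^ 2 * ht (M *ᵥ x) := by exact_mod_cast low h hM x
  have e2 : (ht (M *ᵥ x) : ℝ) ≤ 3 * a * ht x := by exact_mod_cast h.mul x
  have e3 := det_ent' h
  have ha : (0 : ℝ) ≤ a := Nat.cast_nonneg a
  have hp : (0 : ℝ) ≤ ht (M *ᵥ x) := Nat.cast_nonneg _
  have hX : 0 ≤ X := by
    have : (0 : ℝ) ≤ ht x := Nat.cast_nonneg _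
    linarith
  refine ⟨c, M.det, hc, hM, ?_, ?_, ?_⟩
  · unfold Dm
    have : 0 ≤ 6 * (a : ℝ) ^ 2 + 6 * a + 1 := by positivity
    linarith
  · refine h1.trans (e1.trans ?_)
    unfold Dm
    apply mul_le_mul_of_nonneg_right _ hp
    have : 0 ≤ 6 * (a : ℝ) ^ 3 + 6 * a + 1 := by positivity
    linarith
  · refine e2.trans ?_
    unfold Dm
    have : 0 ≤ (6 * (a : ℝ) ^ 3 + 6 * (a : ℝ) ^ 2 + 1) * X := by positivity
    have h3 : 3 * a * (ht x : ℝ) ≤ 3 * a * (2 * X) := by gcongr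
    nlinarith

theorem gv_one {D Q : ℝ} {w : V} (h : GV D Q w) (hQ : 1 ≤ Q) {Y : ℝ} (hY : 0 ≤ Y) :
    Bd {y : V | Rep y ∧ w ⬝ᵥ y = 0 ∧ (ht y : ℝ) ≤ 2 * Y} (1 + 72 * D ^ 2 * (Y ^ 2 / Q)) := by
  have hp := h.pos
  have hD := h.D_pos
  obtain ⟨c, d, h1, h2, h3, h4, h5⟩ := h
  refine (one w c d h1 h2 (2 * Y) (by positivity)).mono subset_rfl ?_
  have e1 : 1 / (ht w : ℝ) ≤ D / Q := by
    rw [div_le_div_iff₀ hp (by linarith)]
    linarith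
  calc 1 + 9 * (2 * |(d : ℝ)| * (2 * Y) ^ 2 / ht w)
      = 1 + 72 * (|(d : ℝ)| * (1 / (ht w : ℝ))) * Y ^ 2 := by field_simp; ring
    _ ≤ 1 + 72 * (D * (D / Q)) * Y ^ 2 := by gcongr
    _ = _ := by field_simp

/-- Pairs between two given covectors. -/
theorem gv_pair (a : ℕ) (D ε : ℝ) (hε : 0 < ε) : ∃ C : ℝ, 0 ≤ C ∧
    ∀ (B : Matrix (Fin 3) (Fin 3) ℤ), Ent B a → B.det ≠ 0 → ∀ (u w : V) (P Q Y Y' Z : ℝ),
      1 ≤ P → 1 ≤ Q → GV D P u → GV D Q w → P ≤ Z → Q ≤ Z → 0 ≤ Y → 0 ≤ Y' →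
        (B.adjugate *ᵥ u) ⬝ᵥ w ≠ 0 →
        Bd {v : V × V | Rep v.1 ∧ Rep v.2 ∧ u ⬝ᵥ v.1 = 0 ∧ w ⬝ᵥ v.2 = 0 ∧
          v.1 ⬝ᵥ (B *ᵥ v.2) = 0 ∧ (ht v.1 : ℝ) ≤ 2 * Y ∧ (ht v.2 : ℝ) ≤ 2 * Y'}
        (C * (1 + Y * Y' / (P * Q)) * Z ^ ε) := by
  rcases lt_or_ge D 1 with hD | hD
  · refine ⟨0, le_rfl, ?_⟩
    intro B hB hBd u w P Q Y Y' Z hP hQ hu
    have := hu.D_pos
    linarith
  obtain ⟨C, hC, hdiv⟩ := Pool.Agent.Helper112.divisor_bound (ε / 2) (by positivity)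
  set c1 : ℝ := 1 + 2916 * (a : ℝ) ^ 2 * D ^ 4 with hc1
  set c2 : ℝ := 6 * (a : ℝ) ^ 3 * (18 * (a : ℝ) ^ 2 * D ^ 2) with hc2
  have hc1p : 1 ≤ c1 := by
    have : (0 : ℝ) ≤ 2916 * (a : ℝ) ^ 2 * D ^ 4 := by positivity
    linarith
  have hc2p : 0 ≤ c2 := by positivity
  refine ⟨c1 * (2 * (C * c2 ^ (ε / 2))), by positivity, ?_⟩
  intro B hB hBd u w P Q Y Y' Z hP hQ hu hw hPZ hQZ hY hY' hδ
  have hu0 := hu.pos
  have hw0 := hw.pos
  obtain ⟨cu, du, u1, u2, u3, u4, u5⟩ := hu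
  obtain ⟨cw, dw, w1, w2, w3, w4, w5⟩ := hw
  have h0 := two B hBd a hB u w cu cw _ _ u1 u2 w1 w2 hδ (2 * Y) (2 * Y') (by positivity)
    (by positivity)
  refine h0.mono subset_rfl ?_
  have hP0 : 0 < P := by linarith
  have hQ0 : 0 < Q := by linarith
  have hZ0 : 0 < Z := by linarith
  have hu2 : 1 / (ht u : ℝ) ≤ D / P := by
    rw [div_le_div_iff₀ hu0 hP0]
    linarith
  have hw2 : 1 / (ht w : ℝ) ≤ D / Q := by
    rw [div_le_div_iff₀ hw0 hQ0]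
    linarith
  have d3 := det_ent' hB
  -- the first factor
  have e1 : 1 + 9 * (81 * a ^ 2 * |(du : ℝ)| * |(dw : ℝ)| * (2 * Y) * (2 * Y') /
      (ht u * ht w)) ≤ c1 * (1 + Y * Y' / (P * Q)) := by
    have f1 : 9 * (81 * a ^ 2 * |(du : ℝ)| * |(dw : ℝ)| * (2 * Y) * (2 * Y') /
        (ht u * ht w)) ≤ (c1 - 1) * (Y * Y' / (P * Q)) := by
      calc 9 * (81 * a ^ 2 * |(du : ℝ)| * |(dw : ℝ)| * (2 * Y) * (2 * Y') / (ht u * ht w))
          = 9 * (81 * a ^ 2 * |(du : ℝ)| * |(dw : ℝ)| * (4 * (1 / (ht u : ℝ)) *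
            (1 / (ht w : ℝ)))) * (Y * Y') := by field_simp; ring
        _ ≤ 9 * (81 * a ^ 2 * D * D * (4 * (D / P) * (D / Q))) * (Y * Y') := by gcongr
        _ = (c1 - 1) * (Y * Y' / (P * Q)) := by
            rw [hc1]
            field_simp
            ring
    have f2 : 0 ≤ Y * Y' / (P * Q) := by positivity
    nlinarith
  -- the divisor function
  have e2 : ((B.det * ((B.adjugate *ᵥ u) ⬝ᵥ w)).natAbs.divisors.card : ℝ) ≤
      C * c2 ^ (ε / 2) * Z ^ ε := by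
    set N := B.det * ((B.adjugate *ᵥ u) ⬝ᵥ w) with hN
    have hN0 : N ≠ 0 := mul_ne_zero hBd hδ
    have g1 : (N.natAbs : ℝ) ≤ c2 * Z ^ 2 := by
      have g2 : (N.natAbs : ℝ) = |(N : ℝ)| := by
        rw [Nat.cast_natAbs, Int.cast_abs]
      have g3 : |(((B.adjugate *ᵥ u) ⬝ᵥ w : ℤ) : ℝ)| ≤
          3 * ht (B.adjugate *ᵥ u) * ht w := by exact_mod_cast dot_le _ _
      have g4 : (ht (B.adjugate *ᵥ u) : ℝ) ≤ 3 * (2 * a ^ 2) * ht u := by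
        exact_mod_cast (adj_ent hB).mul u
      rw [g2, hN, Int.cast_mul, abs_mul]
      calc |(B.det : ℝ)| * |(((B.adjugate *ᵥ u) ⬝ᵥ w : ℤ) : ℝ)|
          ≤ (6 * (a : ℝ) ^ 3) * (3 * (3 * (2 * a ^ 2) * (D * P)) * (D * Q)) := by
            refine mul_le_mul d3 ?_ (abs_nonneg _) (by positivity)
            refine g3.trans ?_
            have g5 : (ht (B.adjugate *ᵥ u) : ℝ) ≤ 3 * (2 * a ^ 2) * (D * P) :=
              g4.trans (by gcongr)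
            gcongr
        _ = c2 * (P * Q) := by rw [hc2]; ring
        _ ≤ c2 * (Z * Z) := by gcongr
        _ = c2 * Z ^ 2 := by ring
    have g6 := hdiv N.natAbs (Int.natAbs_pos.2 hN0)
    refine g6.trans ?_
    rw [mul_assoc]
    refine mul_le_mul_of_nonneg_left ?_ hC.le
    calc (N.natAbs : ℝ) ^ (ε / 2) ≤ (c2 * Z ^ 2) ^ (ε / 2) :=
          Real.rpow_le_rpow (by positivity) g1 (by positivity)
      _ = c2 ^ (ε / 2) * Z ^ ε := by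
          rw [Real.mul_rpow hc2p (by positivity), ← Real.rpow_natCast Z 2,
            ← Real.rpow_mul hZ0.le]
          congr 2
          push_cast
          ring
  calc _ ≤ (c1 * (1 + Y * Y' / (P * Q))) * (2 * (C * c2 ^ (ε / 2) * Z ^ ε)) := by
        refine mul_le_mul e1 (by gcongr) (by positivity) (by positivity)
    _ = _ := by ring

/-- One vertex between two given covectors. -/
theorem unique_mid {u w y y' : V} (h : u ⨯₃ w ≠ 0) (hy : Rep y) (hy' : Rep y')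
    (h1 : u ⬝ᵥ y = 0) (h2 : w ⬝ᵥ y = 0) (h3 : u ⬝ᵥ y' = 0) (h4 : w ⬝ᵥ y' = 0) : y = y' := by
  apply par_eq hy hy'
  have e1 : y ⨯₃ (u ⨯₃ w) = 0 := by
    rw [cross_cross', dotProduct_comm y w, h2, zero_smul, dotProduct_comm y u, h1, zero_smul,
      sub_self]
  have e2 : y' ⨯₃ (u ⨯₃ w) = 0 := by
    rw [cross_cross', dotProduct_comm y' w, h4, zero_smul, dotProduct_comm y' u, h3, zero_smul,
      sub_self]
  obtain ⟨n, hn⟩ := par hy e1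
  have hn0 : n ≠ 0 := by
    rintro rfl
    apply h
    rw [hn, zero_smul]
  rw [hn, map_smul] at e2
  have e3 := (smul_eq_zero.1 e2).resolve_left hn0
  rw [← cross_anticomm, e3, neg_zero]

end Pool.Agent.K1H88.CH
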